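import Mathlib

set_option autoImplicit false
set_option linter.unusedSimpArgs false

namespace Pool.Agent.Lib.MP_7b50be_co

open Equiv Equiv.Perm

lemma not_sc_of_inv {W B : Type*} {g : Perm W} {u v : W} (φ : W → B)
    (hφ : ∀ w, φ (g w) = φ w) (h : φ u ≠ φ v) : ¬ g.SameCycle u v := by
  rintro ⟨i, hi⟩
  apply h
  have h1 : ∀ (n : ℕ) (w : W), φ ((g ^ n) w) = φ w := by
    intro n
    induction n with
    | zero => intro w; simp
    | succ n ih => intro w; rw [pow_succ', Perm.mul_apply, hφ, ih]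
  have h2 : ∀ (i : ℤ) (w : W), φ ((g ^ i) w) = φ w := by
    intro i w
    cases i with
    | ofNat n => simpa using h1 n w
    | negSucc n =>
      have h3 := h1 (n + 1) ((g ^ (Int.negSucc n)) w)
      rw [← h3, zpow_negSucc]
      simp
  rw [← hi, h2]

lemma sc_merge {W : Type*} [DecidableEq W] [Finite W] (g : Perm W) (u v : W)
    (h : ¬ g.SameCycle u v) :
    (∀ x y, g.SameCycle x y → (g * swap u v).SameCycle x y) ∧ (g * swap u v).SameCycle u v := by
  classical
  -- points of the orbit of `u` still reach `u`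
  have key : ∀ (u v : W), ¬ g.SameCycle u v → ∀ x, g.SameCycle x u →
      (g * swap u v).SameCycle x u := by
    intro u v h x hx
    obtain ⟨n, hn⟩ : ∃ n : ℕ, (g ^ n) x = u := hx.exists_nat_pow_eq
    have hex : ∃ n : ℕ, (g ^ n) x = u := ⟨n, hn⟩
    have hmin : ∀ m, m < Nat.find hex → ¬ (g ^ m) x = u := fun m hm => Nat.find_min hex hm
    have hspec := Nat.find_spec hex
    set N := Nat.find hex with hN
    have hstep : ∀ i, i ≤ N → ((g * swap u v) ^ i) x = (g ^ i) x := by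
      intro i
      induction i with
      | zero => intro _; simp
      | succ i ih =>
        intro hi
        rw [pow_succ', Perm.mul_apply, ih (by omega), pow_succ', Perm.mul_apply, Perm.mul_apply]
        rw [swap_apply_of_ne_of_ne]
        · exact hmin i (by omega)
        · intro hv
          apply h
          have h1 : g.SameCycle x v := ⟨i, by simpa using hv⟩
          exact hx.symm.trans h1
    exact ⟨N, by simpa using (hstep N le_rfl).trans hspec⟩
  have hv : ¬ g.SameCycle v u := fun h' => h h'.symm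
  have keyu := key u v h
  have keyv : ∀ x, g.SameCycle x v → (g * swap u v).SameCycle x v := by
    intro x hx
    rw [swap_comm]
    exact key v u hv x hx
  have huv : (g * swap u v).SameCycle u v := by
    have h1 : (g * swap u v) v = g u := by simp
    have h2 : (g * swap u v).SameCycle (g u) u := keyu _ ((sameCycle_apply_left).mpr (SameCycle.refl _ _))
    rw [← h1] at h2
    exact ((sameCycle_apply_left.mp h2)).symm
  refine ⟨?_, huv⟩
  intro x y hxy
  by_cases hxu : g.SameCycle x u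
  · exact (keyu x hxu).trans (keyu y (hxy.symm.trans hxu)).symm
  · by_cases hxv : g.SameCycle x v
    · exact (keyv x hxv).trans (keyv y (hxy.symm.trans hxv)).symm
    · obtain ⟨n, hn⟩ : ∃ n : ℕ, (g ^ n) x = y := hxy.exists_nat_pow_eq
      have hstep : ∀ i, ((g * swap u v) ^ i) x = (g ^ i) x := by
        intro i
        induction i with
        | zero => simp
        | succ i ih =>
          rw [pow_succ', Perm.mul_apply, ih, pow_succ', Perm.mul_apply, Perm.mul_apply]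
          rw [swap_apply_of_ne_of_ne]
          · intro h'; exact hxu ⟨i, by simpa using h'⟩
          · intro h'; exact hxv ⟨i, by simpa using h'⟩
      exact ⟨n, by simpa using (hstep n).trans hn⟩

/-- The permutation acting on levels `0, 2` as `σ` and on levels `1, 3` as `σ⁻¹`. -/
def lvl {V : Type*} (σ : Perm V) : Perm (V × ZMod 4) :=
  Equiv.prodCongrLeft (fun ℓ : ZMod 4 => if ℓ = 0 ∨ ℓ = 2 then σ else σ⁻¹)

lemma lvl_apply {V : Type*} (σ : Perm V) (x : V) (ℓ : ZMod 4) :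
    lvl σ (x, ℓ) = (if ℓ = 0 ∨ ℓ = 2 then σ x else σ⁻¹ x, ℓ) := by
  unfold lvl
  rw [Equiv.prodCongrLeft_apply]
  split_ifs <;> rfl

lemma lvl_sc {V : Type*} (σ : Perm V) (hσ : ∀ x y, σ.SameCycle x y) (x y : V) (ℓ : ZMod 4) :
    (lvl σ).SameCycle (x, ℓ) (y, ℓ) := by
  by_cases h : ℓ = 0 ∨ ℓ = 2
  · obtain ⟨i, hi⟩ := hσ x y
    have h1 : ∀ (n : ℕ) (x : V), ((lvl σ) ^ n) (x, ℓ) = ((σ ^ n) x, ℓ) := by
      intro n
      induction n with
      | zero => intro x; simp
      | succ n ih => intro x; rw [pow_succ', Perm.mul_apply, ih, lvl_apply, if_pos h, pow_succ',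
          Perm.mul_apply]
    cases i with
    | ofNat n =>
      refine ⟨(n : ℤ), ?_⟩
      rw [zpow_natCast, h1]
      simpa using hi
    | negSucc n =>
      refine ⟨Int.negSucc n, ?_⟩
      rw [zpow_negSucc, Perm.inv_eq_iff_eq, h1]
      rw [zpow_negSucc, Perm.inv_eq_iff_eq] at hi
      rw [← hi]
  · obtain ⟨i, hi⟩ := hσ y x
    have h1 : ∀ (n : ℕ) (x : V), ((lvl σ) ^ n) (x, ℓ) = ((σ⁻¹ ^ n) x, ℓ) := by
      intro n
      induction n with
      | zero => intro x; simp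
      | succ n ih => intro x; rw [pow_succ', Perm.mul_apply, ih, lvl_apply, if_neg h, pow_succ',
          Perm.mul_apply]
    cases i with
    | ofNat n =>
      refine ⟨(n : ℤ), ?_⟩
      rw [zpow_natCast, h1, inv_pow, Prod.mk.injEq]
      refine ⟨?_, rfl⟩
      rw [Perm.inv_eq_iff_eq]
      simpa using hi.symm
    | negSucc n =>
      refine ⟨Int.negSucc n, ?_⟩
      rw [zpow_negSucc, Perm.inv_eq_iff_eq, h1, inv_pow]
      rw [zpow_negSucc] at hi
      rw [hi]

/-- The merged permutation: the four level copies of `σ`, joined at the three chords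
`{t k, h k}` in the gaps `3`, `1`, `0`. -/
def mrg {V : Type*} [DecidableEq V] (σ : Perm V) (t h : Fin 3 → V) : Perm (V × ZMod 4) :=
  lvl σ * swap (t 2, 0) (h 2, 1) * swap (h 1, 1) (t 1, 2) * swap (h 0, 3) (t 0, 0)

section mrg

variable {V : Type*} [DecidableEq V] (σ : Perm V) (t h : Fin 3 → V)

/-- The gap of the `k`-th chord. -/
def gp : Fin 3 → ZMod 4 := ![3, 1, 0]

variable {σ t h}

/-- Distinctness of the chord endpoints. -/
structure ChordOK (σ : Perm V) (t h : Fin 3 → V) : Prop where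
  ht : Function.Injective t
  hh : Function.Injective h
  hth : ∀ k k', t k ≠ h k'
  hσ : ∀ k, σ (t k) = h k

lemma mrg_vals (H : ChordOK σ t h) :
    mrg σ t h (t 2, 0) = (t 2, 1) ∧ mrg σ t h (h 2, 1) = (h 2, 0) ∧
    mrg σ t h (h 1, 1) = (h 1, 2) ∧ mrg σ t h (t 1, 2) = (t 1, 1) ∧
    mrg σ t h (h 0, 3) = (h 0, 0) ∧ mrg σ t h (t 0, 0) = (t 0, 3) := by
  have ht01 : t 0 ≠ t 1 := fun h' => absurd (H.ht h') (by decide)
  have ht02 : t 0 ≠ t 2 := fun h' => absurd (H.ht h') (by decide)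
  have ht12 : t 1 ≠ t 2 := fun h' => absurd (H.ht h') (by decide)
  have hh01 : h 0 ≠ h 1 := fun h' => absurd (H.hh h') (by decide)
  have hh02 : h 0 ≠ h 2 := fun h' => absurd (H.hh h') (by decide)
  have hh12 : h 1 ≠ h 2 := fun h' => absurd (H.hh h') (by decide)
  have hinv : ∀ k, σ⁻¹ (h k) = t k := fun k => Perm.inv_eq_iff_eq.mpr (H.hσ k).symm
  have d1 : ¬ ((1 : ZMod 4) = 0 ∨ (1 : ZMod 4) = 2) := by decide
  have d3 : ¬ ((3 : ZMod 4) = 0 ∨ (3 : ZMod 4) = 2) := by decide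
  have d0 : ((0 : ZMod 4) = 0 ∨ (0 : ZMod 4) = 2) := by decide
  have d2 : ((2 : ZMod 4) = 0 ∨ (2 : ZMod 4) = 2) := by decide
  have e01 : ¬ (0 : ZMod 4) = 1 := by decide
  have e10 : ¬ (1 : ZMod 4) = 0 := by decide
  have e02 : ¬ (0 : ZMod 4) = 2 := by decide
  have e20 : ¬ (2 : ZMod 4) = 0 := by decide
  have e03 : ¬ (0 : ZMod 4) = 3 := by decide
  have e30 : ¬ (3 : ZMod 4) = 0 := by decide
  have e12 : ¬ (1 : ZMod 4) = 2 := by decide
  have e21 : ¬ (2 : ZMod 4) = 1 := by decide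
  have e13 : ¬ (1 : ZMod 4) = 3 := by decide
  have e31 : ¬ (3 : ZMod 4) = 1 := by decide
  have e23 : ¬ (2 : ZMod 4) = 3 := by decide
  have e32 : ¬ (3 : ZMod 4) = 2 := by decide
  refine ⟨?_, ?_, ?_, ?_, ?_, ?_⟩ <;>
  simp only [mrg, Perm.mul_apply, swap_apply_def, Prod.mk.injEq, lvl_apply, H.hσ, hinv, d0, d1,
    d2, d3, e01, e10, e02, e20, e03, e30, e12, e21, e13, e31, e23, e32, ht01, ht02, ht12,
    ht01.symm, ht02.symm, ht12.symm, hh01, hh02, hh12, hh01.symm, hh02.symm, hh12.symm,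
    H.hth, (H.hth _ _).symm, if_true, if_false, and_true, and_false, true_and, false_and,
    false_or, or_false, ite_true, ite_false]

lemma mrg_other {w : V × ZMod 4} (h1 : w ≠ (t 2, 0)) (h2 : w ≠ (h 2, 1)) (h3 : w ≠ (h 1, 1))
    (h4 : w ≠ (t 1, 2)) (h5 : w ≠ (h 0, 3)) (h6 : w ≠ (t 0, 0)) :
    mrg σ t h w = lvl σ w := by
  unfold mrg
  simp only [Perm.mul_apply]
  rw [swap_apply_of_ne_of_ne h5 h6, swap_apply_of_ne_of_ne h3 h4, swap_apply_of_ne_of_ne h1 h2]

lemma zmod4_cases (ℓ : ZMod 4) : ℓ = 0 ∨ ℓ = 1 ∨ ℓ = 2 ∨ ℓ = 3 := by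
  revert ℓ; decide

lemma mrg_sc [Finite V] (hsc : ∀ x y, σ.SameCycle x y)
    (w w' : V × ZMod 4) : (mrg σ t h).SameCycle w w' := by
  set g0 : Perm (V × ZMod 4) := lvl σ with hg0
  set g1 : Perm (V × ZMod 4) := g0 * swap (t 2, 0) (h 2, 1) with hg1
  set g2 : Perm (V × ZMod 4) := g1 * swap (h 1, 1) (t 1, 2) with hg2
  have hg3 : mrg σ t h = g2 * swap (h 0, 3) (t 0, 0) := rfl
  have hswap : ∀ (B : Type) (ψ : V × ZMod 4 → B) (u v : V × ZMod 4), ψ u = ψ v →
      ∀ w, ψ (swap u v w) = ψ w := by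
    intro B ψ u v huv w
    rw [swap_apply_def]
    split_ifs with h1 h2
    · rw [h1, huv]
    · rw [h2, huv]
    · rfl
  have hl : ∀ w : V × ZMod 4, (g0 w).2 = w.2 := by
    rintro ⟨x, ℓ⟩; rw [hg0, lvl_apply]
  have n0 : ¬ g0.SameCycle (t 2, 0) (h 2, 1) :=
    not_sc_of_inv (fun w : V × ZMod 4 => w.2) hl (show (0 : ZMod 4) ≠ 1 by decide)
  have n1 : ¬ g1.SameCycle (h 1, 1) (t 1, 2) := by
    apply not_sc_of_inv (fun w : V × ZMod 4 => decide (w.2 = 2))
    · intro w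
      rw [hg1, Perm.mul_apply]
      simp only [hl]
      exact hswap Bool (fun w => decide (w.2 = 2)) _ _
        (show decide ((0 : ZMod 4) = 2) = decide ((1 : ZMod 4) = 2) by decide) w
    · exact (show decide ((1 : ZMod 4) = 2) ≠ decide ((2 : ZMod 4) = 2) by decide)
  have n2 : ¬ g2.SameCycle (h 0, 3) (t 0, 0) := by
    apply not_sc_of_inv (fun w : V × ZMod 4 => decide (w.2 = 3))
    · intro w
      rw [hg2, hg1, Perm.mul_apply, Perm.mul_apply]
      simp only [hl]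
      rw [hswap Bool (fun w => decide (w.2 = 3)) _ _
        (show decide ((0 : ZMod 4) = 3) = decide ((1 : ZMod 4) = 3) by decide)]
      exact hswap Bool (fun w => decide (w.2 = 3)) _ _
        (show decide ((1 : ZMod 4) = 3) = decide ((2 : ZMod 4) = 3) by decide) w
    · exact (show decide ((3 : ZMod 4) = 3) ≠ decide ((0 : ZMod 4) = 3) by decide)
  obtain ⟨m0, l0⟩ := sc_merge g0 _ _ n0
  obtain ⟨m1, l1⟩ := sc_merge g1 _ _ n1
  obtain ⟨m2, l2⟩ := sc_merge g2 _ _ n2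
  rw [hg3]
  have hlev : ∀ x y ℓ, (g2 * swap (h 0, 3) (t 0, 0)).SameCycle (x, ℓ) (y, ℓ) := by
    intro x y ℓ
    exact m2 _ _ (m1 _ _ (m0 _ _ (lvl_sc σ hsc x y ℓ)))
  have k01 : (g2 * swap (h 0, 3) (t 0, 0)).SameCycle (t 2, 0) (h 2, 1) := m2 _ _ (m1 _ _ l0)
  have k12 : (g2 * swap (h 0, 3) (t 0, 0)).SameCycle (h 1, 1) (t 1, 2) := m2 _ _ l1
  have k30 : (g2 * swap (h 0, 3) (t 0, 0)).SameCycle (h 0, 3) (t 0, 0) := l2
  have hall : ∀ w : V × ZMod 4, (g2 * swap (h 0, 3) (t 0, 0)).SameCycle w (t 0, 0) := by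
    rintro ⟨x, ℓ⟩
    have h1 : (g2 * swap (h 0, 3) (t 0, 0)).SameCycle (h 2, 1) (t 0, 0) :=
      k01.symm.trans (hlev _ _ 0)
    rcases zmod4_cases ℓ with rfl | rfl | rfl | rfl
    · exact hlev _ _ _
    · exact (hlev _ _ 1).trans h1
    · exact (hlev x (t 1) 2).trans (k12.symm.trans ((hlev _ _ 1).trans h1))
    · exact (hlev _ _ 3).trans k30
  exact (hall w).trans (hall w').symm

lemma mrg_cover_h (H : ChordOK σ t h) (x : V) (ℓ : ZMod 4)
    (hx : ∀ k, x = t k → ℓ ≠ gp k ∧ ℓ ≠ gp k + 1) :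
    mrg σ t h (x, ℓ) = (σ x, ℓ) ∨ mrg σ t h (σ x, ℓ) = (x, ℓ) := by
  have hσx : ∀ k, σ x = h k → x = t k := fun k hk => σ.injective (by rw [H.hσ, hk])
  have e0 : (gp 0 : ZMod 4) = 3 := rfl
  have e1 : (gp 1 : ZMod 4) = 1 := rfl
  have e2 : (gp 2 : ZMod 4) = 0 := rfl
  have f0 : (3 : ZMod 4) + 1 = 0 := by decide
  have f1 : (1 : ZMod 4) + 1 = 2 := by decide
  have f2 : (0 : ZMod 4) + 1 = 1 := by decide
  rcases zmod4_cases ℓ with rfl | rfl | rfl | rfl
  · left
    rw [mrg_other, lvl_apply, if_pos (by decide)]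
    · intro h'; rw [Prod.mk.injEq] at h'
      exact (hx 2 h'.1).1 e2.symm
    · intro h'; rw [Prod.mk.injEq] at h'; exact absurd h'.2 (by decide)
    · intro h'; rw [Prod.mk.injEq] at h'; exact absurd h'.2 (by decide)
    · intro h'; rw [Prod.mk.injEq] at h'; exact absurd h'.2 (by decide)
    · intro h'; rw [Prod.mk.injEq] at h'; exact absurd h'.2 (by decide)
    · intro h'; rw [Prod.mk.injEq] at h'
      exact (hx 0 h'.1).2 (by rw [e0, f0])
  · right
    rw [mrg_other, lvl_apply, if_neg (by decide), show σ⁻¹ (σ x) = x by simp]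
    · intro h'; rw [Prod.mk.injEq] at h'; exact absurd h'.2 (by decide)
    · intro h'; rw [Prod.mk.injEq] at h'
      exact (hx 2 (hσx 2 h'.1)).2 (by rw [e2, f2])
    · intro h'; rw [Prod.mk.injEq] at h'
      exact (hx 1 (hσx 1 h'.1)).1 (by rw [e1])
    · intro h'; rw [Prod.mk.injEq] at h'; exact absurd h'.2 (by decide)
    · intro h'; rw [Prod.mk.injEq] at h'; exact absurd h'.2 (by decide)
    · intro h'; rw [Prod.mk.injEq] at h'; exact absurd h'.2 (by decide)
  · left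
    rw [mrg_other, lvl_apply, if_pos (by decide)]
    · intro h'; rw [Prod.mk.injEq] at h'; exact absurd h'.2 (by decide)
    · intro h'; rw [Prod.mk.injEq] at h'; exact absurd h'.2 (by decide)
    · intro h'; rw [Prod.mk.injEq] at h'; exact absurd h'.2 (by decide)
    · intro h'; rw [Prod.mk.injEq] at h'
      exact (hx 1 h'.1).2 (by rw [e1, f1])
    · intro h'; rw [Prod.mk.injEq] at h'; exact absurd h'.2 (by decide)
    · intro h'; rw [Prod.mk.injEq] at h'; exact absurd h'.2 (by decide)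
  · right
    rw [mrg_other, lvl_apply, if_neg (by decide), show σ⁻¹ (σ x) = x by simp]
    · intro h'; rw [Prod.mk.injEq] at h'; exact absurd h'.2 (by decide)
    · intro h'; rw [Prod.mk.injEq] at h'; exact absurd h'.2 (by decide)
    · intro h'; rw [Prod.mk.injEq] at h'; exact absurd h'.2 (by decide)
    · intro h'; rw [Prod.mk.injEq] at h'; exact absurd h'.2 (by decide)
    · intro h'; rw [Prod.mk.injEq] at h'
      exact (hx 0 (hσx 0 h'.1)).1 (by rw [e0])
    · intro h'; rw [Prod.mk.injEq] at h'; exact absurd h'.2 (by decide)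

lemma mrg_cover_v (H : ChordOK σ t h) (k : Fin 3) (x : V) (hx : x = t k ∨ x = h k) :
    mrg σ t h (x, gp k) = (x, gp k + 1) ∨ mrg σ t h (x, gp k + 1) = (x, gp k) := by
  obtain ⟨v1, v2, v3, v4, v5, v6⟩ := mrg_vals H
  have e0 : (gp 0 : ZMod 4) = 3 := rfl
  have e1 : (gp 1 : ZMod 4) = 1 := rfl
  have e2 : (gp 2 : ZMod 4) = 0 := rfl
  have f0 : (3 : ZMod 4) + 1 = 0 := by decide
  have f1 : (1 : ZMod 4) + 1 = 2 := by decide
  have f2 : (0 : ZMod 4) + 1 = 1 := by decide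
  fin_cases k
  · change mrg σ t h (x, gp 0) = (x, gp 0 + 1) ∨ mrg σ t h (x, gp 0 + 1) = (x, gp 0)
    change x = t 0 ∨ x = h 0 at hx
    rw [e0, f0]
    rcases hx with rfl | rfl
    · right; exact v6
    · left; exact v5
  · change mrg σ t h (x, gp 1) = (x, gp 1 + 1) ∨ mrg σ t h (x, gp 1 + 1) = (x, gp 1)
    change x = t 1 ∨ x = h 1 at hx
    rw [e1, f1]
    rcases hx with rfl | rfl
    · right; exact v4
    · left; exact v3
  · change mrg σ t h (x, gp 2) = (x, gp 2 + 1) ∨ mrg σ t h (x, gp 2 + 1) = (x, gp 2)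
    change x = t 2 ∨ x = h 2 at hx
    rw [e2, f2]
    rcases hx with rfl | rfl
    · left; exact v1
    · right; exact v2

/-- Every step of the merged permutation is a step of `σ^{±1}` in a level, or a step to an
adjacent level. -/
lemma mrg_step (H : ChordOK σ t h) (x : V) (ℓ : ZMod 4) :
    mrg σ t h (x, ℓ) = (σ x, ℓ) ∨ mrg σ t h (x, ℓ) = (σ⁻¹ x, ℓ) ∨
    mrg σ t h (x, ℓ) = (x, ℓ + 1) ∨ mrg σ t h (x, ℓ) = (x, ℓ - 1) := by
  obtain ⟨v1, v2, v3, v4, v5, v6⟩ := mrg_vals H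
  by_cases c1 : (x, ℓ) = (t 2, (0 : ZMod 4))
  · rw [Prod.mk.injEq] at c1
    obtain ⟨rfl, rfl⟩ := c1
    right; right; left; rw [v1]; rfl
  by_cases c2 : (x, ℓ) = (h 2, (1 : ZMod 4))
  · rw [Prod.mk.injEq] at c2
    obtain ⟨rfl, rfl⟩ := c2
    right; right; right; rw [v2]; rfl
  by_cases c3 : (x, ℓ) = (h 1, (1 : ZMod 4))
  · rw [Prod.mk.injEq] at c3
    obtain ⟨rfl, rfl⟩ := c3
    right; right; left; rw [v3]; rfl
  by_cases c4 : (x, ℓ) = (t 1, (2 : ZMod 4))
  · rw [Prod.mk.injEq] at c4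
    obtain ⟨rfl, rfl⟩ := c4
    right; right; right; rw [v4]; rfl
  by_cases c5 : (x, ℓ) = (h 0, (3 : ZMod 4))
  · rw [Prod.mk.injEq] at c5
    obtain ⟨rfl, rfl⟩ := c5
    right; right; left; rw [v5]; rfl
  by_cases c6 : (x, ℓ) = (t 0, (0 : ZMod 4))
  · rw [Prod.mk.injEq] at c6
    obtain ⟨rfl, rfl⟩ := c6
    right; right; right; rw [v6]; rfl
  rw [mrg_other c1 c2 c3 c4 c5 c6, lvl_apply]
  split_ifs
  · left; rfl
  · right; left; rfl

end mrg

end Pool.Agent.Lib.MP_7b50be_co
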