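import Mathlib

set_option autoImplicit false

namespace Pool.Agent.Lib.MP_7b50be_co

/-- A family of pairwise disjoint closed intervals `[a i, b i]` of positions, `i` ranging over the
indices satisfying `val`, inside `[0, N - 2]`. -/
structure Intv (ι : Type) (N : ℕ) where
  a : ι → ℕ
  b : ι → ℕ
  val : ι → Prop
  lt : ∀ i, val i → a i < b i
  bN : ∀ i, val i → b i + 1 < N
  disj : ∀ i i', val i → val i' → i ≠ i' → b i < a i' ∨ b i' < a i

namespace Intv

variable {ι : Type} {N : ℕ} (S : Intv ι N)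

open Classical in
/-- The map reversing each block `(a i, b i]`. -/
noncomputable def rho (q : ℕ) : ℕ :=
  if h : ∃ i, S.val i ∧ S.a i < q ∧ q ≤ S.b i then S.a h.choose + S.b h.choose + 1 - q else q

lemma uniq {i i' : ι} {q : ℕ} (h : S.val i ∧ S.a i < q ∧ q ≤ S.b i)
    (h' : S.val i' ∧ S.a i' < q ∧ q ≤ S.b i') : i = i' := by
  by_contra hne
  rcases S.disj i i' h.1 h'.1 hne with h1 | h1 <;> omega

lemma rho_in {i : ι} {q : ℕ} (hv : S.val i) (h1 : S.a i < q) (h2 : q ≤ S.b i) :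
    S.rho q = S.a i + S.b i + 1 - q := by
  have h : ∃ i, S.val i ∧ S.a i < q ∧ q ≤ S.b i := ⟨i, hv, h1, h2⟩
  unfold rho
  rw [dif_pos h, S.uniq h.choose_spec ⟨hv, h1, h2⟩]

lemma rho_out {q : ℕ} (h : ∀ i, S.val i → ¬ (S.a i < q ∧ q ≤ S.b i)) : S.rho q = q := by
  unfold rho
  rw [dif_neg]
  rintro ⟨i, hv, h1⟩
  exact h i hv h1

lemma rho_rho (q : ℕ) : S.rho (S.rho q) = q := by
  by_cases h : ∃ i, S.val i ∧ S.a i < q ∧ q ≤ S.b i
  · obtain ⟨i, hv, h1, h2⟩ := h
    rw [S.rho_in hv h1 h2, S.rho_in hv (by omega) (by omega)]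
    omega
  · have h' : S.rho q = q := S.rho_out (fun i hv h1 => h ⟨i, hv, h1⟩)
    rw [h', h']

lemma rho_lt {q : ℕ} (hq : q < N) : S.rho q < N := by
  by_cases h : ∃ i, S.val i ∧ S.a i < q ∧ q ≤ S.b i
  · obtain ⟨i, hv, h1, h2⟩ := h
    rw [S.rho_in hv h1 h2]
    have := S.bN i hv
    omega
  · rw [S.rho_out (fun i hv h1 => h ⟨i, hv, h1⟩)]
    exact hq

lemma rho_zero : S.rho 0 = 0 := S.rho_out (fun i _ h => by omega)

lemma rho_last {q : ℕ} (hq : N ≤ q + 1) : S.rho q = q :=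
  S.rho_out (fun i hv h => by have := S.bN i hv; omega)

lemma rho_a {i : ι} (hv : S.val i) : S.rho (S.a i) = S.a i := by
  apply S.rho_out
  intro i' hv' h
  have hne : i ≠ i' := by rintro rfl; omega
  have := S.lt i hv
  rcases S.disj i i' hv hv' hne with h1 | h1 <;> omega

lemma rho_b {i : ι} (hv : S.val i) : S.rho (S.b i) = S.a i + 1 := by
  rw [S.rho_in hv (S.lt i hv) le_rfl]; omega

lemma rho_a1 {i : ι} (hv : S.val i) : S.rho (S.a i + 1) = S.b i := by
  have := S.lt i hv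
  rw [S.rho_in hv (by omega) (by omega)]; omega

lemma rho_b1 {i : ι} (hv : S.val i) : S.rho (S.b i + 1) = S.b i + 1 := by
  apply S.rho_out
  intro i' hv' h
  have hne : i ≠ i' := by rintro rfl; omega
  have := S.lt i hv
  rcases S.disj i i' hv hv' hne with h1 | h1 <;> omega

lemma rho_succ (q : ℕ) : (S.rho (q + 1) = S.rho q + 1) ∨ (S.rho q = S.rho (q + 1) + 1) ∨
    (∃ i, S.val i ∧ q = S.a i) ∨ (∃ i, S.val i ∧ q = S.b i) := by
  by_cases h : ∃ i, S.val i ∧ S.a i < q ∧ q ≤ S.b i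
  · obtain ⟨i, hv, h1, h2⟩ := h
    rcases Nat.eq_or_lt_of_le h2 with h3 | h3
    · exact Or.inr (Or.inr (Or.inr ⟨i, hv, h3⟩))
    · right; left
      rw [S.rho_in hv h1 h2, S.rho_in hv (by omega) (by omega)]
      omega
  · by_cases h' : ∃ i, S.val i ∧ S.a i < q + 1 ∧ q + 1 ≤ S.b i
    · obtain ⟨i, hv, h1, h2⟩ := h'
      right; right; left
      refine ⟨i, hv, ?_⟩
      by_contra hne
      exact h ⟨i, hv, by omega, by omega⟩
    · left
      rw [S.rho_out (fun i hv h1 => h' ⟨i, hv, h1⟩), S.rho_out (fun i hv h1 => h ⟨i, hv, h1⟩)]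

lemma rho_edge {r : ℕ} (h : ∀ i, S.val i → r ≠ S.a i ∧ r ≠ S.b i) (hr : r + 1 < N) :
    ∃ q, q + 1 < N ∧ ((S.rho q = r ∧ S.rho (q + 1) = r + 1) ∨
      (S.rho q = r + 1 ∧ S.rho (q + 1) = r)) := by
  by_cases h1 : ∃ i, S.val i ∧ S.a i < r ∧ r ≤ S.b i
  · obtain ⟨i, hv, h1, h2⟩ := h1
    have h3 := (h i hv).2
    have h4 := S.bN i hv
    refine ⟨S.a i + S.b i - r, by omega, Or.inr ⟨?_, ?_⟩⟩
    · rw [S.rho_in hv (by omega) (by omega)]; omega
    · rw [S.rho_in hv (by omega) (by omega)]; omega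
  · refine ⟨r, hr, Or.inl ⟨S.rho_out (fun i hv h2 => h1 ⟨i, hv, h2⟩), ?_⟩⟩
    apply S.rho_out
    rintro i hv ⟨h2, h3⟩
    have h4 := (h i hv).1
    exact h1 ⟨i, hv, by omega, by omega⟩

end Intv

/-- A Hamiltonian cycle, as a periodic listing of the vertices. -/
structure IsListing {W : Type} (G : SimpleGraph W) (N : ℕ) (X : ℕ → W) : Prop where
  pos : 0 < N
  per : ∀ q, X (q + N) = X q
  inj : ∀ q q', q < N → q' < N → X q = X q' → q = q'
  surj : ∀ w, ∃ q, q < N ∧ X q = w
  adj : ∀ q, G.Adj (X q) (X (q + 1))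

lemma IsListing.per_mul {W : Type} {G : SimpleGraph W} {N : ℕ} {X : ℕ → W}
    (h : IsListing G N X) (q m : ℕ) : X (q + m * N) = X q := by
  induction m with
  | zero => simp
  | succ m ih => rw [Nat.succ_mul, ← add_assoc, h.per, ih]

lemma IsListing.mod {W : Type} {G : SimpleGraph W} {N : ℕ} {X : ℕ → W}
    (h : IsListing G N X) (q : ℕ) : X (q % N) = X q := by
  conv_rhs => rw [← Nat.mod_add_div' q N, h.per_mul]

/-- The listing obtained from `X` by reversing the blocks of `S`. -/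
noncomputable def revList {W ι : Type} {N : ℕ} (X : ℕ → W) (S : Intv ι N) (q : ℕ) : W :=
  X (S.rho (q % N))

section revList

variable {W ι : Type} {G : SimpleGraph W} {N : ℕ} {X : ℕ → W} (S : Intv ι N)

lemma revList_apply (q : ℕ) (hq : q < N) : revList X S q = X (S.rho q) := by
  unfold revList; rw [Nat.mod_eq_of_lt hq]

theorem revList_isListing (h : IsListing G N X)
    (hadj : ∀ i, S.val i → G.Adj (X (S.a i)) (X (S.b i)) ∧ G.Adj (X (S.a i + 1)) (X (S.b i + 1))) :
    IsListing G N (revList X S) := by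
  refine ⟨h.pos, ?_, ?_, ?_, ?_⟩
  · intro q
    unfold revList
    rw [Nat.add_mod_right]
  · intro q q' hq hq' hqq
    rw [revList_apply S q hq, revList_apply S q' hq'] at hqq
    have := h.inj _ _ (S.rho_lt hq) (S.rho_lt hq') hqq
    rw [← S.rho_rho q, this, S.rho_rho]
  · intro w
    obtain ⟨q, hq, rfl⟩ := h.surj w
    refine ⟨S.rho q, S.rho_lt hq, ?_⟩
    rw [revList_apply S _ (S.rho_lt hq), S.rho_rho]
  · intro q
    have hr : q % N < N := Nat.mod_lt _ h.pos
    by_cases h1 : q % N + 1 < N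
    · have h2 : (q + 1) % N = q % N + 1 := by
        rw [Nat.add_mod, Nat.mod_eq_of_lt (show 1 < N by omega), Nat.mod_eq_of_lt h1]
      unfold revList
      rw [h2]
      generalize q % N = r at *
      rcases S.rho_succ r with h3 | h3 | ⟨i, hv, rfl⟩ | ⟨i, hv, rfl⟩
      · rw [h3]; exact h.adj _
      · rw [h3]; exact (h.adj _).symm
      · rw [S.rho_a hv, S.rho_a1 hv]; exact (hadj i hv).1
      · rw [S.rho_b hv, S.rho_b1 hv]; exact (hadj i hv).2
    · have h2 : q % N + 1 = N := by omega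
      have h3 : (q + 1) % N = 0 := by
        have h4 : q + 1 = N * (q / N) + N := by
          have := Nat.div_add_mod q N
          omega
        rw [h4]
        have : N * (q / N) + N = N * (q / N + 1) := by ring
        rw [this, Nat.mul_mod_right]
      unfold revList
      rw [h3, S.rho_zero, S.rho_last (by omega)]
      have h4 := h.adj (q % N)
      rw [h2] at h4
      have h5 := h.per 0
      rw [zero_add] at h5
      rw [h5] at h4
      exact h4

lemma revList_edge (h : IsListing G N X) {r : ℕ} (hr : r < N)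
    (h1 : ∀ i, S.val i → r ≠ S.a i ∧ r ≠ S.b i) :
    ∃ q, (revList X S q = X r ∧ revList X S (q + 1) = X (r + 1)) ∨
      (revList X S q = X (r + 1) ∧ revList X S (q + 1) = X r) := by
  by_cases h2 : r + 1 < N
  · obtain ⟨q, hq, h3⟩ := S.rho_edge h1 h2
    refine ⟨q, ?_⟩
    rw [revList_apply S q (by omega), revList_apply S (q + 1) hq]
    rcases h3 with ⟨h3, h4⟩ | ⟨h3, h4⟩
    · left; rw [h3, h4]; exact ⟨rfl, rfl⟩
    · right; rw [h3, h4]; exact ⟨rfl, rfl⟩
  · have h3 : r + 1 = N := by omega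
    refine ⟨r, Or.inl ⟨?_, ?_⟩⟩
    · rw [revList_apply S r hr, S.rho_last (by omega)]
    · unfold revList
      rw [h3, Nat.mod_self, S.rho_zero]
      have h5 := h.per 0
      rw [zero_add] at h5
      exact h5.symm

lemma revList_out {q : ℕ} (hq : q < N) (h : ∀ i, S.val i → ¬ (S.a i < q ∧ q ≤ S.b i)) :
    revList X S q = X q := by
  rw [revList_apply S q hq, S.rho_out h]

lemma revList_a {i : ι} (hv : S.val i) : revList X S (S.a i) = X (S.a i) := by
  have := S.bN i hv
  have := S.lt i hv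
  rw [revList_apply S _ (by omega), S.rho_a hv]

lemma revList_a1 {i : ι} (hv : S.val i) : revList X S (S.a i + 1) = X (S.b i) := by
  have := S.bN i hv
  have := S.lt i hv
  rw [revList_apply S _ (by omega), S.rho_a1 hv]

lemma revList_b {i : ι} (hv : S.val i) : revList X S (S.b i) = X (S.a i + 1) := by
  have := S.bN i hv
  rw [revList_apply S _ (by omega), S.rho_b hv]

lemma revList_b1 {i : ι} (hv : S.val i) : revList X S (S.b i + 1) = X (S.b i + 1) := by
  have := S.bN i hv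
  rw [revList_apply S _ (by omega), S.rho_b1 hv]

end revList

end Pool.Agent.Lib.MP_7b50be_co
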