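import Mathlib
import Pool.Agent.Lib.MP_7b50be_co.Merge
import Pool.Agent.Lib.MP_7b50be_co.Reverse

set_option autoImplicit false
set_option linter.unusedSimpArgs false

namespace Pool.Agent.Lib.MP_7b50be_co

open Equiv SimpleGraph

/-- The 4-cycle on `ZMod 4`. -/
def C4 : SimpleGraph (ZMod 4) where
  Adj a b := b = a + 1 ∨ a = b + 1
  symm.symm a b h := h.symm
  loopless.irrefl a h := by
    revert a; decide

/-- Permutation from a listing. -/
lemma exists_perm {W : Type} [Finite W] {G : SimpleGraph W} {N : ℕ} {X : ℕ → W}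
    (h : IsListing G N X) :
    ∃ σ : Perm W, (∀ q, σ (X q) = X (q + 1)) ∧ ∀ x y, σ.SameCycle x y := by
  classical
  choose pos hpos hX using h.surj
  let nxt : W → W := fun w => X (pos w + 1)
  have hnxt : ∀ q, nxt (X q) = X (q + 1) := by
    intro q
    have h1 : pos (X q) = q % N := by
      apply h.inj _ _ (hpos _) (Nat.mod_lt _ h.pos)
      rw [hX, h.mod]
    change X (pos (X q) + 1) = _
    rw [h1, ← h.mod (q % N + 1), ← h.mod (q + 1)]
    congr 1
    rw [Nat.mod_add_mod]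
  have hinj : Function.Injective nxt := by
    have hsurj : Function.Surjective nxt := by
      intro w
      obtain ⟨q, _, rfl⟩ := h.surj w
      refine ⟨X (q + (N - 1)), ?_⟩
      rw [hnxt]
      have : q + (N - 1) + 1 = q + N := by have := h.pos; omega
      rw [this, h.per]
    exact Finite.injective_iff_surjective.mpr hsurj
  let σ : Perm W := Equiv.ofBijective nxt ⟨hinj, Finite.injective_iff_surjective.mp hinj⟩
  have hσ : ∀ q, σ (X q) = X (q + 1) := hnxt
  refine ⟨σ, hσ, ?_⟩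
  have hpow : ∀ n q, (σ ^ n) (X q) = X (q + n) := by
    intro n
    induction n with
    | zero => intro q; simp
    | succ n ih => intro q; rw [pow_succ', Perm.mul_apply, ih, hσ]; rfl
  intro x y
  obtain ⟨q, hq, rfl⟩ := h.surj x
  obtain ⟨q', hq', rfl⟩ := h.surj y
  refine ⟨((q' + (N - q) : ℕ) : ℤ), ?_⟩
  rw [zpow_natCast, hpow]
  have : q + (q' + (N - q)) = q' + N := by omega
  rw [this, h.per]

section XY

variable {V : Type} {G : SimpleGraph V} {M : ℕ} {c : ℕ → V}

/-- `3` up, `1` right. -/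
def Xl (c : ℕ → V) (q : ℕ) : V × ZMod 4 := (c (q / 4), (q : ZMod 4) - ((q / 4 : ℕ) : ZMod 4))

/-- `3` right, `1` up. -/
def Yl (c : ℕ → V) (t : ℕ) : V × ZMod 4 := (c (3 * (t / 4) + t % 4), ((t / 4 : ℕ) : ZMod 4))

lemma natCast_four_mul (a : ℕ) : ((4 * a : ℕ) : ZMod 4) = 0 := by
  rw [ZMod.natCast_eq_zero_iff]; exact Dvd.intro _ rfl

lemma Xl_apply (a r : ℕ) (hr : r < 4) : Xl c (4 * a + r) = (c a, (r : ZMod 4) - (a : ZMod 4)) := by
  unfold Xl
  have h1 : (4 * a + r) / 4 = a := by omega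
  rw [h1]
  congr 2
  rw [Nat.cast_add, natCast_four_mul, zero_add]

lemma Yl_apply (a r : ℕ) (hr : r < 4) : Yl c (4 * a + r) = (c (3 * a + r), (a : ZMod 4)) := by
  unfold Yl
  have h1 : (4 * a + r) / 4 = a := by omega
  have h2 : (4 * a + r) % 4 = r := by omega
  rw [h1, h2]

lemma eq_four_mul_add (q : ℕ) : ∃ a r, r < 4 ∧ q = 4 * a + r := ⟨q / 4, q % 4, by omega, by omega⟩

lemma Xl_isListing (h : IsListing G M c) (h4 : 4 ∣ M) : IsListing (G □ C4) (4 * M) (Xl c) := by
  have hM := h.pos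
  have hM0 : ((M : ℕ) : ZMod 4) = 0 := (ZMod.natCast_eq_zero_iff _ _).mpr h4
  refine ⟨by omega, ?_, ?_, ?_, ?_⟩
  · intro q
    obtain ⟨a, r, hr, rfl⟩ := eq_four_mul_add q
    have h1 : 4 * a + r + 4 * M = 4 * (a + M) + r := by ring
    rw [h1, Xl_apply _ _ hr, Xl_apply _ _ hr, h.per, Nat.cast_add, hM0, add_zero]
  · intro q q' hq hq' hqq
    obtain ⟨a, r, hr, rfl⟩ := eq_four_mul_add q
    obtain ⟨a', r', hr', rfl⟩ := eq_four_mul_add q'
    rw [Xl_apply _ _ hr, Xl_apply _ _ hr', Prod.mk.injEq] at hqq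
    have h1 : a = a' := h.inj _ _ (by omega) (by omega) hqq.1
    subst h1
    have h2 : (r : ZMod 4) = (r' : ZMod 4) := by
      have := hqq.2
      exact sub_left_injective this
    rw [ZMod.natCast_eq_natCast_iff', Nat.mod_eq_of_lt hr, Nat.mod_eq_of_lt hr'] at h2
    rw [h2]
  · rintro ⟨x, ℓ⟩
    obtain ⟨a, ha, rfl⟩ := h.surj x
    refine ⟨4 * a + (ℓ + (a : ZMod 4)).val, ?_, ?_⟩
    · have := ZMod.val_lt (ℓ + (a : ZMod 4)); omega
    · rw [Xl_apply _ _ (ZMod.val_lt _), ZMod.natCast_zmod_val, add_sub_cancel_right]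
  · intro q
    obtain ⟨a, r, hr, rfl⟩ := eq_four_mul_add q
    by_cases hr3 : r = 3
    · subst hr3
      have h1 : 4 * a + 3 + 1 = 4 * (a + 1) + 0 := by ring
      rw [h1, Xl_apply _ _ (by omega), Xl_apply _ _ (by omega), boxProd_adj]
      left
      refine ⟨h.adj a, ?_⟩
      simp only [Nat.cast_add, Nat.cast_one, Nat.cast_zero, Nat.cast_ofNat]
      have : (3 : ZMod 4) = -1 := by decide
      rw [this]; ring
    · have h1 : 4 * a + r + 1 = 4 * a + (r + 1) := by ring
      rw [h1, Xl_apply _ _ (by omega), Xl_apply _ _ (by omega), boxProd_adj]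
      right
      refine ⟨Or.inl ?_, rfl⟩
      simp only [Nat.cast_add, Nat.cast_one]
      ring

lemma Yl_isListing (h : IsListing G M c) (h4 : 4 ∣ M) (h3 : Nat.Coprime 3 M) :
    IsListing (G □ C4) (4 * M) (Yl c) := by
  have hM := h.pos
  have hM0 : ((M : ℕ) : ZMod 4) = 0 := (ZMod.natCast_eq_zero_iff _ _).mpr h4
  refine ⟨by omega, ?_, ?_, ?_, ?_⟩
  · intro q
    obtain ⟨a, r, hr, rfl⟩ := eq_four_mul_add q
    have h1 : 4 * a + r + 4 * M = 4 * (a + M) + r := by ring
    have h2 : 3 * (a + M) + r = 3 * a + r + 3 * M := by ring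
    rw [h1, Yl_apply _ _ hr, Yl_apply _ _ hr, h2, h.per_mul, Nat.cast_add, hM0, add_zero]
  · intro q q' hq hq' hqq
    obtain ⟨a, r, hr, rfl⟩ := eq_four_mul_add q
    obtain ⟨a', r', hr', rfl⟩ := eq_four_mul_add q'
    rw [Yl_apply _ _ hr, Yl_apply _ _ hr', Prod.mk.injEq] at hqq
    obtain ⟨hc, hl⟩ := hqq
    rw [ZMod.natCast_eq_natCast_iff'] at hl
    have h5 : (3 * a + r) % M = (3 * a' + r') % M := by
      apply h.inj _ _ (Nat.mod_lt _ hM) (Nat.mod_lt _ hM)
      rw [h.mod, h.mod, hc]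
    have h6 : (3 * a + r) % 4 = (3 * a' + r') % 4 := Nat.ModEq.of_dvd h4 h5
    have h7 : r = r' := by omega
    subst h7
    have h8 : 3 * a ≡ 3 * a' [MOD M] := Nat.ModEq.add_right_cancel' r h5
    have h9 : a ≡ a' [MOD M] := Nat.ModEq.cancel_left_of_coprime (by
      rw [Nat.Coprime] at h3; rw [Nat.gcd_comm]; exact h3) h8
    have h10 : a = a' := by
      have := h9
      unfold Nat.ModEq at this
      rwa [Nat.mod_eq_of_lt (by omega), Nat.mod_eq_of_lt (by omega)] at this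
    rw [h10]
  · rintro ⟨x, ℓ⟩
    obtain ⟨p, hp, rfl⟩ := h.surj x
    -- find r with r ≡ p + ℓ mod 4, then a with 3 a + r ≡ p mod M
    set r := ((p : ZMod 4) + ℓ).val with hr
    have hr4 : r < 4 := ZMod.val_lt _
    obtain ⟨a, ha, ham⟩ : ∃ a, a < M ∧ 3 * a + r ≡ p [MOD M] := by
      obtain ⟨b, hb⟩ := Nat.exists_mul_mod_eq_one_of_coprime h3 (by
        rcases h4 with ⟨k, hk⟩; omega)
      refine ⟨(b * (p + (M - r % M))) % M, Nat.mod_lt _ hM, ?_⟩
      have e1 : 3 * ((b * (p + (M - r % M))) % M) ≡ p + (M - r % M) [MOD M] := by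
        calc 3 * ((b * (p + (M - r % M))) % M) ≡ 3 * (b * (p + (M - r % M))) [MOD M] :=
              Nat.ModEq.mul_left _ (Nat.mod_modEq _ _)
          _ = (3 * b) * (p + (M - r % M)) := by ring
          _ ≡ 1 * (p + (M - r % M)) [MOD M] := by
              apply Nat.ModEq.mul_right
              unfold Nat.ModEq
              rw [hb.2, Nat.mod_eq_of_lt]
              rcases h4 with ⟨k, hk⟩; omega
          _ = _ := one_mul _
      calc 3 * ((b * (p + (M - r % M))) % M) + r ≡ p + (M - r % M) + r [MOD M] :=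
            Nat.ModEq.add_right _ e1
        _ ≡ p + (M - r % M) + r % M [MOD M] := Nat.ModEq.add_left _ (Nat.mod_modEq _ _).symm
        _ = p + M := by have := Nat.mod_lt r hM; omega
        _ ≡ p [MOD M] := by unfold Nat.ModEq; rw [Nat.add_mod_right]
    refine ⟨4 * a + r, by omega, ?_⟩
    rw [Yl_apply _ _ hr4, Prod.mk.injEq]
    constructor
    · rw [← h.mod (3 * a + r), ham, h.mod]
    · have h6 : 3 * a + r ≡ p [MOD 4] := Nat.ModEq.of_dvd h4 ham
      have h7 : ((3 * a + r : ℕ) : ZMod 4) = (p : ZMod 4) :=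
        (ZMod.natCast_eq_natCast_iff _ _ _).mpr h6
      rw [Nat.cast_add, Nat.cast_mul, hr, ZMod.natCast_zmod_val] at h7
      have h8 : ((3 : ℕ) : ZMod 4) = -1 := by decide
      rw [h8] at h7
      linear_combination -h7
  · intro q
    obtain ⟨a, r, hr, rfl⟩ := eq_four_mul_add q
    by_cases hr3 : r = 3
    · subst hr3
      have h1 : 4 * a + 3 + 1 = 4 * (a + 1) + 0 := by ring
      rw [h1, Yl_apply _ _ (by omega), Yl_apply _ _ (by omega), boxProd_adj]
      right
      refine ⟨Or.inl ?_, by ring_nf⟩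
      push_cast; ring
    · have h1 : 4 * a + r + 1 = 4 * a + (r + 1) := by ring
      rw [h1, Yl_apply _ _ (by omega), Yl_apply _ _ (by omega), boxProd_adj]
      left
      refine ⟨?_, rfl⟩
      exact h.adj (3 * a + r)

end XY

end Pool.Agent.Lib.MP_7b50be_co
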