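import Mathlib
import Pool.Agent.Lib.MP_7b50be_co.HD

set_option autoImplicit false
set_option linter.unusedSimpArgs false
set_option linter.unusedSectionVars false

namespace Pool.Agent.Lib.MP_7b50be_co

open Equiv SimpleGraph

section XYedges

variable {V : Type} {G : SimpleGraph V} {M : ℕ} {c : ℕ → V}

lemma IsListing.eq_iff (h : IsListing G M c) {q q' : ℕ} : c q = c q' ↔ q ≡ q' [MOD M] := by
  constructor
  · intro hc
    apply h.inj _ _ (Nat.mod_lt _ h.pos) (Nat.mod_lt _ h.pos)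
    rw [h.mod, h.mod, hc]
  · intro hc
    rw [← h.mod q, hc, h.mod]

lemma Yl_spec (h : IsListing G M c) (h4 : 4 ∣ M) (h3 : Nat.Coprime 3 M) (q : ℕ) (ℓ : ZMod 4) :
    ∃ a, Yl c (4 * a + ((q : ZMod 4) + ℓ).val) = (c q, ℓ) ∧
      3 * a + ((q : ZMod 4) + ℓ).val ≡ q [MOD M] ∧ (a : ZMod 4) = ℓ := by
  obtain ⟨t, ht, htt⟩ := (Yl_isListing h h4 h3).surj (c q, ℓ)
  obtain ⟨a, r, hr, rfl⟩ := eq_four_mul_add t
  have htt' := htt
  rw [Yl_apply _ _ hr, Prod.mk.injEq] at htt'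
  obtain ⟨h1, h2⟩ := htt'
  rw [h.eq_iff] at h1
  have h5 : ((3 * a + r : ℕ) : ZMod 4) = (q : ZMod 4) :=
    (ZMod.natCast_eq_natCast_iff _ _ _).mpr (Nat.ModEq.of_dvd h4 h1)
  have h6 : (r : ZMod 4) = (q : ZMod 4) + ℓ := by
    rw [Nat.cast_add, Nat.cast_mul, h2] at h5
    have h8 : ((3 : ℕ) : ZMod 4) = -1 := by decide
    rw [h8] at h5
    linear_combination h5
  have h7 : ((q : ZMod 4) + ℓ).val = r := by
    rw [← h6, ZMod.val_natCast, Nat.mod_eq_of_lt hr]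
  refine ⟨a, ?_, ?_, h2⟩
  · rw [h7, htt]
  · rw [h7]; exact h1

lemma Y_h (h : IsListing G M c) (h4 : 4 ∣ M) (h3 : Nat.Coprime 3 M) {q : ℕ} {ℓ : ZMod 4}
    (hu : ((q : ZMod 4) + ℓ).val ≠ 3) : ∃ t, Yl c t = (c q, ℓ) ∧ Yl c (t + 1) = (c (q + 1), ℓ) := by
  obtain ⟨a, h1, h2, h5⟩ := Yl_spec h h4 h3 q ℓ
  have h6 := ZMod.val_lt ((q : ZMod 4) + ℓ)
  refine ⟨_, h1, ?_⟩
  rw [add_assoc, Yl_apply _ _ (by omega), h5]
  congr 1
  rw [h.eq_iff, ← add_assoc]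
  exact Nat.ModEq.add_right 1 h2

lemma Y_v (h : IsListing G M c) (h4 : 4 ∣ M) (h3 : Nat.Coprime 3 M) {q : ℕ} {ℓ : ZMod 4}
    (hu : ((q : ZMod 4) + ℓ).val = 3) : ∃ t, Yl c t = (c q, ℓ) ∧ Yl c (t + 1) = (c q, ℓ + 1) := by
  obtain ⟨a, h1, h2, h5⟩ := Yl_spec h h4 h3 q ℓ
  rw [hu] at h1 h2
  refine ⟨_, h1, ?_⟩
  have h6 : 4 * a + 3 + 1 = 4 * (a + 1) + 0 := by ring
  rw [h6, Yl_apply _ _ (by omega), Nat.cast_add, h5, Nat.cast_one]
  congr 1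
  rw [h.eq_iff]
  exact h2

lemma X_h {q : ℕ} {ℓ : ZMod 4} (hu : ((q : ZMod 4) + ℓ).val = 3) :
    Xl c (4 * q + 3) = (c q, ℓ) ∧ Xl c (4 * q + 3 + 1) = (c (q + 1), ℓ) := by
  have h1 : (q : ZMod 4) + ℓ = 3 := by
    have := ZMod.natCast_zmod_val ((q : ZMod 4) + ℓ)
    rw [hu] at this
    rw [← this]; rfl
  have h2 : ℓ = 3 - (q : ZMod 4) := by linear_combination h1
  constructor
  · rw [Xl_apply _ _ (by omega), h2]; rfl
  · have h6 : 4 * q + 3 + 1 = 4 * (q + 1) + 0 := by ring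
    rw [h6, Xl_apply _ _ (by omega), h2, Prod.mk.injEq]
    refine ⟨rfl, ?_⟩
    push_cast
    have : (3 : ZMod 4) = -1 := by decide
    rw [this]; ring

lemma X_v {q : ℕ} {ℓ : ZMod 4} (hu : ((q : ZMod 4) + ℓ).val ≠ 3) :
    Xl c (4 * q + ((q : ZMod 4) + ℓ).val) = (c q, ℓ) ∧
      Xl c (4 * q + ((q : ZMod 4) + ℓ).val + 1) = (c q, ℓ + 1) := by
  have h6 := ZMod.val_lt ((q : ZMod 4) + ℓ)
  constructor
  · rw [Xl_apply _ _ h6, ZMod.natCast_zmod_val]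
    congr 1; ring
  · rw [add_assoc, Xl_apply _ _ (by omega), Nat.cast_add, ZMod.natCast_zmod_val]
    congr 1; push_cast; ring

end XYedges

/-- `1` for the middle chord, `0` otherwise. -/
def eo (k : Fin 3) : ℕ := if k = 1 then 1 else 0

/-- The transposition of the first two chords. -/
def sw3 : Fin 3 → Fin 3 := ![1, 0, 2]

/-- The inductive state: a decomposition of `G` into `K + 1` Hamiltonian cycles together with
the chords needed to continue, and a rainbow path. -/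
structure HD {V : Type} (G : SimpleGraph V) (K M : ℕ) where
  c : ℕ → V
  σ : ℕ → Perm V
  α : ℕ × Fin 3 → ℕ
  β : ℕ × Fin 3 → ℕ
  sp : ℕ
  p : ℕ → V
  π : ℕ
  hc : IsListing G M c
  four_dvd : 4 ∣ M
  coprime : Nat.Coprime 3 M
  σ_adj : ∀ j < K, ∀ x, G.Adj x (σ j x)
  σ_sc : ∀ j < K, ∀ x y, (σ j).SameCycle x y
  cover : ∀ x y, G.Adj x y → (∃ q, (c q = x ∧ c (q + 1) = y) ∨ (c q = y ∧ c (q + 1) = x)) ∨
    ∃ j < K, σ j x = y ∨ σ j y = x
  chord : ∀ i : ℕ × Fin 3, i.1 < K →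
    σ i.1 (c (α i)) = c (β i) ∨ σ i.1 (c (β i)) = c (α i)
  lt : ∀ i : ℕ × Fin 3, i.1 < K → α i < β i
  βM : ∀ i : ℕ × Fin 3, i.1 < K → β i < M
  α_mod : ∀ i : ℕ × Fin 3, i.1 < K → α i % 4 = eo i.2
  β_mod : ∀ i : ℕ × Fin 3, i.1 < K → β i % 4 = 1 + eo i.2
  disj : ∀ i i' : ℕ × Fin 3, i.1 < K → i'.1 < K → i ≠ i' → β i < α i' ∨ β i' < α i
  sp_disj : ∀ i : ℕ × Fin 3, i.1 < K → β i < sp ∨ sp + 8 ≤ α i
  spM : sp + 8 ≤ M
  πα : ∀ i : ℕ × Fin 3, i.1 < K → π < α i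
  πsp : π < sp
  p_one : p 1 = c π
  p_zero : p 0 = c (π + 1) ∨ ∃ π', π = π' + 1 ∧ p 0 = c π'
  p_inj : ∀ i i', i ≤ K + 1 → i' ≤ K + 1 → p i = p i' → i = i'
  p_adj : ∀ j < K, σ j (p (j + 1)) = p (j + 2) ∨ σ j (p (j + 2)) = p (j + 1)
  p_ne : ∀ i : ℕ × Fin 3, i.1 < K → ¬ (p (i.1 + 1) = c (α i) ∧ p (i.1 + 2) = c (β i)) ∧
    ¬ (p (i.1 + 1) = c (β i) ∧ p (i.1 + 2) = c (α i))

namespace HD

variable {V : Type} {G : SimpleGraph V} {K M : ℕ} (D : HD G K M)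

/-- New left endpoint. -/
def na (i : ℕ × Fin 3) : ℕ := 4 * D.α (i.1, sw3 i.2) + eo i.2

/-- New right endpoint. -/
def nb (i : ℕ × Fin 3) : ℕ := 4 * D.β (i.1, sw3 i.2) + (1 + eo i.2)

lemma eo_lt (k : Fin 3) : eo k < 2 := by unfold eo; split_ifs <;> omega

lemma sw3_inj : Function.Injective sw3 := by decide

/-- The intervals to be reversed. -/
def itv : Intv (ℕ × Fin 3) (4 * M) where
  a := D.na
  b := D.nb
  val i := i.1 < K
  lt i hi := by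
    have := D.lt (i.1, sw3 i.2) hi
    have := eo_lt i.2
    unfold na nb; omega
  bN i hi := by
    have := D.βM (i.1, sw3 i.2) hi
    have := eo_lt i.2
    unfold nb; omega
  disj i i' hi hi' hne := by
    have h1 := D.disj (i.1, sw3 i.2) (i'.1, sw3 i'.2) hi hi' (by
      intro h
      rw [Prod.mk.injEq] at h
      exact hne (Prod.ext h.1 (sw3_inj h.2)))
    have := eo_lt i.2
    have := eo_lt i'.2
    unfold na nb; omega

lemma gp_eq (k : Fin 3) : (eo k : ZMod 4) - (eo (sw3 k) : ZMod 4) = gp k := by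
  fin_cases k <;> decide

lemma cast_of_mod {a r : ℕ} (h : a % 4 = r) : (a : ZMod 4) = (r : ZMod 4) := by
  rw [ZMod.natCast_eq_natCast_iff']
  omega

lemma X_na (i : ℕ × Fin 3) (hi : i.1 < K) :
    Xl D.c (D.na i) = (D.c (D.α (i.1, sw3 i.2)), gp i.2) := by
  have h1 := eo_lt i.2
  unfold na
  rw [Xl_apply _ _ (by omega), cast_of_mod (D.α_mod (i.1, sw3 i.2) hi)]
  rw [← gp_eq]

lemma X_na1 (i : ℕ × Fin 3) (hi : i.1 < K) :
    Xl D.c (D.na i + 1) = (D.c (D.α (i.1, sw3 i.2)), gp i.2 + 1) := by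
  have h1 := eo_lt i.2
  unfold na
  rw [add_assoc, Xl_apply _ _ (by omega), cast_of_mod (D.α_mod (i.1, sw3 i.2) hi)]
  rw [← gp_eq, Prod.mk.injEq]
  refine ⟨rfl, ?_⟩
  push_cast; ring

lemma X_nb (i : ℕ × Fin 3) (hi : i.1 < K) :
    Xl D.c (D.nb i) = (D.c (D.β (i.1, sw3 i.2)), gp i.2) := by
  have h1 := eo_lt i.2
  unfold nb
  rw [Xl_apply _ _ (by omega), cast_of_mod (D.β_mod (i.1, sw3 i.2) hi)]
  rw [← gp_eq, Prod.mk.injEq]
  refine ⟨rfl, ?_⟩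
  push_cast; ring

lemma X_nb1 (i : ℕ × Fin 3) (hi : i.1 < K) :
    Xl D.c (D.nb i + 1) = (D.c (D.β (i.1, sw3 i.2)), gp i.2 + 1) := by
  have h1 := eo_lt i.2
  unfold nb
  rw [add_assoc, Xl_apply _ _ (by omega), cast_of_mod (D.β_mod (i.1, sw3 i.2) hi)]
  rw [← gp_eq, Prod.mk.injEq]
  refine ⟨rfl, ?_⟩
  push_cast; ring

lemma chord_adj (i : ℕ × Fin 3) (hi : i.1 < K) : G.Adj (D.c (D.α i)) (D.c (D.β i)) := by
  rcases D.chord i hi with h | h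
  · have := D.σ_adj i.1 hi (D.c (D.α i)); rwa [h] at this
  · have := D.σ_adj i.1 hi (D.c (D.β i)); rw [h] at this; exact this.symm

/-- The new listing. -/
noncomputable def nc : ℕ → V × ZMod 4 := revList (Xl D.c) D.itv

lemma nc_isListing : IsListing (G □ C4) (4 * M) D.nc := by
  apply revList_isListing
  · exact Xl_isListing D.hc D.four_dvd
  · intro i hi
    change i.1 < K at hi
    constructor
    · change (G □ C4).Adj (Xl D.c (D.na i)) (Xl D.c (D.nb i))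
      rw [D.X_na i hi, D.X_nb i hi, boxProd_adj]
      exact Or.inl ⟨D.chord_adj (i.1, sw3 i.2) hi, rfl⟩
    · change (G □ C4).Adj (Xl D.c (D.na i + 1)) (Xl D.c (D.nb i + 1))
      rw [D.X_na1 i hi, D.X_nb1 i hi, boxProd_adj]
      exact Or.inl ⟨D.chord_adj (i.1, sw3 i.2) hi, rfl⟩

lemma nc_na (i : ℕ × Fin 3) (hi : i.1 < K) :
    D.nc (D.na i) = (D.c (D.α (i.1, sw3 i.2)), gp i.2) := by
  rw [← D.X_na i hi]
  exact revList_a D.itv hi

lemma nc_na1 (i : ℕ × Fin 3) (hi : i.1 < K) :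
    D.nc (D.na i + 1) = (D.c (D.β (i.1, sw3 i.2)), gp i.2) := by
  rw [← D.X_nb i hi]
  exact revList_a1 D.itv hi

lemma nc_nb (i : ℕ × Fin 3) (hi : i.1 < K) :
    D.nc (D.nb i) = (D.c (D.α (i.1, sw3 i.2)), gp i.2 + 1) := by
  rw [← D.X_na1 i hi]
  exact revList_b D.itv hi

lemma nc_nb1 (i : ℕ × Fin 3) (hi : i.1 < K) :
    D.nc (D.nb i + 1) = (D.c (D.β (i.1, sw3 i.2)), gp i.2 + 1) := by
  rw [← D.X_nb1 i hi]
  exact revList_b1 D.itv hi

lemma nc_out {q : ℕ} (hq : q < 4 * M) (h : ∀ i : ℕ × Fin 3, i.1 < K → ¬ (D.na i < q ∧ q ≤ D.nb i)) :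
    D.nc q = Xl D.c q := revList_out D.itv hq h

section ends

variable [DecidableEq V]

/-- Tail of the chord used for new index `(j, k)`. -/
def tl (j : ℕ) (k : Fin 3) : V :=
  if D.σ j (D.c (D.α (j, sw3 k))) = D.c (D.β (j, sw3 k)) then D.c (D.α (j, sw3 k))
  else D.c (D.β (j, sw3 k))

/-- Head of the chord used for new index `(j, k)`. -/
def hd (j : ℕ) (k : Fin 3) : V :=
  if D.σ j (D.c (D.α (j, sw3 k))) = D.c (D.β (j, sw3 k)) then D.c (D.β (j, sw3 k))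
  else D.c (D.α (j, sw3 k))

lemma tl_hd (j : ℕ) (k : Fin 3) :
    (D.tl j k = D.c (D.α (j, sw3 k)) ∧ D.hd j k = D.c (D.β (j, sw3 k))) ∨
    (D.tl j k = D.c (D.β (j, sw3 k)) ∧ D.hd j k = D.c (D.α (j, sw3 k))) := by
  unfold tl hd
  split_ifs
  · left; exact ⟨rfl, rfl⟩
  · right; exact ⟨rfl, rfl⟩

lemma αα {i i' : ℕ × Fin 3} (hi : i.1 < K) (hi' : i'.1 < K) (h : D.c (D.α i) = D.c (D.α i')) :
    i = i' := by
  have h1 := D.hc.inj _ _ ((D.lt i hi).trans (D.βM i hi)) ((D.lt i' hi').trans (D.βM i' hi')) h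
  by_contra hne
  have h2 := D.lt i hi
  have h3 := D.lt i' hi'
  rcases D.disj i i' hi hi' hne with h4 | h4 <;> omega

lemma ββ {i i' : ℕ × Fin 3} (hi : i.1 < K) (hi' : i'.1 < K) (h : D.c (D.β i) = D.c (D.β i')) :
    i = i' := by
  have h1 := D.hc.inj _ _ (D.βM i hi) (D.βM i' hi') h
  by_contra hne
  have h2 := D.lt i hi
  have h3 := D.lt i' hi'
  rcases D.disj i i' hi hi' hne with h4 | h4 <;> omega

lemma αβ {i i' : ℕ × Fin 3} (hi : i.1 < K) (hi' : i'.1 < K) : D.c (D.α i) ≠ D.c (D.β i') := by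
  intro h
  have h1 := D.hc.inj _ _ ((D.lt i hi).trans (D.βM i hi)) (D.βM i' hi') h
  have h2 := D.lt i hi
  have h3 := D.lt i' hi'
  by_cases hne : i = i'
  · subst hne; omega
  · rcases D.disj i i' hi hi' hne with h4 | h4 <;> omega

lemma chordOK {j : ℕ} (hj : j < K) : ChordOK (D.σ j) (D.tl j) (D.hd j) := by
  have inj : ∀ k k', (j, sw3 k) = (j, sw3 k') → k = k' := by
    intro k k' h
    rw [Prod.mk.injEq] at h
    exact sw3_inj h.2
  refine ⟨?_, ?_, ?_, ?_⟩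
  · intro k k' h
    rcases D.tl_hd j k with ⟨h1, _⟩ | ⟨h1, _⟩ <;> rcases D.tl_hd j k' with ⟨h2, _⟩ | ⟨h2, _⟩ <;>
      rw [h1, h2] at h
    · exact inj _ _ (D.αα hj hj h)
    · exact absurd h (D.αβ hj hj)
    · exact absurd h.symm (D.αβ hj hj)
    · exact inj _ _ (D.ββ hj hj h)
  · intro k k' h
    rcases D.tl_hd j k with ⟨_, h1⟩ | ⟨_, h1⟩ <;> rcases D.tl_hd j k' with ⟨_, h2⟩ | ⟨_, h2⟩ <;>
      rw [h1, h2] at h
    · exact inj _ _ (D.ββ hj hj h)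
    · exact absurd h.symm (D.αβ hj hj)
    · exact absurd h (D.αβ hj hj)
    · exact inj _ _ (D.αα hj hj h)
  · intro k k' h
    by_cases hk : k = k'
    · subst hk
      rcases D.tl_hd j k with ⟨h1, h2⟩ | ⟨h1, h2⟩ <;> rw [h1, h2] at h
      · exact D.αβ hj hj h
      · exact D.αβ hj hj h.symm
    · rcases D.tl_hd j k with ⟨h1, _⟩ | ⟨h1, _⟩ <;> rcases D.tl_hd j k' with ⟨_, h2⟩ | ⟨_, h2⟩ <;>
        rw [h1, h2] at h
      · exact D.αβ hj hj h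
      · exact hk (inj _ _ (D.αα hj hj h))
      · exact hk (inj _ _ (D.ββ hj hj h))
      · exact D.αβ hj hj h.symm
  · intro k
    unfold tl hd
    split_ifs with h
    · exact h
    · rcases D.chord (j, sw3 k) hj with h1 | h1
      · exact absurd h1 h
      · exact h1

end ends

end HD

end Pool.Agent.Lib.MP_7b50be_co
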