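import Mathlib
import Pool.Agent.Lib.MP_7b50be_co.Step

set_option autoImplicit false
set_option linter.unusedSimpArgs false
set_option linter.unusedSectionVars false

namespace Pool.Agent.Lib.MP_7b50be_co

open Equiv SimpleGraph

namespace HD

variable {V : Type} {G : SimpleGraph V} {K M : ℕ} (D : HD G K M) [DecidableEq V]

/-- The new family of permutations. -/
def nσ (σY : Perm (V × ZMod 4)) (j : ℕ) : Perm (V × ZMod 4) :=
  if j < K then mrg (D.σ j) (D.tl j) (D.hd j) else σY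

/-- Covering predicate. -/
def Cov (σY : Perm (V × ZMod 4)) (w w' : V × ZMod 4) : Prop :=
  (∃ q, (D.nc q = w ∧ D.nc (q + 1) = w') ∨ (D.nc q = w' ∧ D.nc (q + 1) = w)) ∨
    ∃ j < K + 1, D.nσ σY j w = w' ∨ D.nσ σY j w' = w

lemma Cov.symm' {σY : Perm (V × ZMod 4)} {w w' : V × ZMod 4} (h : D.Cov σY w w') :
    D.Cov σY w' w := by
  rcases h with ⟨q, h⟩ | ⟨j, hj, h⟩
  · exact Or.inl ⟨q, h.symm⟩
  · exact Or.inr ⟨j, hj, h.symm⟩

lemma nσ_lt (σY : Perm (V × ZMod 4)) {j : ℕ} (hj : j < K) :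
    D.nσ σY j = mrg (D.σ j) (D.tl j) (D.hd j) := if_pos hj

lemma nσ_K (σY : Perm (V × ZMod 4)) : D.nσ σY K = σY := if_neg (lt_irrefl K)

lemma na_mod (i : ℕ × Fin 3) : D.na i % 4 = eo i.2 := by
  have := eo_lt i.2
  unfold na; omega

lemma nb_mod (i : ℕ × Fin 3) : D.nb i % 4 = 1 + eo i.2 := by
  have := eo_lt i.2
  unfold nb; omega

lemma cov_c {σY : Perm (V × ZMod 4)} (hY : ∀ q, σY (Yl D.c q) = Yl D.c (q + 1)) (q : ℕ)
    (ℓ : ZMod 4) : D.Cov σY (D.c q, ℓ) (D.c (q + 1), ℓ) := by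
  have hM := D.hc.pos
  by_cases hu : ((q : ZMod 4) + ℓ).val = 3
  · have hq0 : q % M < M := Nat.mod_lt _ hM
    have hc0 : D.c (q % M) = D.c q := D.hc.mod q
    have hc1 : D.c (q % M + 1) = D.c (q + 1) := by
      rw [D.hc.eq_iff]
      exact Nat.ModEq.add_right 1 (Nat.mod_modEq _ _)
    have hcast : ((q % M : ℕ) : ZMod 4) = (q : ZMod 4) := by
      rw [ZMod.natCast_eq_natCast_iff]
      exact Nat.ModEq.of_dvd D.four_dvd (Nat.mod_modEq _ _)
    rw [← hcast] at hu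
    obtain ⟨h1, h2⟩ := X_h (c := D.c) hu
    left
    obtain ⟨r, hr⟩ := revList_edge D.itv (Xl_isListing D.hc D.four_dvd)
      (r := 4 * (q % M) + 3) (by omega) (by
        intro i hi
        have h3 := D.na_mod i
        have h4 := D.nb_mod i
        have := eo_lt i.2
        change _ ≠ D.na i ∧ _ ≠ D.nb i
        constructor <;> omega)
    rw [h1, h2, hc0, hc1] at hr
    exact ⟨r, hr⟩
  · obtain ⟨t, h1, h2⟩ := Y_h D.hc D.four_dvd D.coprime hu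
    right
    refine ⟨K, by omega, Or.inl ?_⟩
    rw [nσ_K, ← h1, ← h2, hY]

lemma cov_σ (σY : Perm (V × ZMod 4)) {j : ℕ} (hj : j < K) (x : V) (ℓ : ZMod 4) :
    D.Cov σY (x, ℓ) (D.σ j x, ℓ) := by
  have H := D.chordOK hj
  by_cases hk : ∃ k, x = D.tl j k ∧ (ℓ = gp k ∨ ℓ = gp k + 1)
  · obtain ⟨k, rfl, hℓ⟩ := hk
    rw [H.hσ]
    left
    rcases hℓ with rfl | rfl
    · refine ⟨D.na (j, k), ?_⟩
      rw [D.nc_na (j, k) hj, D.nc_na1 (j, k) hj]
      rcases D.tl_hd j k with ⟨h1, h2⟩ | ⟨h1, h2⟩ <;> rw [h1, h2]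
      · left; exact ⟨rfl, rfl⟩
      · right; exact ⟨rfl, rfl⟩
    · refine ⟨D.nb (j, k), ?_⟩
      rw [D.nc_nb (j, k) hj, D.nc_nb1 (j, k) hj]
      rcases D.tl_hd j k with ⟨h1, h2⟩ | ⟨h1, h2⟩ <;> rw [h1, h2]
      · left; exact ⟨rfl, rfl⟩
      · right; exact ⟨rfl, rfl⟩
  · right
    refine ⟨j, by omega, ?_⟩
    rw [D.nσ_lt σY hj]
    apply mrg_cover_h H
    intro k hxk
    constructor
    · intro h; exact hk ⟨k, hxk, Or.inl h⟩
    · intro h; exact hk ⟨k, hxk, Or.inr h⟩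

lemma mem_tl_hd_α (j : ℕ) (k : Fin 3) :
    D.c (D.α (j, sw3 k)) = D.tl j k ∨ D.c (D.α (j, sw3 k)) = D.hd j k := by
  rcases D.tl_hd j k with ⟨h1, _⟩ | ⟨_, h1⟩ <;> rw [h1]
  · left; rfl
  · right; rfl

lemma mem_tl_hd_β (j : ℕ) (k : Fin 3) :
    D.c (D.β (j, sw3 k)) = D.tl j k ∨ D.c (D.β (j, sw3 k)) = D.hd j k := by
  rcases D.tl_hd j k with ⟨_, h1⟩ | ⟨h1, _⟩ <;> rw [h1]
  · right; rfl
  · left; rfl

lemma cov_v {σY : Perm (V × ZMod 4)} (hY : ∀ q, σY (Yl D.c q) = Yl D.c (q + 1)) (x : V)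
    (ℓ : ZMod 4) : D.Cov σY (x, ℓ) (x, ℓ + 1) := by
  obtain ⟨q, hq, rfl⟩ := D.hc.surj x
  by_cases hu : ((q : ZMod 4) + ℓ).val = 3
  · obtain ⟨t, h1, h2⟩ := Y_v D.hc D.four_dvd D.coprime hu
    right
    refine ⟨K, by omega, Or.inl ?_⟩
    rw [nσ_K, ← h1, ← h2, hY]
  · obtain ⟨h1, h2⟩ := X_v (c := D.c) hu
    have hval := ZMod.val_lt ((q : ZMod 4) + ℓ)
    set r := 4 * q + ((q : ZMod 4) + ℓ).val with hr
    by_cases hk : ∃ i : ℕ × Fin 3, i.1 < K ∧ (r = D.na i ∨ r = D.nb i)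
    · obtain ⟨i, hi, hri⟩ := hk
      right
      refine ⟨i.1, by omega, ?_⟩
      rw [D.nσ_lt σY hi]
      rcases hri with hri | hri
      · rw [hri, D.X_na i hi] at h1
        rw [hri, D.X_na1 i hi] at h2
        rw [← h1, ← h2]
        exact mrg_cover_v (D.chordOK hi) i.2 _ (D.mem_tl_hd_α i.1 i.2)
      · rw [hri, D.X_nb i hi] at h1
        rw [hri, D.X_nb1 i hi] at h2
        rw [← h1, ← h2]
        exact mrg_cover_v (D.chordOK hi) i.2 _ (D.mem_tl_hd_β i.1 i.2)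
    · left
      obtain ⟨r', hr'⟩ := revList_edge D.itv (Xl_isListing D.hc D.four_dvd)
        (r := r) (by omega) (by
          intro i hi
          change _ ≠ D.na i ∧ _ ≠ D.nb i
          constructor
          · intro h; exact hk ⟨i, hi, Or.inl h⟩
          · intro h; exact hk ⟨i, hi, Or.inr h⟩)
      rw [h1, h2] at hr'
      exact ⟨r', hr'⟩

lemma cov_all {σY : Perm (V × ZMod 4)} (hY : ∀ q, σY (Yl D.c q) = Yl D.c (q + 1))
    (w w' : V × ZMod 4) (h : (G □ C4).Adj w w') : D.Cov σY w w' := by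
  obtain ⟨x, ℓ⟩ := w
  obtain ⟨x', ℓ'⟩ := w'
  rw [boxProd_adj] at h
  rcases h with ⟨h1, h2⟩ | ⟨h1, h2⟩
  · change G.Adj x x' at h1
    change ℓ = ℓ' at h2
    subst h2
    rcases D.cover x x' h1 with ⟨q, ⟨rfl, rfl⟩ | ⟨rfl, rfl⟩⟩ | ⟨j, hj, rfl | rfl⟩
    · exact D.cov_c hY q ℓ
    · exact (D.cov_c hY q ℓ).symm'
    · exact D.cov_σ σY hj x ℓ
    · exact (D.cov_σ σY hj x' ℓ).symm'
  · change ℓ' = ℓ + 1 ∨ ℓ = ℓ' + 1 at h1
    change x = x' at h2
    subst h2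
    rcases h1 with rfl | rfl
    · exact D.cov_v hY x ℓ
    · exact (D.cov_v hY x ℓ').symm'

/-- Position of the left endpoint of the `k`-th chord of the new color. -/
def ya (k : Fin 3) : ℕ := 4 * (D.sp + 2 * k.val) + eo k

/-- Position of the right endpoint of the `k`-th chord of the new color. -/
def yb (k : Fin 3) : ℕ := 4 * (D.sp + 2 * k.val + 1) + (1 + eo k)

lemma nc_ya (k : Fin 3) :
    D.nc (D.ya k) = (D.c (D.sp + 2 * k.val), (eo k : ZMod 4) - ((D.sp + 2 * k.val : ℕ) : ZMod 4)) := by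
  have h1 := eo_lt k
  have h2 := D.spM
  have h3 := k.2
  rw [nc_out]
  · unfold ya
    rw [Xl_apply _ _ (by omega)]
  · unfold ya; omega
  · intro i hi
    have h4 := D.sp_disj (i.1, sw3 i.2) hi
    have h5 := eo_lt i.2
    unfold ya na nb
    omega

lemma nc_yb (k : Fin 3) :
    D.nc (D.yb k) = (D.c (D.sp + 2 * k.val + 1),
      (eo k : ZMod 4) - ((D.sp + 2 * k.val : ℕ) : ZMod 4)) := by
  have h1 := eo_lt k
  have h2 := D.spM
  have h3 := k.2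
  rw [nc_out]
  · unfold yb
    rw [Xl_apply _ _ (by omega)]
    congr 1
    push_cast; ring
  · unfold yb; omega
  · intro i hi
    have h4 := D.sp_disj (i.1, sw3 i.2) hi
    have h5 := eo_lt i.2
    unfold yb na nb
    omega

lemma y_chord {σY : Perm (V × ZMod 4)} (hY : ∀ q, σY (Yl D.c q) = Yl D.c (q + 1)) (k : Fin 3) :
    σY (D.nc (D.ya k)) = D.nc (D.yb k) := by
  rw [nc_ya, nc_yb]
  have hu : (((D.sp + 2 * k.val : ℕ) : ZMod 4) +
      ((eo k : ZMod 4) - ((D.sp + 2 * k.val : ℕ) : ZMod 4))).val ≠ 3 := by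
    rw [add_sub_cancel]
    fin_cases k <;> decide
  obtain ⟨t, h1, h2⟩ := Y_h D.hc D.four_dvd D.coprime hu
  rw [← h1, ← h2, hY]

end HD

end Pool.Agent.Lib.MP_7b50be_co
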