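import Mathlib
import Pool.Agent.Lib.MP_7b50be_co.Step2

set_option autoImplicit false
set_option linter.unusedSimpArgs false
set_option linter.unusedSectionVars false

namespace Pool.Agent.Lib.MP_7b50be_co

open Equiv SimpleGraph

namespace HD

variable {V : Type} {G : SimpleGraph V} {K M : ℕ}

theorem step [Finite V] [DecidableEq V] (D : HD G K M) (hK : 1 ≤ K) :
    Nonempty (HD (G □ C4) (K + 1) (4 * M)) := by
  obtain ⟨σY, hY, hYsc⟩ := exists_perm (Yl_isListing D.hc D.four_dvd D.coprime)
  have hM := D.hc.pos
  -- the level of the rainbow path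
  obtain ⟨qL, hqL, hpL⟩ := D.hc.surj (D.p (K + 1))
  set y : ZMod 4 := 3 - (qL : ZMod 4) with hy
  set u : ℕ := ((D.π : ZMod 4) + y).val with hu
  have hu4 : u < 4 := ZMod.val_lt _
  set y' : ZMod 4 := if u = 3 then y - 1 else y + 1 with hy'
  have hy'y : y' ≠ y := by
    rw [hy']
    split_ifs
    · intro h; have : (-1 : ZMod 4) = 0 := by linear_combination h
      revert this; decide
    · intro h; have : (1 : ZMod 4) = 0 := by linear_combination h
      revert this; decide
  have hyy1 : y + 1 ≠ y := by
    intro h; have : (1 : ZMod 4) = 0 := by linear_combination h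
    revert this; decide
  -- positions near the start
  have hπ_out : ∀ r, r ≤ 4 * D.π + 3 → D.nc r = Xl D.c r := by
    intro r hr
    have h1 := D.πsp
    have h2 := D.spM
    apply D.nc_out (by omega)
    intro i hi
    have h3 := D.πα (i.1, sw3 i.2) hi
    unfold na
    omega
  have hYv : σY (D.p (K + 1), y) = (D.p (K + 1), y + 1) := by
    have h1 : ((qL : ZMod 4) + y).val = 3 := by
      rw [hy, add_sub_cancel]; rfl
    obtain ⟨t, h2, h3⟩ := Y_v D.hc D.four_dvd D.coprime h1
    rw [hpL] at h2 h3
    rw [← h2, ← h3, hY]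
  refine ⟨{
    c := D.nc
    σ := D.nσ σY
    α := fun i => if i.1 < K then D.na i else D.ya i.2
    β := fun i => if i.1 < K then D.nb i else D.yb i.2
    sp := 4 * (D.sp + 6)
    p := fun i => if i = 0 then (D.p 1, y') else if i ≤ K + 1 then (D.p i, y) else
      (D.p (K + 1), y + 1)
    π := 4 * D.π + u
    hc := D.nc_isListing
    four_dvd := Dvd.intro _ rfl
    coprime := Nat.Coprime.mul_right (by decide) D.coprime
    σ_adj := ?_
    σ_sc := ?_
    cover := fun w w' h => D.cov_all hY w w' h
    chord := ?_
    lt := ?_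
    βM := ?_
    α_mod := ?_
    β_mod := ?_
    disj := ?_
    sp_disj := ?_
    spM := ?_
    πα := ?_
    πsp := ?_
    p_one := ?_
    p_zero := ?_
    p_inj := ?_
    p_adj := ?_
    p_ne := ?_ }⟩
  · -- σ_adj
    intro j hj w
    by_cases hjK : j < K
    · rw [D.nσ_lt σY hjK]
      obtain ⟨x, ℓ⟩ := w
      rcases mrg_step (D.chordOK hjK) x ℓ with h | h | h | h <;> rw [h, boxProd_adj]
      · exact Or.inl ⟨D.σ_adj j hjK x, rfl⟩
      · refine Or.inl ⟨?_, rfl⟩
        have := D.σ_adj j hjK ((D.σ j)⁻¹ x)
        rw [show D.σ j ((D.σ j)⁻¹ x) = x by simp] at this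
        exact this.symm
      · exact Or.inr ⟨Or.inl rfl, rfl⟩
      · refine Or.inr ⟨Or.inr ?_, rfl⟩
        change ℓ = ℓ - 1 + 1
        ring
    · have : j = K := by omega
      subst this
      rw [D.nσ_K]
      obtain ⟨t, _, rfl⟩ := (Yl_isListing D.hc D.four_dvd D.coprime).surj w
      rw [hY]
      exact (Yl_isListing D.hc D.four_dvd D.coprime).adj t
  · -- σ_sc
    intro j hj w w'
    by_cases hjK : j < K
    · rw [D.nσ_lt σY hjK]
      exact mrg_sc (D.σ_sc j hjK) w w'
    · have : j = K := by omega
      subst this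
      rw [D.nσ_K]
      exact hYsc w w'
  · -- chord
    rintro ⟨j, k⟩ hi
    change j < K + 1 at hi
    by_cases hjK : j < K
    · simp only [if_pos hjK]
      rw [D.nσ_lt σY hjK, D.nc_na (j, k) hjK, D.nc_nb (j, k) hjK]
      exact mrg_cover_v (D.chordOK hjK) k _ (D.mem_tl_hd_α j k)
    · have : j = K := by omega
      subst this
      simp only [if_neg hjK]
      rw [D.nσ_K]
      exact Or.inl (D.y_chord hY k)
  · -- lt
    rintro ⟨j, k⟩ hi
    change (if j < K then D.na (j, k) else D.ya k) < (if j < K then D.nb (j, k) else D.yb k)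
    by_cases hjK : j < K
    · rw [if_pos hjK, if_pos hjK]
      exact D.itv.lt (j, k) hjK
    · rw [if_neg hjK, if_neg hjK]
      unfold ya yb; omega
  · -- βM
    rintro ⟨j, k⟩ hi
    change (if j < K then D.nb (j, k) else D.yb k) < 4 * M
    by_cases hjK : j < K
    · rw [if_pos hjK]
      have := D.itv.bN (j, k) hjK
      change D.nb (j, k) + 1 < 4 * M at this
      omega
    · rw [if_neg hjK]
      have h1 := D.spM
      have h2 := eo_lt k
      have h3 := k.2
      unfold yb; omega
  · rintro ⟨j, k⟩ hi
    change (if j < K then D.na (j, k) else D.ya k) % 4 = eo k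
    by_cases hjK : j < K
    · rw [if_pos hjK]; exact D.na_mod (j, k)
    · rw [if_neg hjK]
      have h2 := eo_lt k
      unfold ya; omega
  · rintro ⟨j, k⟩ hi
    change (if j < K then D.nb (j, k) else D.yb k) % 4 = 1 + eo k
    by_cases hjK : j < K
    · rw [if_pos hjK]; exact D.nb_mod (j, k)
    · rw [if_neg hjK]
      have h2 := eo_lt k
      unfold yb; omega
  · -- disj
    rintro ⟨j, k⟩ ⟨j', k'⟩ hi hi' hne
    change (if j < K then D.nb (j, k) else D.yb k) < (if j' < K then D.na (j', k') else D.ya k') ∨
      (if j' < K then D.nb (j', k') else D.yb k') < (if j < K then D.na (j, k) else D.ya k)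
    have e1 := eo_lt k
    have e2 := eo_lt k'
    have hk := k.2
    have hk' := k'.2
    by_cases hjK : j < K <;> by_cases hjK' : j' < K
    · simp only [if_pos hjK, if_pos hjK']
      exact D.itv.disj (j, k) (j', k') hjK hjK' hne
    · simp only [if_pos hjK, if_neg hjK']
      have h1 := D.sp_disj (j, sw3 k) hjK
      have h2 := D.lt (j, sw3 k) hjK
      unfold nb ya yb na
      rcases h1 with h1 | h1
      · left; simp only; omega
      · right; simp only; omega
    · simp only [if_neg hjK, if_pos hjK']
      have h1 := D.sp_disj (j', sw3 k') hjK'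
      have h2 := D.lt (j', sw3 k') hjK'
      unfold nb ya yb na
      rcases h1 with h1 | h1
      · right; simp only; omega
      · left; simp only; omega
    · simp only [if_neg hjK, if_neg hjK']
      have hjj : j = j' := by
        change j < K + 1 at hi
        change j' < K + 1 at hi'
        omega
      have hkk : k ≠ k' := by
        rintro rfl; exact hne (by rw [hjj])
      have hkk' : k.val ≠ k'.val := fun h => hkk (Fin.ext h)
      unfold ya yb
      omega
  · -- sp_disj
    rintro ⟨j, k⟩ hi
    change (if j < K then D.nb (j, k) else D.yb k) < 4 * (D.sp + 6) ∨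
      4 * (D.sp + 6) + 8 ≤ (if j < K then D.na (j, k) else D.ya k)
    have e1 := eo_lt k
    have hk := k.2
    by_cases hjK : j < K
    · simp only [if_pos hjK]
      have h1 := D.sp_disj (j, sw3 k) hjK
      unfold nb na
      simp only; omega
    · simp only [if_neg hjK]
      unfold yb ya; omega
  · have := D.spM; omega
  · -- πα
    rintro ⟨j, k⟩ hi
    change 4 * D.π + u < (if j < K then D.na (j, k) else D.ya k)
    by_cases hjK : j < K
    · rw [if_pos hjK]
      have h1 := D.πα (j, sw3 k) hjK
      unfold na; simp only; omega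
    · rw [if_neg hjK]
      have h1 := D.πsp
      unfold ya; omega
  · have := D.πsp; omega
  · -- p_one
    change (if (1 : ℕ) = 0 then (D.p 1, y') else if 1 ≤ K + 1 then (D.p 1, y) else _) = _
    rw [if_neg (by decide), if_pos (by omega), hπ_out _ (by omega), Xl_apply _ _ hu4, D.p_one, hu,
      ZMod.natCast_zmod_val]
    congr 1; ring
  · -- p_zero
    change (if (0 : ℕ) = 0 then (D.p 1, y') else _) = _ ∨ ∃ π', _ ∧
      (if (0 : ℕ) = 0 then (D.p 1, y') else _) = _
    rw [if_pos rfl]
    by_cases hu3 : u = 3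
    · right
      refine ⟨4 * D.π + 2, by omega, ?_⟩
      rw [hπ_out _ (by omega), Xl_apply _ _ (by omega), D.p_one, hy', if_pos hu3]
      have h1 : (D.π : ZMod 4) + y = 3 := by
        have h2 := ZMod.natCast_zmod_val ((D.π : ZMod 4) + y)
        rw [← hu, hu3] at h2
        rw [← h2]; rfl
      congr 1
      push_cast
      linear_combination h1
    · left
      rw [hπ_out _ (by omega), add_assoc, Xl_apply _ _ (by omega), D.p_one, hy', if_neg hu3,
        Nat.cast_add, hu, ZMod.natCast_zmod_val]
      congr 1
      push_cast; ring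
  · -- p_inj
    intro i i' hi hi' h
    by_cases h0 : i = 0 <;> by_cases h0' : i' = 0
    · rw [h0, h0']
    · rw [if_pos h0, if_neg h0'] at h
      by_cases h1 : i' ≤ K + 1
      · rw [if_pos h1, Prod.mk.injEq] at h
        exact absurd h.2 hy'y
      · rw [if_neg h1, Prod.mk.injEq] at h
        have := D.p_inj _ _ (by omega) (by omega) h.1
        omega
    · rw [if_neg h0, if_pos h0'] at h
      by_cases h1 : i ≤ K + 1
      · rw [if_pos h1, Prod.mk.injEq] at h
        exact absurd h.2.symm hy'y
      · rw [if_neg h1, Prod.mk.injEq] at h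
        have := D.p_inj _ _ (by omega) (by omega) h.1
        omega
    · rw [if_neg h0, if_neg h0'] at h
      by_cases h1 : i ≤ K + 1 <;> by_cases h1' : i' ≤ K + 1
      · rw [if_pos h1, if_pos h1', Prod.mk.injEq] at h
        exact D.p_inj _ _ h1 h1' h.1
      · rw [if_pos h1, if_neg h1', Prod.mk.injEq] at h
        exact absurd h.2.symm hyy1
      · rw [if_neg h1, if_pos h1', Prod.mk.injEq] at h
        exact absurd h.2 hyy1
      · omega
  · -- p_adj
    intro j hj
    rw [if_neg (show ¬ j + 1 = 0 by omega), if_neg (show ¬ j + 2 = 0 by omega)]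
    by_cases hjK : j < K
    · rw [if_pos (show j + 1 ≤ K + 1 by omega), if_pos (show j + 2 ≤ K + 1 by omega),
        D.nσ_lt σY hjK]
      have H := D.chordOK hjK
      have key : ∀ a b, D.σ j a = b → (∀ k, ¬ (a = D.tl j k ∧ b = D.hd j k)) →
          mrg (D.σ j) (D.tl j) (D.hd j) (a, y) = (b, y) ∨
          mrg (D.σ j) (D.tl j) (D.hd j) (b, y) = (a, y) := by
        intro a b hab hne
        have := mrg_cover_h H a y (by
          intro k hk
          exact absurd ⟨hk, by rw [← hab, hk, H.hσ]⟩ (hne k))
        rwa [hab] at this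
      rcases D.p_adj j hjK with h | h
      · apply key _ _ h
        rintro k ⟨h1, h2⟩
        have h3 := D.p_ne (j, sw3 k) hjK
        rcases D.tl_hd j k with ⟨h4, h5⟩ | ⟨h4, h5⟩
        · exact h3.1 ⟨by rw [← h4]; exact h1, by rw [← h5]; exact h2⟩
        · exact h3.2 ⟨by rw [← h4]; exact h1, by rw [← h5]; exact h2⟩
      · rcases key _ _ h (by
          rintro k ⟨h1, h2⟩
          have h3 := D.p_ne (j, sw3 k) hjK
          rcases D.tl_hd j k with ⟨h4, h5⟩ | ⟨h4, h5⟩
          · exact h3.2 ⟨by rw [← h5]; exact h2, by rw [← h4]; exact h1⟩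
          · exact h3.1 ⟨by rw [← h5]; exact h2, by rw [← h4]; exact h1⟩) with h1 | h1
        · exact Or.inr h1
        · exact Or.inl h1
    · have : j = K := by omega
      subst this
      rw [if_pos (le_refl _), if_neg (show ¬ j + 2 ≤ j + 1 by omega), D.nσ_K]
      exact Or.inl hYv
  · -- p_ne
    rintro ⟨j, k⟩ hi
    change j < K + 1 at hi
    simp only
    rw [if_neg (show ¬ j + 1 = 0 by omega), if_neg (show ¬ j + 2 = 0 by omega)]
    have hg : gp k + 1 ≠ gp k := by
      intro h; have : (1 : ZMod 4) = 0 := by linear_combination h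
      revert this; decide
    by_cases hjK : j < K
    · rw [if_pos (show j + 1 ≤ K + 1 by omega), if_pos (show j + 2 ≤ K + 1 by omega),
        if_pos hjK, if_pos hjK, D.nc_na (j, k) hjK, D.nc_nb (j, k) hjK]
      constructor
      · rintro ⟨h1, h2⟩
        rw [Prod.mk.injEq] at h1 h2
        exact hg (h2.2.symm.trans h1.2)
      · rintro ⟨h1, h2⟩
        rw [Prod.mk.injEq] at h1 h2
        exact hg (h1.2.symm.trans h2.2)
    · have : j = K := by omega
      subst this
      rw [if_pos (le_refl _), if_neg (show ¬ j + 2 ≤ j + 1 by omega), if_neg hjK, if_neg hjK,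
        D.nc_ya, D.nc_yb]
      constructor
      · rintro ⟨h1, h2⟩
        rw [Prod.mk.injEq] at h1 h2
        exact hyy1 (h2.2.trans h1.2.symm)
      · rintro ⟨h1, h2⟩
        rw [Prod.mk.injEq] at h1 h2
        exact hyy1 (h2.2.trans h1.2.symm)

end HD

end Pool.Agent.Lib.MP_7b50be_co
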