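import Mathlib
import Pool.Agent.Lib.MP_7b50be_co.Step3

set_option autoImplicit false
set_option linter.unusedSimpArgs false

namespace Pool.Agent.Lib.MP_7b50be_co

open Equiv SimpleGraph

instance : DecidableRel C4.Adj := fun a b => inferInstanceAs (Decidable (b = a + 1 ∨ a = b + 1))

/-- Vertices of the base graph. -/
abbrev V3 := (ZMod 4 × ZMod 4) × ZMod 4

/-- The base graph. -/
abbrev G3 : SimpleGraph V3 := (C4 □ C4) □ C4

instance decG3 : DecidableRel G3.Adj := fun x y =>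
  inferInstanceAs (Decidable (((C4.Adj x.1.1 y.1.1 ∧ x.1.2 = y.1.2) ∨
    (C4.Adj x.1.2 y.1.2 ∧ x.1.1 = y.1.1)) ∧ x.2 = y.2 ∨ C4.Adj x.2 y.2 ∧ x.1 = y.1))

/-- Decoding. -/
def dec3 (n : ℕ) : V3 := (((n : ZMod 4), ((n / 4 : ℕ) : ZMod 4)), ((n / 16 : ℕ) : ZMod 4))

/-- Encoding. -/
def enc3 (w : V3) : ℕ := w.1.1.val + 4 * w.1.2.val + 16 * w.2.val

def cL : List ℕ := [12, 15, 31, 47, 43, 39, 23, 20, 24, 27, 11, 59, 58, 10, 26, 42, 46, 34, 38, 22, 21, 25, 41, 57, 53, 37, 36, 40, 56, 8, 9, 5, 6, 7, 4, 0, 3, 2, 18, 17, 33, 49, 1, 13, 61, 45, 29, 30, 14, 62, 63, 60, 48, 52, 55, 54, 50, 51, 35, 19, 16, 32, 44, 28]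
def cLi : List ℕ := [35, 42, 37, 36, 34, 31, 32, 33, 29, 30, 13, 10, 0, 43, 48, 1, 60, 39, 38, 59, 7, 20, 19, 6, 8, 21, 14, 9, 63, 46, 47, 2, 61, 40, 17, 58, 26, 25, 18, 5, 27, 22, 15, 4, 62, 45, 16, 3, 52, 41, 56, 57, 53, 24, 55, 54, 28, 23, 12, 11, 51, 44, 49, 50]
def dL : List ℕ := [0, 16, 17, 29, 28, 31, 27, 43, 42, 41, 40, 24, 8, 12, 13, 14, 10, 6, 22, 23, 7, 11, 15, 3, 19, 18, 30, 26, 25, 9, 57, 58, 54, 53, 49, 61, 60, 44, 47, 63, 59, 56, 52, 4, 20, 36, 32, 35, 34, 33, 45, 46, 62, 50, 2, 1, 5, 21, 37, 38, 39, 55, 51, 48]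
def dLi : List ℕ := [0, 55, 54, 23, 43, 56, 17, 20, 12, 29, 16, 21, 13, 14, 15, 22, 1, 2, 25, 24, 44, 57, 18, 19, 11, 28, 27, 6, 4, 3, 26, 5, 46, 49, 48, 47, 45, 58, 59, 60, 10, 9, 8, 7, 37, 50, 51, 38, 63, 34, 53, 62, 42, 33, 32, 61, 41, 30, 31, 40, 36, 35, 52, 39]
def eL : List ℕ := [0, 1, 17, 21, 20, 16, 28, 24, 25, 29, 13, 9, 10, 11, 8, 4, 5, 53, 52, 36, 39, 35, 47, 46, 30, 31, 19, 23, 27, 26, 22, 18, 34, 50, 49, 48, 32, 33, 37, 41, 45, 44, 40, 43, 59, 55, 7, 3, 51, 63, 15, 14, 2, 6, 54, 38, 42, 58, 62, 61, 57, 56, 60, 12]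
def eLi : List ℕ := [0, 1, 52, 47, 15, 16, 53, 46, 14, 11, 12, 13, 63, 10, 51, 50, 5, 2, 31, 26, 4, 3, 30, 27, 7, 8, 29, 28, 6, 9, 24, 25, 36, 37, 32, 21, 19, 38, 55, 20, 42, 39, 56, 43, 41, 40, 23, 22, 35, 34, 33, 48, 18, 17, 54, 45, 61, 60, 57, 44, 62, 59, 58, 49]

/-- The listing attached to a list of codes. -/
def lst (l : List ℕ) (q : ℕ) : V3 := dec3 (l.getD (q % 64) 0)

lemma lst_isListing (l li : List ℕ)
    (h1 : ∀ q, q < 64 → li.getD (enc3 (dec3 (l.getD q 0))) 0 = q)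
    (h2 : ∀ w : V3, li.getD (enc3 w) 0 < 64 ∧ dec3 (l.getD (li.getD (enc3 w) 0) 0) = w)
    (h3 : ∀ q, q < 64 → G3.Adj (dec3 (l.getD q 0)) (dec3 (l.getD ((q + 1) % 64) 0))) :
    IsListing G3 64 (lst l) := by
  refine ⟨by omega, ?_, ?_, ?_, ?_⟩
  · intro q; unfold lst; rw [Nat.add_mod_right]
  · intro q q' hq hq' h
    unfold lst at h
    rw [Nat.mod_eq_of_lt hq, Nat.mod_eq_of_lt hq'] at h
    rw [← h1 q hq, h, h1 q' hq']
  · intro w
    refine ⟨li.getD (enc3 w) 0, (h2 w).1, ?_⟩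
    unfold lst
    rw [Nat.mod_eq_of_lt (h2 w).1, (h2 w).2]
  · intro q
    have := h3 (q % 64) (Nat.mod_lt _ (by omega))
    unfold lst
    rw [Nat.mod_add_mod] at this
    exact this

lemma cL_isListing : IsListing G3 64 (lst cL) :=
  lst_isListing cL cLi (by decide) (by decide) (by decide)

lemma dL_isListing : IsListing G3 64 (lst dL) :=
  lst_isListing dL dLi (by decide) (by decide) (by decide)

lemma eL_isListing : IsListing G3 64 (lst eL) :=
  lst_isListing eL eLi (by decide) (by decide) (by decide)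

/-- Consecutive in the cyclic list with inverse list `li`. -/
def cons3 (li : List ℕ) (x y : V3) : Bool :=
  decide (li.getD (enc3 y) 0 = (li.getD (enc3 x) 0 + 1) % 64)

lemma cons3_spec {l li : List ℕ}
    (h2 : ∀ w : V3, li.getD (enc3 w) 0 < 64 ∧ dec3 (l.getD (li.getD (enc3 w) 0) 0) = w)
    {x y : V3} (h : cons3 li x y = true) : ∃ q, lst l q = x ∧ lst l (q + 1) = y := by
  unfold cons3 at h
  rw [decide_eq_true_eq] at h
  refine ⟨li.getD (enc3 x) 0, ?_, ?_⟩
  · unfold lst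
    rw [Nat.mod_eq_of_lt (h2 x).1, (h2 x).2]
  · unfold lst
    rw [← h, (h2 y).2]

/-- Consecutive in one of the three cyclic lists. -/
def cb (x y : V3) : Bool :=
  cons3 cLi x y || cons3 cLi y x || cons3 dLi x y || cons3 dLi y x || cons3 eLi x y ||
      cons3 eLi y x

lemma cb_symm (x y : V3) : cb x y = cb y x := by
  unfold cb
  generalize cons3 cLi x y = a
  generalize cons3 cLi y x = b
  generalize cons3 dLi x y = c
  generalize cons3 dLi y x = d
  generalize cons3 eLi x y = e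
  generalize cons3 eLi y x = f
  revert a b c d e f
  decide

lemma cover3a : ∀ x : V3, cb x ((x.1.1 + 1, x.1.2), x.2) = true ∧
    cb x ((x.1.1, x.1.2 + 1), x.2) = true ∧ cb x ((x.1.1, x.1.2), x.2 + 1) = true := by
  decide

lemma cover3 (x y : V3) (h : G3.Adj x y) : cb x y = true := by
  obtain ⟨⟨a, b⟩, c⟩ := x
  obtain ⟨⟨a', b'⟩, c'⟩ := y
  rw [boxProd_adj, boxProd_adj] at h
  rcases h with ⟨⟨h1, h2⟩ | ⟨h1, h2⟩, h3⟩ | ⟨h1, h2⟩
  · change a' = a + 1 ∨ a = a' + 1 at h1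
    change b = b' at h2
    change c = c' at h3
    subst h2 h3
    rcases h1 with rfl | rfl
    · exact (cover3a ((a, b), c)).1
    · rw [cb_symm]; exact (cover3a ((a', b), c)).1
  · change b' = b + 1 ∨ b = b' + 1 at h1
    change a = a' at h2
    change c = c' at h3
    subst h2 h3
    rcases h1 with rfl | rfl
    · exact (cover3a ((a, b), c)).2.1
    · rw [cb_symm]; exact (cover3a ((a, b'), c)).2.1
  · change c' = c + 1 ∨ c = c' + 1 at h1
    change (a, b) = (a', b') at h2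
    rw [Prod.mk.injEq] at h2
    obtain ⟨rfl, rfl⟩ := h2
    rcases h1 with rfl | rfl
    · exact (cover3a ((a, b), c)).2.2
    · rw [cb_symm]; exact (cover3a ((a, b), c')).2.2

lemma inv_c : ∀ w : V3, cLi.getD (enc3 w) 0 < 64 ∧ dec3 (cL.getD (cLi.getD (enc3 w) 0) 0) = w := by
  decide

lemma inv_d : ∀ w : V3, dLi.getD (enc3 w) 0 < 64 ∧ dec3 (dL.getD (dLi.getD (enc3 w) 0) 0) = w := by
  decide

lemma inv_e : ∀ w : V3, eLi.getD (enc3 w) 0 < 64 ∧ dec3 (eL.getD (eLi.getD (enc3 w) 0) 0) = w := by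
  decide

/-- Left endpoints of the chords. -/
def al3 (i : ℕ × Fin 3) : ℕ := if i.1 = 0 then ![4, 37, 20] i.2 else ![44, 29, 52] i.2

/-- Right endpoints of the chords. -/
def be3 (i : ℕ × Fin 3) : ℕ := if i.1 = 0 then ![9, 42, 25] i.2 else ![49, 34, 61] i.2

lemma two_cases {P : ℕ × Fin 3 → Prop} (h0 : ∀ k, P (0, k)) (h1 : ∀ k, P (1, k)) :
    ∀ i : ℕ × Fin 3, i.1 < 2 → P i := by
  rintro ⟨j, k⟩ hj
  change j < 2 at hj
  interval_cases j
  · exact h0 k
  · exact h1 k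

theorem base3 : Nonempty (HD G3 2 64) := by
  obtain ⟨σd, hd, hdsc⟩ := exists_perm dL_isListing
  obtain ⟨σe, he, hesc⟩ := exists_perm eL_isListing
  have hdc : ∀ x y, cons3 dLi x y = true → σd x = y := by
    intro x y h
    obtain ⟨q, rfl, rfl⟩ := cons3_spec inv_d h
    exact hd q
  have hec : ∀ x y, cons3 eLi x y = true → σe x = y := by
    intro x y h
    obtain ⟨q, rfl, rfl⟩ := cons3_spec inv_e h
    exact he q
  refine ⟨{
    c := lst cL
    σ := fun j => if j = 0 then σd else σe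
    α := al3
    β := be3
    sp := 12
    p := fun i => dec3 ([15, 12, 13, 9].getD i 0)
    π := 0
    hc := cL_isListing
    four_dvd := by decide
    coprime := by decide
    σ_adj := ?_
    σ_sc := ?_
    cover := ?_
    chord := ?_
    lt := two_cases (by decide) (by decide)
    βM := two_cases (by decide) (by decide)
    α_mod := two_cases (by decide) (by decide)
    β_mod := two_cases (by decide) (by decide)
    disj := ?_
    sp_disj := two_cases (by decide) (by decide)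
    spM := by decide
    πα := two_cases (by decide) (by decide)
    πsp := by decide
    p_one := by decide
    p_zero := Or.inl (by decide)
    p_inj := ?_
    p_adj := ?_
    p_ne := two_cases (by decide) (by decide) }⟩
  · intro j hj x
    interval_cases j
    · rw [if_pos rfl]
      obtain ⟨q, _, rfl⟩ := dL_isListing.surj x
      rw [hd]; exact dL_isListing.adj q
    · rw [if_neg (by decide)]
      obtain ⟨q, _, rfl⟩ := eL_isListing.surj x
      rw [he]; exact eL_isListing.adj q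
  · intro j hj x y
    interval_cases j
    · rw [if_pos rfl]; exact hdsc x y
    · rw [if_neg (by decide)]; exact hesc x y
  · intro x y h
    have h1 := cover3 x y h
    unfold cb at h1
    rw [Bool.or_eq_true, Bool.or_eq_true, Bool.or_eq_true, Bool.or_eq_true, Bool.or_eq_true] at h1
    rcases h1 with ((((h1 | h1) | h1) | h1) | h1) | h1
    · obtain ⟨q, h2, h3⟩ := cons3_spec inv_c h1
      exact Or.inl ⟨q, Or.inl ⟨h2, h3⟩⟩
    · obtain ⟨q, h2, h3⟩ := cons3_spec inv_c h1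
      exact Or.inl ⟨q, Or.inr ⟨h2, h3⟩⟩
    · exact Or.inr ⟨0, by decide, Or.inl (hdc _ _ h1)⟩
    · exact Or.inr ⟨0, by decide, Or.inr (hdc _ _ h1)⟩
    · exact Or.inr ⟨1, by decide, Or.inl (hec _ _ h1)⟩
    · exact Or.inr ⟨1, by decide, Or.inr (hec _ _ h1)⟩
  · -- chord
    apply two_cases
    · intro k
      change σd _ = _ ∨ σd _ = _
      have h1 : cons3 dLi (lst cL (al3 (0, k))) (lst cL (be3 (0, k))) = true ∨
          cons3 dLi (lst cL (be3 (0, k))) (lst cL (al3 (0, k))) = true := by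
        revert k; decide
      rcases h1 with h1 | h1
      · exact Or.inl (hdc _ _ h1)
      · exact Or.inr (hdc _ _ h1)
    · intro k
      change σe _ = _ ∨ σe _ = _
      have h1 : cons3 eLi (lst cL (al3 (1, k))) (lst cL (be3 (1, k))) = true ∨
          cons3 eLi (lst cL (be3 (1, k))) (lst cL (al3 (1, k))) = true := by
        revert k; decide
      rcases h1 with h1 | h1
      · exact Or.inl (hec _ _ h1)
      · exact Or.inr (hec _ _ h1)
  · -- disj
    have key : ∀ j j' : Fin 2, ∀ k k' : Fin 3, ((j : ℕ), k) ≠ ((j' : ℕ), k') →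
        be3 (j, k) < al3 (j', k') ∨ be3 (j', k') < al3 (j, k) := by decide
    rintro ⟨j, k⟩ ⟨j', k'⟩ hj hj' hne
    exact key ⟨j, hj⟩ ⟨j', hj'⟩ k k' hne
  · intro i i' hi hi' h
    have key : ∀ i i' : Fin 4, dec3 ([15, 12, 13, 9].getD i 0) = dec3 ([15, 12, 13, 9].getD i' 0) →
        (i : ℕ) = i' := by decide
    exact key ⟨i, by omega⟩ ⟨i', by omega⟩ h
  · intro j hj
    interval_cases j
    · change σd _ = _ ∨ σd _ = _
      have h1 : cons3 dLi (dec3 ([15, 12, 13, 9].getD 1 0)) (dec3 ([15, 12, 13, 9].getD 2 0)) = true ∨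
          cons3 dLi (dec3 ([15, 12, 13, 9].getD 2 0)) (dec3 ([15, 12, 13, 9].getD 1 0)) = true := by
        decide
      rcases h1 with h1 | h1
      · exact Or.inl (hdc _ _ h1)
      · exact Or.inr (hdc _ _ h1)
    · change σe _ = _ ∨ σe _ = _
      have h1 : cons3 eLi (dec3 ([15, 12, 13, 9].getD 2 0)) (dec3 ([15, 12, 13, 9].getD 3 0)) = true ∨
          cons3 eLi (dec3 ([15, 12, 13, 9].getD 3 0)) (dec3 ([15, 12, 13, 9].getD 2 0)) = true := by
        decide
      rcases h1 with h1 | h1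
      · exact Or.inl (hec _ _ h1)
      · exact Or.inr (hec _ _ h1)

end Pool.Agent.Lib.MP_7b50be_co
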