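import Mathlib

set_option autoImplicit false

namespace Pool.Agent.Lib.MP_7b50be_co

/-- The hypercube graph `Q_n`: the vertex set is `{0,1}^n`, and two vertices are adjacent when
they differ in exactly one coordinate. -/
def hypercube (n : ℕ) : SimpleGraph (Fin n → Bool) where
  Adj x y := ∃! i, x i ≠ y i
  symm.symm x y := by
    rintro ⟨i, hi, hu⟩
    exact ⟨i, fun h => hi h.symm, fun j hj => hu j (fun h => hj h.symm)⟩
  loopless.irrefl x := by
    rintro ⟨i, hi, _⟩
    exact hi rfl

/-- The edge set of `G` can be partitioned into copies of `P_{k+1}`, the path with `k + 1`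
vertices and `k` edges: there is a set of subgraphs of `G`, each isomorphic to `P_{k+1}`, such
that every edge of `G` lies in exactly one of them. -/
def PartitionsIntoPaths {V : Type*} (G : SimpleGraph V) (k : ℕ) : Prop :=
  ∃ S : Set G.Subgraph, (∀ P ∈ S, Nonempty (P.coe ≃g SimpleGraph.pathGraph (k + 1))) ∧
    ∀ e ∈ G.edgeSet, ∃! P, P ∈ S ∧ e ∈ P.edgeSet

end Pool.Agent.Lib.MP_7b50be_co
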