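import Mathlib
import Pool.Agent.Lib.MP_7b50be_co.Defs

set_option autoImplicit false

namespace Pool.Agent.Lib.MP_7b50be_co

open SimpleGraph

/-- Functional form of a decomposition into paths with `k` edges. -/
def DecF {V : Type*} (G : SimpleGraph V) (k : ℕ) : Prop :=
  ∃ (ι : Type) (v : ι → ℕ → V), (∀ i, Set.InjOn (v i) (Set.Iic k)) ∧
    (∀ i t, t < k → G.Adj (v i t) (v i (t + 1))) ∧
    ∀ e ∈ G.edgeSet, ∃! p : ι × ℕ, p.2 < k ∧ e = s(v p.1 p.2, v p.1 (p.2 + 1))

/-- The subgraph traced by a function on `{0, …, k}`. -/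
def traceSub {V : Type*} (G : SimpleGraph V) (k : ℕ) (v : ℕ → V)
    (hadj : ∀ t, t < k → G.Adj (v t) (v (t + 1))) : G.Subgraph where
  verts := v '' Set.Iic k
  Adj x y := ∃ t, t < k ∧ s(x, y) = s(v t, v (t + 1))
  adj_sub := by
    rintro x y ⟨t, ht, h⟩
    rw [← SimpleGraph.mem_edgeSet, h, SimpleGraph.mem_edgeSet]
    exact hadj t ht
  edge_vert := by
    rintro x y ⟨t, ht, h⟩
    rw [Sym2.eq_iff] at h
    rcases h with ⟨rfl, _⟩ | ⟨rfl, _⟩
    · exact ⟨t, ht.le, rfl⟩
    · exact ⟨t + 1, ht, rfl⟩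
  symm.symm x y := by
    rintro ⟨t, ht, h⟩
    exact ⟨t, ht, by rw [Sym2.eq_swap]; exact h⟩

lemma traceSub_edge {V : Type*} (G : SimpleGraph V) (k : ℕ) (v : ℕ → V)
    (hadj : ∀ t, t < k → G.Adj (v t) (v (t + 1))) (e : Sym2 V) :
    e ∈ (traceSub G k v hadj).edgeSet ↔ ∃ t, t < k ∧ e = s(v t, v (t + 1)) := by
  induction e using Sym2.ind with
  | _ x y => rfl

lemma traceSub_iso {V : Type*} (G : SimpleGraph V) (k : ℕ) (v : ℕ → V)
    (hinj : Set.InjOn v (Set.Iic k))
    (hadj : ∀ t, t < k → G.Adj (v t) (v (t + 1))) :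
    Nonempty ((traceSub G k v hadj).coe ≃g pathGraph (k + 1)) := by
  let f : Fin (k + 1) → (traceSub G k v hadj).verts := fun t => ⟨v t, t, Nat.lt_succ_iff.mp t.2, rfl⟩
  have hf : Function.Bijective f := by
    constructor
    · intro a b hab
      have h1 : v a = v b := congrArg Subtype.val hab
      exact Fin.ext (hinj (Nat.lt_succ_iff.mp a.2) (Nat.lt_succ_iff.mp b.2) h1)
    · rintro ⟨x, t, ht, rfl⟩
      exact ⟨⟨t, Nat.lt_succ_of_le ht⟩, rfl⟩
  refine ⟨(RelIso.symm ⟨Equiv.ofBijective f hf, ?_⟩)⟩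
  intro a b
  change (∃ t, t < k ∧ s(v a, v b) = s(v t, v (t + 1))) ↔ _
  rw [pathGraph_adj]
  constructor
  · rintro ⟨t, ht, h⟩
    rw [Sym2.eq_iff] at h
    rcases h with ⟨h1, h2⟩ | ⟨h1, h2⟩
    · have h3 := hinj (Nat.lt_succ_iff.mp a.2) (show t ∈ Set.Iic k from ht.le) h1
      have h4 := hinj (Nat.lt_succ_iff.mp b.2) (show t + 1 ∈ Set.Iic k from ht) h2
      left; omega
    · have h3 := hinj (Nat.lt_succ_iff.mp a.2) (show t + 1 ∈ Set.Iic k from ht) h1
      have h4 := hinj (Nat.lt_succ_iff.mp b.2) (show t ∈ Set.Iic k from ht.le) h2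
      right; omega
  · rintro (h | h)
    · refine ⟨a, by omega, ?_⟩
      rw [h]
    · refine ⟨b, by omega, ?_⟩
      rw [h, Sym2.eq_swap]

theorem DecF.partitions {V : Type*} {G : SimpleGraph V} {k : ℕ} (h : DecF G k) :
    PartitionsIntoPaths G k := by
  obtain ⟨ι, v, hinj, hadj, huniq⟩ := h
  refine ⟨Set.range (fun i => traceSub G k (v i) (hadj i)), ?_, ?_⟩
  · rintro P ⟨i, rfl⟩
    exact traceSub_iso G k (v i) (hinj i) (hadj i)
  · intro e he
    obtain ⟨⟨i, t⟩, ⟨ht, hit⟩, hu⟩ := huniq e he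
    refine ⟨traceSub G k (v i) (hadj i), ⟨⟨i, rfl⟩, ?_⟩, ?_⟩
    · rw [traceSub_edge]; exact ⟨t, ht, hit⟩
    · rintro P ⟨⟨j, rfl⟩, hj⟩
      change e ∈ (traceSub G k (v j) (hadj j)).edgeSet at hj
      rw [traceSub_edge] at hj
      obtain ⟨t', ht', hjt⟩ := hj
      have := hu (j, t') ⟨ht', hjt⟩
      rw [Prod.mk.injEq] at this
      rw [this.1]

/-- Cutting every path with `m * k` edges into `m` paths with `k` edges. -/
theorem DecF.cut {V : Type*} {G : SimpleGraph V} {k m : ℕ} (hk : 0 < k) (h : DecF G (m * k)) :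
    DecF G k := by
  obtain ⟨ι, v, hinj, hadj, huniq⟩ := h
  have key : ∀ (a : Fin m) (t : ℕ), t ≤ k → (a : ℕ) * k + t ≤ m * k := by
    intro a t ht
    calc (a : ℕ) * k + t ≤ a * k + k := by omega
      _ = (a + 1) * k := by ring
      _ ≤ m * k := Nat.mul_le_mul_right _ a.2
  refine ⟨ι × Fin m, fun p t => v p.1 (p.2 * k + t), ?_, ?_, ?_⟩
  · rintro ⟨i, a⟩ s hs t ht hst
    have := hinj i (key a s hs) (key a t ht) hst
    change (a : ℕ) * k + s = a * k + t at this
    omega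
  · rintro ⟨i, a⟩ t ht
    have h1 := key a (t + 1) ht
    exact hadj i (a * k + t) (by omega)
  · intro e he
    obtain ⟨⟨i, t⟩, ⟨ht, hit⟩, hu⟩ := huniq e he
    change t < m * k at ht
    have h1 : t / k < m := Nat.div_lt_of_lt_mul (by rw [mul_comm]; exact ht)
    have h2 : t / k * k + t % k = t := Nat.div_add_mod' t k
    refine ⟨((i, ⟨t / k, h1⟩), t % k), ⟨Nat.mod_lt _ hk, ?_⟩, ?_⟩
    · change e = s(v i (t / k * k + t % k), v i (t / k * k + (t % k + 1)))
      rw [← add_assoc, h2]; exact hit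
    · rintro ⟨⟨j, a⟩, t'⟩ ⟨ht', hjt⟩
      change t' < k at ht'
      change e = s(v j (a * k + t'), v j (a * k + (t' + 1))) at hjt
      have h3 := key a (t' + 1) ht'
      have h4 := hu (j, a * k + t') ⟨show (a : ℕ) * k + t' < m * k by omega, hjt⟩
      rw [Prod.mk.injEq] at h4
      obtain ⟨h4, h5⟩ := h4
      have h6 : t / k = a := by
        rw [← h5, Nat.add_comm, Nat.add_mul_div_right _ _ hk, Nat.div_eq_of_lt ht', zero_add]
      have h7 : t % k = t' := by
        rw [← h5, Nat.add_comm, Nat.add_mul_mod_self_right, Nat.mod_eq_of_lt ht']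
      simp only [Prod.mk.injEq]
      exact ⟨⟨h4, Fin.ext h6.symm⟩, h7.symm⟩

/-- `x` and `y` are consecutive in the list `l`, in some order. -/
def Nb {V : Type*} (x y : V) (l : List V) : Prop := [x, y] <:+: l ∨ [y, x] <:+: l

/-- List form: a family of lists, each a path with `k` edges, covering every edge, with the right
number of edges in total. -/
def DecL {V : Type*} (G : SimpleGraph V) (k : ℕ) : Prop :=
  ∃ (ι : Type) (_ : Fintype ι) (P : ι → List V), (∀ i, (P i).length = k + 1) ∧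
    (∀ i, (P i).Nodup) ∧ (∀ i, (P i).IsChain G.Adj) ∧
    (∀ x y, G.Adj x y → ∃ i, Nb x y (P i)) ∧ Fintype.card ι * k = Nat.card G.edgeSet

lemma Nb.exists_getElem {V : Type*} {x y : V} {l : List V} (h : Nb x y l) :
    ∃ (t : ℕ) (ht : t + 1 < l.length), s(x, y) = s(l[t], l[t + 1]) := by
  rcases h with ⟨s1, s2, rfl⟩ | ⟨s1, s2, rfl⟩
  · refine ⟨s1.length, by simp, ?_⟩
    simp
  · refine ⟨s1.length, by simp, ?_⟩
    simp [Sym2.eq_swap]

theorem DecL.decF {V : Type*} [Finite V] {G : SimpleGraph V} {k : ℕ} (hne : Nonempty V)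
    (h : DecL G k) : DecF G k := by
  classical
  obtain ⟨ι, _, P, hlen, hnd, hch, hcov, hcard⟩ := h
  obtain ⟨x0⟩ := hne
  let v : ι → ℕ → V := fun i t => (P i).getD t x0
  have hv : ∀ i t (ht : t < k + 1), v i t = (P i)[t]'(by rw [hlen]; exact ht) := by
    intro i t ht
    exact List.getD_eq_getElem _ _ (by rw [hlen]; exact ht)
  have hadj : ∀ i t, t < k → G.Adj (v i t) (v i (t + 1)) := by
    intro i t ht
    rw [hv i t (by omega), hv i (t + 1) (by omega)]
    exact List.isChain_iff_getElem.mp (hch i) t (by rw [hlen]; omega)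
  refine ⟨ι, v, ?_, hadj, ?_⟩
  · intro i s hs t ht hst
    rw [Set.mem_Iic] at hs ht
    rw [hv i s (by omega), hv i t (by omega)] at hst
    exact (List.Nodup.getElem_inj_iff (hnd i)).mp hst
  · let Φ : ι × Fin k → G.edgeSet := fun p => ⟨s(v p.1 p.2, v p.1 (p.2 + 1)), by
      rw [SimpleGraph.mem_edgeSet]; exact hadj p.1 p.2 p.2.2⟩
    have hsurj : Function.Surjective Φ := by
      rintro ⟨e, he⟩
      induction e using Sym2.ind with
      | _ x y =>
        obtain ⟨i, hi⟩ := hcov x y he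
        obtain ⟨t, ht, hst⟩ := hi.exists_getElem
        rw [hlen] at ht
        refine ⟨(i, ⟨t, by omega⟩), ?_⟩
        apply Subtype.ext
        change s(v i t, v i (t + 1)) = s(x, y)
        rw [hst, hv i t (by omega), hv i (t + 1) (by omega)]
    haveI : Finite G.edgeSet := inferInstance
    haveI : Fintype G.edgeSet := Fintype.ofFinite _
    have hbij : Function.Bijective Φ := by
      rw [Fintype.bijective_iff_surjective_and_card]
      refine ⟨hsurj, ?_⟩
      rw [Fintype.card_prod, Fintype.card_fin, hcard, Nat.card_eq_fintype_card]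
    intro e he
    obtain ⟨⟨i, t⟩, hit⟩ := hsurj ⟨e, he⟩
    refine ⟨(i, (t : ℕ)), ⟨t.2, (congrArg Subtype.val hit).symm⟩, ?_⟩
    rintro ⟨j, t'⟩ ⟨ht', hjt⟩
    have h1 : Φ (j, ⟨t', ht'⟩) = Φ (i, t) := by
      rw [hit]; exact Subtype.ext hjt.symm
    have h2 := hbij.1 h1
    rw [Prod.mk.injEq] at h2
    obtain ⟨h3, h4⟩ := h2
    rw [Prod.mk.injEq]
    exact ⟨h3, by rw [← h4]⟩

/-- Transfer along a graph isomorphism. -/
theorem DecF.iso {V W : Type*} {G : SimpleGraph V} {H : SimpleGraph W} (e : G ≃g H) {k : ℕ}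
    (h : DecF G k) : DecF H k := by
  obtain ⟨ι, v, hinj, hadj, huniq⟩ := h
  refine ⟨ι, fun i t => e (v i t), ?_, ?_, ?_⟩
  · intro i s hs t ht hst
    exact hinj i hs ht (e.injective hst)
  · intro i t ht
    exact e.map_adj_iff.mpr (hadj i t ht)
  · intro a ha
    induction a using Sym2.ind with
    | _ x y =>
      have h1 : s(e.symm x, e.symm y) ∈ G.edgeSet := by
        rw [SimpleGraph.mem_edgeSet]; exact e.symm.map_adj_iff.mpr ha
      obtain ⟨p, ⟨hp, hps⟩, hu⟩ := huniq _ h1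
      refine ⟨p, ⟨hp, ?_⟩, ?_⟩
      · have := congrArg (Sym2.map e) hps
        simpa using this
      · rintro q ⟨hq, hqs⟩
        apply hu q
        refine ⟨hq, ?_⟩
        have := congrArg (Sym2.map e.symm) hqs
        simpa using this

end Pool.Agent.Lib.MP_7b50be_co
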