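import Mathlib
import Pool.Agent.Lib.MP_7b50be_co.Base
import Pool.Agent.Lib.MP_7b50be_co.Dec

set_option autoImplicit false
set_option linter.unusedSimpArgs false

namespace Pool.Agent.Lib.MP_7b50be_co

open Equiv SimpleGraph

lemma Nb.symm {V : Type*} {x y : V} {l : List V} (h : Nb x y l) : Nb y x l := Or.symm h

lemma Nb.reverse {V : Type*} {x y : V} {l : List V} (h : Nb x y l) : Nb x y l.reverse := by
  rcases h with h | h
  · right
    have := List.reverse_infix.mpr h
    simpa using this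
  · left
    have := List.reverse_infix.mpr h
    simpa using this

/-- A decomposition of `G` into Hamiltonian cycles `F j ∪ {p j, p (j+1)}`, presented by the
Hamiltonian paths `F j` from `p j` to `p (j+1)`, where `p 0, …, p L` are distinct. -/
structure HR {V : Type} (G : SimpleGraph V) (L M : ℕ) where
  F : ℕ → List V
  p : ℕ → V
  p_inj : ∀ i i', i ≤ L → i' ≤ L → p i = p i' → i = i'
  p_adj : ∀ j < L, G.Adj (p j) (p (j + 1))
  nodup : ∀ j < L, (F j).Nodup
  len : ∀ j < L, (F j).length = M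
  mem : ∀ j < L, ∀ x, x ∈ F j
  chain : ∀ j < L, (F j).IsChain G.Adj
  head : ∀ j < L, (F j).head? = some (p j)
  last : ∀ j < L, (F j).getLast? = some (p (j + 1))
  cover : ∀ x y, G.Adj x y → ∃ j < L, Nb x y (F j) ∨ (x = p j ∧ y = p (j + 1)) ∨
    (x = p (j + 1) ∧ y = p j)

section listing

variable {V : Type} {G : SimpleGraph V} {M : ℕ} {f : ℕ → V}

lemma infix_map_range (g : ℕ → V) {n t : ℕ} (ht : t + 1 < n) :
    [g t, g (t + 1)] <:+: (List.range n).map g := by
  have h1 : List.range n = List.range t ++ [t, t + 1] ++ (List.range' (t + 2) (n - (t + 2))) := by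
    have h2 : List.range n = List.range' 0 n := List.range_eq_range'
    have h3 : List.range t = List.range' 0 t := List.range_eq_range'
    have h4 : [t, t + 1] = List.range' t 2 := by simp [List.range']
    rw [h2, h3, h4]
    have h5 := List.range'_append_1 (s := 0) (m := t) (n := 2)
    rw [zero_add] at h5
    rw [h5]
    have h6 := List.range'_append_1 (s := 0) (m := t + 2) (n := n - (t + 2))
    rw [zero_add] at h6
    rw [h6]
    congr 1
    omega
  rw [h1]
  simp only [List.map_append, List.map_cons, List.map_nil]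
  exact ⟨_, _, rfl⟩

lemma list_of_listing (h : IsListing G M f) (q : ℕ) :
    ∃ F : List V, F.Nodup ∧ F.length = M ∧ (∀ x, x ∈ F) ∧ F.IsChain G.Adj ∧
      F.head? = some (f (q + 1)) ∧ F.getLast? = some (f q) ∧
      ∀ r, Nb (f r) (f (r + 1)) F ∨ (f r = f q ∧ f (r + 1) = f (q + 1)) := by
  have hM := h.pos
  refine ⟨(List.range M).map (fun t => f (q + 1 + t)), ?_, by simp, ?_, ?_, ?_, ?_, ?_⟩
  · rw [List.nodup_map_iff_inj_on List.nodup_range]
    intro a ha b hb hab
    rw [List.mem_range] at ha hb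
    rw [h.eq_iff] at hab
    have h1 : a ≡ b [MOD M] := Nat.ModEq.add_left_cancel' (q + 1) hab
    unfold Nat.ModEq at h1
    rwa [Nat.mod_eq_of_lt ha, Nat.mod_eq_of_lt hb] at h1
  · intro x
    obtain ⟨a, ha, rfl⟩ := h.surj x
    rw [List.mem_map]
    refine ⟨(a + (M - (q + 1) % M)) % M, List.mem_range.mpr (Nat.mod_lt _ hM), ?_⟩
    rw [h.eq_iff]
    calc q + 1 + (a + (M - (q + 1) % M)) % M ≡ q + 1 + (a + (M - (q + 1) % M)) [MOD M] :=
          Nat.ModEq.add_left _ (Nat.mod_modEq _ _)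
      _ ≡ (q + 1) % M + (a + (M - (q + 1) % M)) [MOD M] :=
          Nat.ModEq.add_right _ (Nat.mod_modEq _ _).symm
      _ = a + M := by have := Nat.mod_lt (q + 1) hM; omega
      _ ≡ a [MOD M] := by unfold Nat.ModEq; rw [Nat.add_mod_right]
  · rw [List.isChain_iff_getElem]
    intro i hi
    simp only [List.getElem_map, List.getElem_range]
    exact h.adj (q + 1 + i)
  · obtain ⟨m, rfl⟩ : ∃ m, M = m + 1 := ⟨M - 1, by omega⟩
    rw [List.range_succ_eq_map]
    simp
  · obtain ⟨m, rfl⟩ : ∃ m, M = m + 1 := ⟨M - 1, by omega⟩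
    rw [List.range_succ]
    simp only [List.map_append, List.map_cons, List.map_nil, List.getLast?_concat,
      Option.some.injEq]
    have : q + 1 + m = q + (m + 1) := by ring
    rw [this, h.per]
  · intro r
    set t := (r + (M - (q + 1) % M)) % M with ht
    have htM : t < M := Nat.mod_lt _ hM
    have hrt : q + 1 + t ≡ r [MOD M] := by
      calc q + 1 + (r + (M - (q + 1) % M)) % M ≡ q + 1 + (r + (M - (q + 1) % M)) [MOD M] :=
            Nat.ModEq.add_left _ (Nat.mod_modEq _ _)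
        _ ≡ (q + 1) % M + (r + (M - (q + 1) % M)) [MOD M] :=
            Nat.ModEq.add_right _ (Nat.mod_modEq _ _).symm
        _ = r + M := by have := Nat.mod_lt (q + 1) hM; omega
        _ ≡ r [MOD M] := by unfold Nat.ModEq; rw [Nat.add_mod_right]
    have e1 : f r = f (q + 1 + t) := (h.eq_iff.mpr hrt).symm
    have e2 : f (r + 1) = f (q + 1 + (t + 1)) := (h.eq_iff.mpr (by
      have := Nat.ModEq.add_right 1 hrt
      rwa [add_assoc] at this)).symm
    by_cases h1 : t + 1 < M
    · left; left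
      rw [e1, e2]
      exact infix_map_range (fun t => f (q + 1 + t)) h1
    · right
      have h2 : t + 1 = M := by omega
      constructor
      · rw [e1]
        have : q + 1 + t = q + M := by omega
        rw [this, h.per]
      · rw [e2, h2, h.per]

lemma list_of_listing' (h : IsListing G M f) (a b : V)
    (hab : ∃ q, (f q = a ∧ f (q + 1) = b) ∨ (f q = b ∧ f (q + 1) = a)) :
    ∃ F : List V, F.Nodup ∧ F.length = M ∧ (∀ x, x ∈ F) ∧ F.IsChain G.Adj ∧
      F.head? = some a ∧ F.getLast? = some b ∧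
      ∀ r, Nb (f r) (f (r + 1)) F ∨ (f r = a ∧ f (r + 1) = b) ∨ (f r = b ∧ f (r + 1) = a) := by
  obtain ⟨q, h1 | h1⟩ := hab
  · obtain ⟨F, h2, h3, h4, h5, h6, h7, h8⟩ := list_of_listing h q
    refine ⟨F.reverse, List.nodup_reverse.mpr h2, by rw [List.length_reverse, h3],
      fun x => List.mem_reverse.mpr (h4 x), ?_, ?_, ?_, ?_⟩
    · rw [List.isChain_reverse]
      exact h5.imp (fun _ _ h => h.symm)
    · rw [List.head?_reverse, h7, h1.1]
    · rw [List.getLast?_reverse, h6, h1.2]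
    · intro r
      rcases h8 r with h9 | h9
      · exact Or.inl h9.reverse
      · rw [h1.1, h1.2] at h9; exact Or.inr (Or.inl h9)
  · obtain ⟨F, h2, h3, h4, h5, h6, h7, h8⟩ := list_of_listing h q
    refine ⟨F, h2, h3, h4, h5, by rw [h6, h1.2], by rw [h7, h1.1], ?_⟩
    intro r
    rcases h8 r with h9 | h9
    · exact Or.inl h9
    · rw [h1.1, h1.2] at h9; exact Or.inr (Or.inr h9)

lemma IsListing.card (h : IsListing G M f) : Nat.card V = M := by
  let g : Fin M → V := fun i => f i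
  have hg : Function.Bijective g := by
    constructor
    · intro a b hab
      exact Fin.ext (h.inj _ _ a.2 b.2 hab)
    · intro x
      obtain ⟨q, hq, rfl⟩ := h.surj x
      exact ⟨⟨q, hq⟩, rfl⟩
  rw [← Nat.card_congr (Equiv.ofBijective g hg), Nat.card_eq_fintype_card, Fintype.card_fin]

lemma listing_of_perm [Finite V] (σ : Perm V) (hadj : ∀ x, G.Adj x (σ x))
    (hsc : ∀ x y, σ.SameCycle x y) (x0 : V) (hM : Nat.card V = M) :
    IsListing G M (fun t => (σ ^ t) x0) := by
  classical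
  have hpow : ∀ t, (σ ^ t) x0 = σ^[t] x0 := fun t => by rw [Perm.iterate_eq_pow]
  have hper : x0 ∈ Function.periodicPts σ := by
    obtain ⟨n, hn, hn'⟩ : ∃ n, 0 < n ∧ σ ^ n = 1 := isOfFinOrder_iff_pow_eq_one.mp (isOfFinOrder_of_finite σ)
    refine ⟨n, hn, ?_⟩
    change σ^[n] x0 = x0
    rw [← hpow, hn']; rfl
  have hmpos : 0 < Function.minimalPeriod σ x0 := Function.minimalPeriod_pos_of_mem_periodicPts hper
  have hmod : ∀ t, (σ ^ (t % Function.minimalPeriod σ x0)) x0 = (σ ^ t) x0 := by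
    intro t; rw [hpow, hpow, Function.iterate_mod_minimalPeriod_eq]
  have hsurj : ∀ x, ∃ t, t < Function.minimalPeriod σ x0 ∧ (σ ^ t) x0 = x := by
    intro x
    obtain ⟨t, ht⟩ := (hsc x0 x).exists_nat_pow_eq
    exact ⟨t % Function.minimalPeriod σ x0, Nat.mod_lt _ hmpos, by rw [hmod, ht]⟩
  have hinj : ∀ q q', q < Function.minimalPeriod σ x0 → q' < Function.minimalPeriod σ x0 →
      (σ ^ q) x0 = (σ ^ q') x0 → q = q' := by
    intro q q' hq hq' h
    rw [hpow, hpow] at h
    exact Function.iterate_injOn_Iio_minimalPeriod hq hq' h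
  have hL : IsListing G (Function.minimalPeriod σ x0) (fun t => (σ ^ t) x0) := by
    refine ⟨hmpos, ?_, hinj, hsurj, ?_⟩
    · intro q
      change (σ ^ (q + Function.minimalPeriod σ x0)) x0 = (σ ^ q) x0
      rw [← hmod, Nat.add_mod_right, hmod]
    · intro q
      change G.Adj ((σ ^ q) x0) ((σ ^ (q + 1)) x0)
      rw [pow_succ', Perm.mul_apply]
      exact hadj _
  have := hL.card
  rw [hM] at this
  rwa [this]

end listing

/-- Build the final data from listings. -/
theorem HR.ofListings {V : Type} {G : SimpleGraph V} {L M : ℕ} (f : ℕ → ℕ → V) (p : ℕ → V)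
    (hf : ∀ j < L, IsListing G M (f j))
    (hp : ∀ i i', i ≤ L → i' ≤ L → p i = p i' → i = i')
    (hpf : ∀ j < L, ∃ q, (f j q = p j ∧ f j (q + 1) = p (j + 1)) ∨
      (f j q = p (j + 1) ∧ f j (q + 1) = p j))
    (hcov : ∀ x y, G.Adj x y → ∃ j < L, ∃ r, (f j r = x ∧ f j (r + 1) = y) ∨
      (f j r = y ∧ f j (r + 1) = x)) : Nonempty (HR G L M) := by
  classical
  have key : ∀ j, ∃ F : List V, j < L → (F.Nodup ∧ F.length = M ∧ (∀ x, x ∈ F) ∧
      F.IsChain G.Adj ∧ F.head? = some (p j) ∧ F.getLast? = some (p (j + 1)) ∧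
      ∀ r, Nb (f j r) (f j (r + 1)) F ∨ (f j r = p j ∧ f j (r + 1) = p (j + 1)) ∨
        (f j r = p (j + 1) ∧ f j (r + 1) = p j)) := by
    intro j
    by_cases hj : j < L
    · obtain ⟨F, hF⟩ := list_of_listing' (hf j hj) (p j) (p (j + 1)) (hpf j hj)
      exact ⟨F, fun _ => hF⟩
    · exact ⟨[], fun h => absurd h hj⟩
  choose F hF using key
  refine ⟨{
    F := F
    p := p
    p_inj := hp
    p_adj := ?_
    nodup := fun j hj => (hF j hj).1
    len := fun j hj => (hF j hj).2.1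
    mem := fun j hj => (hF j hj).2.2.1
    chain := fun j hj => (hF j hj).2.2.2.1
    head := fun j hj => (hF j hj).2.2.2.2.1
    last := fun j hj => (hF j hj).2.2.2.2.2.1
    cover := ?_ }⟩
  · intro j hj
    obtain ⟨q, ⟨h1, h2⟩ | ⟨h1, h2⟩⟩ := hpf j hj
    · rw [← h1, ← h2]; exact (hf j hj).adj q
    · rw [← h1, ← h2]; exact ((hf j hj).adj q).symm
  · intro x y hxy
    obtain ⟨j, hj, r, ⟨rfl, rfl⟩ | ⟨rfl, rfl⟩⟩ := hcov x y hxy
    · refine ⟨j, hj, ?_⟩
      rcases (hF j hj).2.2.2.2.2.2 r with h | h | h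
      · exact Or.inl h
      · exact Or.inr (Or.inl h)
      · exact Or.inr (Or.inr h)
    · refine ⟨j, hj, ?_⟩
      rcases (hF j hj).2.2.2.2.2.2 r with h | ⟨h1, h2⟩ | ⟨h1, h2⟩
      · exact Or.inl h.symm
      · exact Or.inr (Or.inr ⟨h2, h1⟩)
      · exact Or.inr (Or.inl ⟨h2, h1⟩)

theorem HD.toHR {V : Type} [Finite V] {G : SimpleGraph V} {K M : ℕ} (D : HD G K M) :
    Nonempty (HR G (K + 1) M) := by
  have hcard := D.hc.card
  apply HR.ofListings (fun j => if j = 0 then D.c else fun t => ((D.σ (j - 1)) ^ t) (D.c 0)) D.p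
  · intro j hj
    by_cases h0 : j = 0
    · rw [if_pos h0]; exact D.hc
    · rw [if_neg h0]
      exact listing_of_perm _ (D.σ_adj (j - 1) (by omega)) (D.σ_sc (j - 1) (by omega)) _ hcard
  · exact D.p_inj
  · intro j hj
    by_cases h0 : j = 0
    · subst h0
      rw [if_pos rfl]
      change ∃ q, (D.c q = D.p 0 ∧ D.c (q + 1) = D.p 1) ∨ (D.c q = D.p 1 ∧ D.c (q + 1) = D.p 0)
      rcases D.p_zero with h | ⟨π', h1, h2⟩
      · exact ⟨D.π, Or.inr ⟨D.p_one.symm, h.symm⟩⟩
      · exact ⟨π', Or.inl ⟨h2.symm, by rw [D.p_one, h1]⟩⟩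
    · rw [if_neg h0]
      obtain ⟨i, rfl⟩ : ∃ i, j = i + 1 := ⟨j - 1, by omega⟩
      have hi : i < K := by omega
      simp only [Nat.add_sub_cancel]
      have hL := listing_of_perm _ (D.σ_adj i hi) (D.σ_sc i hi) (D.c 0) hcard
      have hsucc : ∀ t, (D.σ i ^ (t + 1)) (D.c 0) = D.σ i ((D.σ i ^ t) (D.c 0)) := by
        intro t; rw [pow_succ', Perm.mul_apply]
      rcases D.p_adj i hi with h | h
      · obtain ⟨t, _, ht⟩ := hL.surj (D.p (i + 1))
        change (D.σ i ^ t) (D.c 0) = _ at ht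
        exact ⟨t, Or.inl ⟨ht, by rw [hsucc, ht, h]⟩⟩
      · obtain ⟨t, _, ht⟩ := hL.surj (D.p (i + 2))
        change (D.σ i ^ t) (D.c 0) = _ at ht
        exact ⟨t, Or.inr ⟨ht, by rw [hsucc, ht, h]⟩⟩
  · intro x y hxy
    rcases D.cover x y hxy with ⟨q, h⟩ | ⟨i, hi, h⟩
    · refine ⟨0, by omega, q, ?_⟩
      rw [if_pos rfl]
      exact h
    · refine ⟨i + 1, by omega, ?_⟩
      rw [if_neg (by omega)]
      simp only [Nat.add_sub_cancel]
      have hL := listing_of_perm _ (D.σ_adj i hi) (D.σ_sc i hi) (D.c 0) hcard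
      have hsucc : ∀ t, (D.σ i ^ (t + 1)) (D.c 0) = D.σ i ((D.σ i ^ t) (D.c 0)) := by
        intro t; rw [pow_succ', Perm.mul_apply]
      rcases h with h | h
      · obtain ⟨t, _, ht⟩ := hL.surj x
        change (D.σ i ^ t) (D.c 0) = _ at ht
        exact ⟨t, Or.inl ⟨ht, by rw [hsucc, ht, h]⟩⟩
      · obtain ⟨t, _, ht⟩ := hL.surj y
        change (D.σ i ^ t) (D.c 0) = _ at ht
        exact ⟨t, Or.inr ⟨ht, by rw [hsucc, ht, h]⟩⟩

end Pool.Agent.Lib.MP_7b50be_co
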