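import Mathlib
import Pool.Agent.Lib.MP_7b50be_co.HR

set_option autoImplicit false
set_option linter.unusedSimpArgs false

namespace Pool.Agent.Lib.MP_7b50be_co

open SimpleGraph

lemma Nb.mono {V : Type*} {x y : V} {l l' : List V} (h : Nb x y l) (hl : l <:+: l') :
    Nb x y l' := h.imp (fun h => h.trans hl) (fun h => h.trans hl)

lemma Nb.map {V W : Type*} {x y : V} {l : List V} (h : Nb x y l) (f : V → W) :
    Nb (f x) (f y) (l.map f) :=
  h.imp (fun h => by simpa using h.map f) (fun h => by simpa using h.map f)

lemma Nb.append_left {V : Type*} {x y : V} {l : List V} (h : Nb x y l) (l' : List V) :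
    Nb x y (l ++ l') := h.mono ⟨[], l', by simp⟩

lemma Nb.append_right {V : Type*} {x y : V} {l : List V} (h : Nb x y l) (l' : List V) :
    Nb x y (l' ++ l) := h.mono ⟨l', [], by simp⟩

lemma Nb.cons {V : Type*} {x y : V} {l : List V} (h : Nb x y l) (a : V) :
    Nb x y (a :: l) := h.append_right [a]

lemma nb_head {V : Type*} (x y : V) (l : List V) : Nb x y (x :: y :: l) := Or.inl ⟨[], l, by simp⟩

/-- Junction of two lists. -/
lemma nb_junction {V : Type*} {x y : V} {l l' : List V} (h : l.getLast? = some x)
    (h' : l'.head? = some y) : Nb x y (l ++ l') := by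
  obtain ⟨s, rfl⟩ : ∃ s, l = s ++ [x] := by
    rw [List.getLast?_eq_some_iff] at h
    exact h
  obtain ⟨t, rfl⟩ : ∃ t, l' = y :: t := by
    rw [List.head?_eq_some_iff] at h'
    exact h'
  left
  exact ⟨s, t, by simp⟩

section tog

variable {Γ V : Type*}

/-- Traverse the columns of a list at height `z`, switching between the heights `z` and `z'` at
the columns satisfying `T`. -/
def tog (T : V → Bool) : List V → Γ → Γ → List (Γ × V)
  | [], _, _ => []
  | x :: l, z, z' => if T x then (z, x) :: (z', x) :: tog T l z' z else (z, x) :: tog T l z z'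

/-- The final height of the traverse. -/
def togEnd (T : V → Bool) : List V → Γ → Γ → Γ
  | [], z, _ => z
  | x :: l, z, z' => if T x then togEnd T l z' z else togEnd T l z z'

variable (T : V → Bool)

lemma tog_length (l : List V) (z z' : Γ) : (tog T l z z').length = l.length + l.countP T := by
  induction l generalizing z z' with
  | nil => rfl
  | cons x l ih =>
    unfold tog
    split_ifs with h
    · rw [List.length_cons, List.length_cons, ih, List.length_cons, List.countP_cons_of_pos h]
      ring
    · rw [List.length_cons, ih, List.length_cons, List.countP_cons_of_neg h]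
      ring

lemma mem_tog {l : List V} {z z' : Γ} {w : Γ × V} (h : w ∈ tog T l z z') :
    w.2 ∈ l ∧ (w.1 = z ∨ (w.1 = z' ∧ ∃ x ∈ l, T x = true)) := by
  induction l generalizing z z' with
  | nil => simp [tog] at h
  | cons x l ih =>
    unfold tog at h
    split_ifs at h with hT
    · rw [List.mem_cons, List.mem_cons] at h
      rcases h with rfl | rfl | h
      · exact ⟨List.mem_cons_self, Or.inl rfl⟩
      · exact ⟨List.mem_cons_self, Or.inr ⟨rfl, x, List.mem_cons_self, hT⟩⟩
      · obtain ⟨h1, h2⟩ := ih h
        refine ⟨List.mem_cons_of_mem _ h1, ?_⟩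
        rcases h2 with h2 | ⟨h2, _⟩
        · exact Or.inr ⟨h2, x, List.mem_cons_self, hT⟩
        · exact Or.inl h2
    · rw [List.mem_cons] at h
      rcases h with rfl | h
      · exact ⟨List.mem_cons_self, Or.inl rfl⟩
      · obtain ⟨h1, h2⟩ := ih h
        refine ⟨List.mem_cons_of_mem _ h1, ?_⟩
        rcases h2 with h2 | ⟨h2, x', hx', hT'⟩
        · exact Or.inl h2
        · exact Or.inr ⟨h2, x', List.mem_cons_of_mem _ hx', hT'⟩

lemma tog_nodup {l : List V} (hl : l.Nodup) {z z' : Γ} (hz : (∃ x ∈ l, T x = true) → z ≠ z') :
    (tog T l z z').Nodup := by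
  induction l generalizing z z' with
  | nil => simp [tog]
  | cons x l ih =>
    rw [List.nodup_cons] at hl
    unfold tog
    split_ifs with hT
    · have hne : z ≠ z' := hz ⟨x, List.mem_cons_self, hT⟩
      rw [List.nodup_cons, List.nodup_cons]
      refine ⟨?_, ?_, ih hl.2 (fun _ => hne.symm)⟩
      · intro h
        rw [List.mem_cons] at h
        rcases h with h | h
        · rw [Prod.mk.injEq] at h; exact hne h.1
        · exact hl.1 (mem_tog T h).1
      · intro h; exact hl.1 (mem_tog T h).1
    · rw [List.nodup_cons]
      refine ⟨fun h => hl.1 (mem_tog T h).1, ih hl.2 ?_⟩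
      rintro ⟨x', hx', hT'⟩
      exact hz ⟨x', List.mem_cons_of_mem _ hx', hT'⟩

lemma tog_head {l : List V} {x : V} (z z' : Γ) (h : l.head? = some x) :
    (tog T l z z').head? = some (z, x) := by
  cases l with
  | nil => simp at h
  | cons a l =>
    rw [List.head?_cons, Option.some.injEq] at h
    subst h
    unfold tog
    split_ifs <;> rfl

lemma tog_eq_nil {l : List V} {z z' : Γ} : tog T l z z' = [] ↔ l = [] := by
  cases l with
  | nil => simp [tog]
  | cons a l => unfold tog; split_ifs <;> simp

lemma tog_last {l : List V} {x : V} (z z' : Γ) (h : l.getLast? = some x) :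
    (tog T l z z').getLast? = some (togEnd T l z z', x) := by
  induction l generalizing z z' with
  | nil => simp at h
  | cons a l ih =>
    cases l with
    | nil =>
      simp only [List.getLast?_singleton, Option.some.injEq] at h
      subst h
      simp only [tog, togEnd]
      split_ifs <;> rfl
    | cons b l =>
      rw [List.getLast?_cons_cons] at h
      unfold tog togEnd
      split_ifs with hT
      · have h1 := ih z' z h
        rw [List.getLast?_cons_of_ne_nil (by simp), List.getLast?_cons_of_ne_nil (by
          rw [Ne, tog_eq_nil]; simp), h1]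
      · have h1 := ih z z' h
        rw [List.getLast?_cons_of_ne_nil (by rw [Ne, tog_eq_nil]; simp), h1]

lemma tog_chain {H : SimpleGraph Γ} {G : SimpleGraph V} {l : List V} (hl : l.IsChain G.Adj)
    {z z' : Γ} (hz : (∃ x ∈ l, T x = true) → H.Adj z z') :
    (tog T l z z').IsChain (H □ G).Adj := by
  induction l generalizing z z' with
  | nil => simp [tog]
  | cons x l ih =>
    have hl' : l.IsChain G.Adj := hl.tail
    have hhead : ∀ (y y' : Γ) (w : Γ × V), w ∈ (tog T l y y').head? → (H □ G).Adj (y, x) w := by
      intro y y' w hw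
      cases l with
      | nil => simp [tog] at hw
      | cons a l =>
        rw [tog_head T (x := a) y y' rfl, Option.mem_def, Option.some.injEq] at hw
        subst hw
        rw [boxProd_adj]
        right
        refine ⟨?_, rfl⟩
        rw [List.isChain_cons_cons] at hl
        exact hl.1
    unfold tog
    split_ifs with hT
    · have hadj : H.Adj z z' := hz ⟨x, List.mem_cons_self, hT⟩
      rw [List.isChain_cons, List.isChain_cons]
      refine ⟨?_, ?_, ih hl' (fun _ => hadj.symm)⟩
      · intro w hw
        rw [List.head?_cons, Option.mem_def, Option.some.injEq] at hw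
        subst hw
        rw [boxProd_adj]
        exact Or.inl ⟨hadj, rfl⟩
      · exact hhead z' z
    · rw [List.isChain_cons]
      refine ⟨hhead z z', ih hl' ?_⟩
      rintro ⟨x', hx', hT'⟩
      exact hz ⟨x', List.mem_cons_of_mem _ hx', hT'⟩

lemma tog_edge {l : List V} {x x' : V} (z z' : Γ) (h : [x, x'] <:+: l) :
    ∃ y, (y = z ∨ y = z') ∧ [(y, x), (y, x')] <:+: tog T l z z' := by
  induction l generalizing z z' with
  | nil => simp at h
  | cons a l ih =>
    rw [List.infix_cons_iff] at h
    rcases h with h | h
    · obtain ⟨t, ht⟩ := h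
      simp only [List.cons_append, List.nil_append, List.cons.injEq] at ht
      obtain ⟨rfl, rfl⟩ := ht
      unfold tog
      have hhd : ∀ y y' : Γ, ∃ s, tog T (x' :: t) y y' = (y, x') :: s := by
        intro y y'
        have := tog_head T (l := x' :: t) (x := x') y y' rfl
        rw [List.head?_eq_some_iff] at this
        exact this
      split_ifs with hT
      · obtain ⟨s, hs⟩ := hhd z' z
        refine ⟨z', Or.inr rfl, ?_⟩
        rw [hs]
        exact ⟨[(z, x)], s, by simp⟩
      · obtain ⟨s, hs⟩ := hhd z z'
        refine ⟨z, Or.inl rfl, ?_⟩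
        rw [hs]
        exact ⟨[], s, by simp⟩
    · unfold tog
      split_ifs with hT
      · obtain ⟨y, hy, h1⟩ := ih z' z h
        exact ⟨y, hy.symm, h1.trans ⟨[(z, a), (z', a)], [], by simp⟩⟩
      · obtain ⟨y, hy, h1⟩ := ih z z' h
        exact ⟨y, hy, h1.trans ⟨[(z, a)], [], by simp⟩⟩

lemma tog_nb {l : List V} {x x' : V} (z z' : Γ) (h : Nb x x' l) :
    ∃ y, Nb (y, x) (y, x') (tog T l z z') := by
  rcases h with h | h
  · obtain ⟨y, _, h1⟩ := tog_edge T z z' h
    exact ⟨y, Or.inl h1⟩
  · obtain ⟨y, _, h1⟩ := tog_edge T z z' h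
    exact ⟨y, Or.inr h1⟩

lemma tog_loop {l : List V} {x : V} (z z' : Γ) (hx : x ∈ l) (hT : T x = true) :
    Nb (z, x) (z', x) (tog T l z z') := by
  induction l generalizing z z' with
  | nil => simp at hx
  | cons a l ih =>
    rw [List.mem_cons] at hx
    unfold tog
    rcases hx with rfl | hx
    · rw [if_pos hT]
      exact nb_head _ _ _
    · split_ifs with hT'
      · exact ((ih z' z hx).symm.cons _).cons _
      · exact (ih z z' hx).cons _

lemma togEnd_eq (l : List V) (z z' : Γ) :
    togEnd T l z z' = if Even (l.countP T) then z else z' := by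
  induction l generalizing z z' with
  | nil => simp [togEnd]
  | cons x l ih =>
    unfold togEnd
    by_cases hT : T x = true
    · rw [if_pos hT, ih, List.countP_cons_of_pos hT]
      by_cases hE : Even (l.countP T)
      · rw [if_pos hE, if_neg (by rw [Nat.even_add_one]; exact fun h => h hE)]
      · rw [if_neg hE, if_pos (by rw [Nat.even_add_one]; exact hE)]
    · rw [if_neg hT, ih, List.countP_cons_of_neg hT]

/-- The columns satisfying `T` occur in consecutive pairs, starting at even positions. -/
def PairT : List V → Prop
  | [] => True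
  | [x] => T x = false
  | x :: x' :: l => T x = T x' ∧ PairT l

lemma pair_togEnd (z z' : Γ) : ∀ l : List V, PairT T l → togEnd T l z z' = z
  | [], _ => rfl
  | [x], h => by
    simp only [PairT] at h
    simp [togEnd, h]
  | x :: x' :: l, h => by
    simp only [PairT] at h
    obtain ⟨h1, h2⟩ := h
    have := pair_togEnd z z' l h2
    simp only [togEnd, h1]
    split_ifs <;> exact this

lemma pair_mem {z z' : Γ} (hz : z ≠ z') {x : V} : ∀ l : List V, PairT T l →
    (z', x) ∈ tog T l z z' → T x = true
  | [], _, h => by simp [tog] at h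
  | [y], hp, h => by
    simp only [PairT] at hp
    simp [tog, hp] at h
    exact absurd h.1.symm hz
  | y :: y' :: l, hp, h => by
    simp only [PairT] at hp
    obtain ⟨h1, h2⟩ := hp
    have ih := pair_mem hz (x := x) l h2
    by_cases hT : T y' = true
    · simp only [tog, h1, hT, if_true] at h
      simp only [List.mem_cons, Prod.mk.injEq] at h
      rcases h with ⟨h3, _⟩ | ⟨_, rfl⟩ | ⟨_, rfl⟩ | ⟨h3, _⟩ | h
      · exact absurd h3.symm hz
      · rw [h1, hT]
      · exact hT
      · exact absurd h3.symm hz
      · exact ih h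
    · simp only [tog, h1, hT] at h
      simp only [List.mem_cons, Prod.mk.injEq, if_false, Bool.false_eq_true] at h
      rcases h with ⟨h3, _⟩ | ⟨h3, _⟩ | h
      · exact absurd h3.symm hz
      · exact absurd h3.symm hz
      · exact ih h

lemma pair_false : ∀ l : List V, PairT (fun _ => false) l
  | [] => trivial
  | [_] => rfl
  | _ :: _ :: l => ⟨rfl, pair_false l⟩

end tog

end Pool.Agent.Lib.MP_7b50be_co
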