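import Mathlib
import Pool.Agent.Lib.MP_7b50be_co.Tog

set_option autoImplicit false
set_option linter.unusedSimpArgs false

namespace Pool.Agent.Lib.MP_7b50be_co

open SimpleGraph

lemma PairT.congr {V : Type*} {T T' : V → Bool} : ∀ (l : List V), PairT T l →
    (∀ x ∈ l, T x = T' x) → PairT T' l
  | [], _, _ => trivial
  | [x], h, h' => by
    simp only [PairT] at h ⊢
    rw [← h' x (by simp), h]
  | x :: x' :: l, h, h' => by
    simp only [PairT] at h ⊢
    obtain ⟨h1, h2⟩ := h
    refine ⟨?_, PairT.congr l h2 (fun y hy => h' y (by simp [hy]))⟩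
    rw [← h' x (by simp), ← h' x' (by simp), h1]

/-- Choosing consecutive pairs that avoid a given set. -/
theorem exists_pairs {V : Type*} [DecidableEq V] (F : Finset V) : ∀ (l : List V), l.Nodup →
    ∀ t : ℕ, 2 * (t + (F.filter (· ∈ l)).card) ≤ l.length →
    ∃ B : Finset V, B.card = 2 * t ∧ (∀ x ∈ B, x ∈ l ∧ x ∉ F) ∧
      PairT (fun x => decide (x ∈ B)) l
  | [], _, t, ht => by
    refine ⟨∅, ?_, by simp, trivial⟩
    simp only [List.length_nil] at ht
    simp; omega
  | [x], _, t, ht => by
    refine ⟨∅, ?_, by simp, by simp [PairT]⟩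
    simp only [List.length_singleton] at ht
    simp; omega
  | x :: x' :: l, hnd, t, ht => by
    rw [List.nodup_cons, List.nodup_cons] at hnd
    obtain ⟨hx, hx', hnd⟩ := hnd
    have hxx : x ≠ x' := fun h0 => hx (by simp [h0])
    have hxl : x ∉ l := fun h0 => hx (by simp [h0])
    have hlen : (x :: x' :: l).length = l.length + 2 := rfl
    rw [hlen] at ht
    have hmono : F.filter (· ∈ l) ⊆ F.filter (· ∈ x :: x' :: l) := by
      intro y hy
      rw [Finset.mem_filter] at hy ⊢
      exact ⟨hy.1, by simp [hy.2]⟩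
    have hle := Finset.card_le_card hmono
    by_cases hF : x ∈ F ∨ x' ∈ F
    · have hlt : (F.filter (· ∈ l)).card < (F.filter (· ∈ x :: x' :: l)).card := by
        apply Finset.card_lt_card
        rw [Finset.ssubset_iff_of_subset hmono]
        rcases hF with hF | hF
        · exact ⟨x, by simp [hF], by simp [hxl]⟩
        · exact ⟨x', by simp [hF], by simp [hx']⟩
      obtain ⟨B, h1, h2, h3⟩ := exists_pairs F l hnd t (by omega)
      refine ⟨B, h1, fun y hy => ⟨by simp [(h2 y hy).1], (h2 y hy).2⟩, ?_, h3⟩
      have h4 : x ∉ B := fun h0 => hxl (h2 x h0).1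
      have h5 : x' ∉ B := fun h0 => hx' (h2 x' h0).1
      simp [h4, h5]
    · push Not at hF
      cases t with
      | zero =>
        exact ⟨∅, by simp, by simp, PairT.congr _ (pair_false _) (fun y _ => by simp)⟩
      | succ t =>
        obtain ⟨B, h1, h2, h3⟩ := exists_pairs F l hnd t (by omega)
        have h4 : x ∉ B := fun h0 => hxl (h2 x h0).1
        have h5 : x' ∉ B := fun h0 => hx' (h2 x' h0).1
        refine ⟨insert x (insert x' B), ?_, ?_, ?_, ?_⟩
        · rw [Finset.card_insert_of_notMem (by simp [hxx, h4]),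
            Finset.card_insert_of_notMem h5, h1]
          ring
        · intro y hy
          rw [Finset.mem_insert, Finset.mem_insert] at hy
          rcases hy with rfl | rfl | hy
          · exact ⟨by simp, hF.1⟩
          · exact ⟨by simp, hF.2⟩
          · exact ⟨by simp [(h2 y hy).1], (h2 y hy).2⟩
        · simp
        · apply PairT.congr l h3
          intro y hy
          have h6 : y ≠ x := fun h0 => hxl (h0 ▸ hy)
          have h7 : y ≠ x' := fun h0 => hx' (h0 ▸ hy)
          simp [h6, h7]

lemma HR.exists_notMem {V : Type} [DecidableEq V] {G : SimpleGraph V} {L M : ℕ} (R : HR G L M)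
    (hL : 0 < L) (X : Finset V) (hX : X.card < M) : ∃ x, x ∉ X := by
  by_contra hc
  push Not at hc
  have h1 : (R.F 0).toFinset ⊆ X := fun x _ => hc x
  have h2 := Finset.card_le_card h1
  rw [List.toFinset_card_of_nodup (R.nodup 0 hL), R.len 0 hL] at h2
  omega

end Pool.Agent.Lib.MP_7b50be_co
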