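import Mathlib
import Pool.Agent.Lib.MP_7b50be_co.Tog

set_option autoImplicit false
set_option linter.unusedSimpArgs false

namespace Pool.Agent.Lib.MP_7b50be_co

open SimpleGraph

section cat

variable {W : Type*}

/-- `l 0 ++ l 1 ++ ⋯ ++ l (n - 1)`. -/
def cat (l : ℕ → List W) : ℕ → List W
  | 0 => []
  | n + 1 => cat l n ++ l n

lemma mem_cat {l : ℕ → List W} {n : ℕ} {w : W} : w ∈ cat l n ↔ ∃ j < n, w ∈ l j := by
  induction n with
  | zero => simp [cat]
  | succ n ih =>
    unfold cat
    rw [List.mem_append, ih]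
    constructor
    · rintro (⟨j, hj, h⟩ | h)
      · exact ⟨j, by omega, h⟩
      · exact ⟨n, by omega, h⟩
    · rintro ⟨j, hj, h⟩
      rcases Nat.lt_succ_iff_lt_or_eq.mp hj with h1 | rfl
      · exact Or.inl ⟨j, h1, h⟩
      · exact Or.inr h

lemma infix_cat (l : ℕ → List W) {n j : ℕ} (hj : j < n) : l j <:+: cat l n := by
  induction n with
  | zero => omega
  | succ n ih =>
    unfold cat
    rcases Nat.lt_succ_iff_lt_or_eq.mp hj with h1 | rfl
    · exact (ih h1).trans ⟨[], l n, by simp⟩
    · exact ⟨cat l j, [], by simp⟩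

lemma cat_nodup {l : ℕ → List W} {n : ℕ} (h : ∀ j < n, (l j).Nodup)
    (hd : ∀ j < n, ∀ j' < n, j ≠ j' → ∀ w ∈ l j, w ∉ l j') : (cat l n).Nodup := by
  induction n with
  | zero => simp [cat]
  | succ n ih =>
    unfold cat
    rw [List.nodup_append]
    refine ⟨ih (fun j hj => h j (by omega)) (fun j hj j' hj' => hd j (by omega) j' (by omega)),
      h n (by omega), ?_⟩
    intro a ha b hb hab
    subst hab
    obtain ⟨j, hj, hj'⟩ := mem_cat.mp ha
    exact hd j (by omega) n (by omega) (by omega) a hj' hb

lemma cat_last {l : ℕ → List W} {n : ℕ} (h : l n ≠ []) :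
    (cat l (n + 1)).getLast? = (l n).getLast? := by
  unfold cat
  rw [List.getLast?_append_of_ne_nil _ h]

lemma cat_head {l : ℕ → List W} {n : ℕ} (h : l 0 ≠ []) :
    (cat l (n + 1)).head? = (l 0).head? := by
  induction n with
  | zero => simp [cat]
  | succ n ih =>
    unfold cat
    rw [List.head?_append_of_ne_nil _ ?_, ih]
    unfold cat
    cases n with
    | zero => simpa [cat] using h
    | succ n =>
      intro h'
      rw [List.append_eq_nil_iff] at h'
      have h2 : l 0 <:+: cat l (n + 1) := infix_cat l (by omega)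
      rw [h'.1, List.infix_nil] at h2
      exact h h2

lemma cat_chain {R : W → W → Prop} {l : ℕ → List W} {n : ℕ} (h : ∀ j < n, (l j).IsChain R)
    (hne : ∀ j < n, l j ≠ [])
    (hj : ∀ j, j + 1 < n → ∀ a b, (l j).getLast? = some a → (l (j + 1)).head? = some b → R a b) :
    (cat l n).IsChain R := by
  induction n with
  | zero => simp [cat]
  | succ n ih =>
    unfold cat
    rw [List.isChain_append]
    refine ⟨ih (fun j hj => h j (by omega)) (fun j hj => hne j (by omega))
      (fun j hj' => hj j (by omega)), h n (by omega), ?_⟩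
    intro a ha b hb
    cases n with
    | zero => simp [cat] at ha
    | succ n =>
      rw [cat_last (hne n (by omega))] at ha
      exact hj n (by omega) a b ha hb

lemma cat_length (l : ℕ → List W) (n : ℕ) :
    (cat l n).length = ∑ j ∈ Finset.range n, (l j).length := by
  induction n with
  | zero => simp [cat]
  | succ n ih => unfold cat; rw [List.length_append, ih, Finset.sum_range_succ]

lemma cat_junction {l : ℕ → List W} {n j : ℕ} (hj : j + 1 < n) {a b : W}
    (ha : (l j).getLast? = some a) (hb : (l (j + 1)).head? = some b) : Nb a b (cat l n) := by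
  have h1 : cat l (j + 2) <:+: cat l n := by
    clear ha hb
    induction n with
    | zero => omega
    | succ n ih =>
      by_cases h : n = j + 1
      · subst h; exact List.infix_refl _
      · exact (ih (by omega)).trans ⟨[], l n, by simp [cat]⟩
  refine Nb.mono ?_ h1
  change Nb a b (cat l (j + 1) ++ l (j + 1))
  apply nb_junction _ hb
  rw [cat_last, ha]
  intro h
  rw [h] at ha
  simp at ha

end cat

section mpt

variable {Γ V : Type}

/-- The vertices `(z, p e), (z, p (e-1)), …, (z, p o)`. -/
def mpt (z : Γ) (p : ℕ → V) (o e : ℕ) : List (Γ × V) :=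
  (List.range (e - o + 1)).map (fun i => (z, p (e - i)))

variable {z : Γ} {p : ℕ → V} {o e : ℕ}

lemma mpt_length : (mpt z p o e).length = e - o + 1 := by simp [mpt]

lemma mem_mpt (hoe : o ≤ e) {w : Γ × V} :
    w ∈ mpt z p o e ↔ w.1 = z ∧ ∃ i, o ≤ i ∧ i ≤ e ∧ w.2 = p i := by
  unfold mpt
  rw [List.mem_map]
  constructor
  · rintro ⟨i, hi, rfl⟩
    rw [List.mem_range] at hi
    exact ⟨rfl, e - i, by omega, by omega, rfl⟩
  · rintro ⟨h1, i, h2, h3, h4⟩
    refine ⟨e - i, List.mem_range.mpr (by omega), ?_⟩
    have : e - (e - i) = i := by omega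
    rw [this, ← h4, ← h1]

lemma mpt_nodup (hoe : o ≤ e) (hp : ∀ i i', i ≤ e → i' ≤ e → p i = p i' → i = i') :
    (mpt z p o e).Nodup := by
  unfold mpt
  rw [List.nodup_map_iff_inj_on List.nodup_range]
  intro a ha b hb hab
  rw [List.mem_range] at ha hb
  rw [Prod.mk.injEq] at hab
  have := hp _ _ (by omega) (by omega) hab.2
  omega

lemma mpt_head : (mpt z p o e).head? = some (z, p e) := by
  unfold mpt
  rw [List.range_succ_eq_map]
  simp

lemma mpt_last (hoe : o ≤ e) : (mpt z p o e).getLast? = some (z, p o) := by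
  unfold mpt
  rw [List.range_succ]
  simp only [List.map_append, List.map_cons, List.map_nil, List.getLast?_concat, Option.some.injEq]
  congr 2
  omega

lemma mpt_chain {H : SimpleGraph Γ} {G : SimpleGraph V} (hoe : o ≤ e)
    (hp : ∀ j < e, G.Adj (p j) (p (j + 1))) :
    (mpt z p o e).IsChain (H □ G).Adj := by
  unfold mpt
  rw [List.isChain_iff_getElem]
  intro i hi
  rw [List.length_map, List.length_range] at hi
  simp only [List.getElem_map, List.getElem_range]
  rw [boxProd_adj]
  right
  refine ⟨?_, rfl⟩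
  have h1 : e - i = (e - (i + 1)) + 1 := by omega
  simp only
  rw [h1]
  exact (hp _ (by omega)).symm

lemma mpt_nb {j : ℕ} (h1 : o ≤ j) (h2 : j < e) :
    Nb (z, p j) (z, p (j + 1)) (mpt z p o e) := by
  right
  unfold mpt
  have := infix_map_range (fun i => (z, p (e - i))) (n := e - o + 1) (t := e - (j + 1)) (by omega)
  have e1 : e - (e - (j + 1)) = j + 1 := by omega
  have e2 : e - (e - (j + 1) + 1) = j := by omega
  simp only [e1, e2] at this
  exact this

end mpt

end Pool.Agent.Lib.MP_7b50be_co
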