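import Mathlib

set_option autoImplicit false
set_option linter.unusedSimpArgs false

namespace Pool.Agent.Lib.MP_7b50be_co

section seg

variable (Mu : ℕ → Prop) [DecidablePred Mu]

/-- Start indices of the segments of the height path: a segment is a single index, or a pair
`m, m + 1` with `Mu m`. -/
def ms : ℕ → ℕ
  | 0 => 1
  | j + 1 => if Mu (ms j) then ms j + 2 else ms j + 1

variable {Mu}

lemma ms_zero : ms Mu 0 = 1 := rfl

lemma ms_succ (j : ℕ) : ms Mu (j + 1) = if Mu (ms Mu j) then ms Mu j + 2 else ms Mu j + 1 := rfl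

lemma ms_pos (j : ℕ) : 1 ≤ ms Mu j := by
  cases j with
  | zero => exact le_refl 1
  | succ j => rw [ms_succ]; split_ifs <;> omega

lemma ms_lt_succ (j : ℕ) : ms Mu j < ms Mu (j + 1) := by
  rw [ms_succ]; split_ifs <;> omega

lemma ms_strictMono : StrictMono (ms Mu) := strictMono_nat_of_lt_succ ms_lt_succ

/-- The toggles are isolated and do not start at index `0`. -/
structure MuOK (Mu : ℕ → Prop) : Prop where
  zero : ¬ Mu 0
  iso : ∀ m, Mu m → ¬ Mu (m + 1)

lemma ms_pred (H : MuOK Mu) (j : ℕ) : ¬ Mu (ms Mu j - 1) := by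
  cases j with
  | zero => exact H.zero
  | succ j =>
    rw [ms_succ]
    split_ifs with h
    · exact H.iso _ h
    · simpa using h

lemma ms_surj (H : MuOK Mu) : ∀ v, 1 ≤ v → ¬ Mu (v - 1) → ∃ j, ms Mu j = v := by
  intro v
  induction v using Nat.strong_induction_on with
  | _ v ih =>
    intro hv hmu
    rcases Nat.eq_or_lt_of_le hv with h1 | h1
    · exact ⟨0, by rw [ms_zero]; exact h1⟩
    · -- v ≥ 2
      by_cases h2 : Mu (v - 2)
      · -- v - 2 is a start of a pair
        have h3 : 1 ≤ v - 2 := by
          by_contra h4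
          have h5 : v - 2 = 0 := by omega
          rw [h5] at h2
          exact H.zero h2
        obtain ⟨j, hj⟩ := ih (v - 2) (by omega) h3 (by
          intro h4
          have h5 := H.iso _ h4
          have h6 : v - 2 - 1 + 1 = v - 2 := by omega
          rw [h6] at h5
          exact h5 h2)
        refine ⟨j + 1, ?_⟩
        rw [ms_succ, hj, if_pos h2]
        omega
      · obtain ⟨j, hj⟩ := ih (v - 1) (by omega) (by omega) (by
          have h6 : v - 1 - 1 = v - 2 := by omega
          rw [h6]; exact h2)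
        refine ⟨j + 1, ?_⟩
        rw [ms_succ, hj, if_neg hmu]
        omega

/-- Summation over the segments. -/
lemma ms_sum {A : Type*} [AddCommMonoid A] (H : MuOK Mu) (φ ψ : ℕ → A) (j : ℕ) :
    ∑ i ∈ Finset.range j, (φ (ms Mu i - 1) + if Mu (ms Mu i) then ψ (ms Mu i) else 0) =
      ∑ m ∈ Finset.range (ms Mu j - 1), if Mu m then ψ m else φ m := by
  induction j with
  | zero => simp [ms_zero]
  | succ j ih =>
    rw [Finset.sum_range_succ, ih]
    have h1 := ms_pos (Mu := Mu) j
    have h2 := ms_pred H j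
    rw [ms_succ]
    by_cases h : Mu (ms Mu j)
    · rw [if_pos h, if_pos h]
      have h3 : ms Mu j + 2 - 1 = (ms Mu j - 1) + 1 + 1 := by omega
      rw [h3, Finset.sum_range_succ, Finset.sum_range_succ, if_neg h2]
      have h4 : ms Mu j - 1 + 1 = ms Mu j := by omega
      rw [h4, if_pos h, add_assoc]
    · rw [if_neg h, if_neg h]
      have h3 : ms Mu j + 1 - 1 = (ms Mu j - 1) + 1 := by omega
      rw [h3, Finset.sum_range_succ, if_neg h2, add_zero]

end seg

end Pool.Agent.Lib.MP_7b50be_co
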