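import Mathlib
import Pool.Agent.Lib.MP_7b50be_co.Cat
import Pool.Agent.Lib.MP_7b50be_co.Seg

set_option autoImplicit false
set_option linter.unusedSimpArgs false

namespace Pool.Agent.Lib.MP_7b50be_co

open SimpleGraph

section spc

variable {Γ V : Type} {H : SimpleGraph Γ} {G : SimpleGraph V} {L M : ℕ} (R : HR G L M)

lemma HR.ne_nil {j : ℕ} (hj : j < L) : R.F j ≠ [] := by
  intro h
  have := R.head j hj
  rw [h] at this
  simp at this

/-- The `j`-th block. -/
def blk (o : ℕ) (a b : ℕ → Γ) (T : ℕ → V → Bool) (j : ℕ) : List (Γ × V) :=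
  tog (T j) (R.F (o + j)) (a j) (b j)

/-- The exit height of the `j`-th block. -/
def xit (o : ℕ) (a b : ℕ → Γ) (T : ℕ → V → Bool) (j : ℕ) : Γ :=
  togEnd (T j) (R.F (o + j)) (a j) (b j)

/-- The special trail: first the path `p e, …, p o` at height `z0`, then the blocks. -/
def spc (o e J : ℕ) (z0 : Γ) (a b : ℕ → Γ) (T : ℕ → V → Bool) : List (Γ × V) :=
  mpt z0 R.p o e ++ cat (blk R o a b T) J

/-- The conditions making the special trail a path. -/
structure SpcOK (H : SimpleGraph Γ) (R : HR G L M) (o e J : ℕ) (z0 : Γ) (a b : ℕ → Γ)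
    (T : ℕ → V → Bool) : Prop where
  hJ : 1 ≤ J
  hoe : o + J ≤ e
  heL : e ≤ L
  h0 : H.Adj z0 (a 0)
  hstep : ∀ j, j + 1 < J → H.Adj (xit R o a b T j) (a (j + 1))
  htog : ∀ j < J, (∃ x ∈ R.F (o + j), T j x = true) → H.Adj (a j) (b j)
  hd1 : ∀ j < J, ∀ i, o ≤ i → i ≤ e → (z0, R.p i) ∉ blk R o a b T j
  hd2 : ∀ j < J, ∀ j' < J, j ≠ j' → ∀ w ∈ blk R o a b T j, w ∉ blk R o a b T j'

variable {R} {o e J : ℕ} {z0 : Γ} {a b : ℕ → Γ} {T : ℕ → V → Bool}

lemma blk_head {j : ℕ} (hj : o + j < L) : (blk R o a b T j).head? = some (a j, R.p (o + j)) :=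
  tog_head _ _ _ (R.head _ hj)

lemma blk_last {j : ℕ} (hj : o + j < L) :
    (blk R o a b T j).getLast? = some (xit R o a b T j, R.p (o + j + 1)) :=
  tog_last _ _ _ (R.last _ hj)

lemma blk_ne {j : ℕ} (hj : o + j < L) : blk R o a b T j ≠ [] := by
  unfold blk
  rw [Ne, tog_eq_nil]
  exact R.ne_nil hj

lemma spc_nodup (S : SpcOK H R o e J z0 a b T) : (spc R o e J z0 a b T).Nodup := by
  have h1 := S.hoe
  have h2 := S.heL
  unfold spc
  rw [List.nodup_append]
  refine ⟨mpt_nodup (by omega) (fun i i' hi hi' => R.p_inj i i' (by omega) (by omega)), ?_, ?_⟩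
  · apply cat_nodup
    · intro j hj
      apply tog_nodup _ (R.nodup _ (by omega))
      intro h
      exact (S.htog j hj h).ne
    · exact S.hd2
  · intro w hw w' hw' heq
    subst heq
    rw [mem_mpt (by omega)] at hw
    obtain ⟨h3, i, h4, h5, h6⟩ := hw
    obtain ⟨j, hj, hj'⟩ := mem_cat.mp hw'
    apply S.hd1 j hj i h4 h5
    rw [← h6, ← h3]
    exact hj'

lemma spc_chain (S : SpcOK H R o e J z0 a b T) : (spc R o e J z0 a b T).IsChain (H □ G).Adj := by
  have h1 := S.hoe
  have h2 := S.heL
  have h3 := S.hJ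
  unfold spc
  rw [List.isChain_append]
  refine ⟨mpt_chain (by omega) (fun j hj => R.p_adj j (by omega)), ?_, ?_⟩
  · apply cat_chain
    · intro j hj
      exact tog_chain _ (R.chain _ (by omega)) (S.htog j hj)
    · intro j hj; exact blk_ne (by omega)
    · intro j hj w w' hw hw'
      rw [blk_last (by omega), Option.some.injEq] at hw
      rw [blk_head (by omega), Option.some.injEq] at hw'
      subst hw hw'
      rw [boxProd_adj]
      exact Or.inl ⟨S.hstep j hj, rfl⟩
  · intro w hw w' hw'
    rw [mpt_last (by omega), Option.mem_def, Option.some.injEq] at hw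
    obtain ⟨n, rfl⟩ : ∃ n, J = n + 1 := ⟨J - 1, by omega⟩
    rw [cat_head (blk_ne (by omega)), blk_head (by omega), Option.mem_def,
      Option.some.injEq] at hw'
    subst hw hw'
    rw [boxProd_adj]
    exact Or.inl ⟨S.h0, rfl⟩

lemma spc_head : (spc R o e J z0 a b T).head? = some (z0, R.p e) := by
  unfold spc
  rw [List.head?_append_of_ne_nil]
  · exact mpt_head
  · intro h
    have := mpt_head (z := z0) (p := R.p) (o := o) (e := e)
    rw [h] at this
    simp at this

lemma spc_last (S : SpcOK H R o e J z0 a b T) :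
    (spc R o e J z0 a b T).getLast? = some (xit R o a b T (J - 1), R.p (o + J)) := by
  have h1 := S.hoe
  have h2 := S.heL
  have h3 := S.hJ
  obtain ⟨n, rfl⟩ : ∃ n, J = n + 1 := ⟨J - 1, by omega⟩
  have h4 := blk_last (R := R) (o := o) (a := a) (b := b) (T := T) (j := n) (by omega)
  have h5 : cat (blk R o a b T) (n + 1) ≠ [] := by
    intro h
    have := cat_last (l := blk R o a b T) (n := n) (blk_ne (by omega))
    rw [h, h4] at this
    simp at this
  unfold spc
  rw [List.getLast?_append_of_ne_nil _ h5, cat_last (blk_ne (by omega)), h4]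
  rfl

lemma spc_length (S : SpcOK H R o e J z0 a b T) : (spc R o e J z0 a b T).length =
    (e - o + 1) + J * M + ∑ j ∈ Finset.range J, (R.F (o + j)).countP (T j) := by
  have h1 := S.hoe
  have h2 := S.heL
  have : ∀ j ∈ Finset.range J, (blk R o a b T j).length = M + (R.F (o + j)).countP (T j) := by
    intro j hj
    rw [Finset.mem_range] at hj
    unfold blk
    rw [tog_length, R.len _ (by omega)]
  unfold spc
  rw [List.length_append, mpt_length, cat_length, Finset.sum_congr rfl this,
    Finset.sum_add_distrib, Finset.sum_const, Finset.card_range, smul_eq_mul]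
  ring

lemma blk_infix_spc {j : ℕ} (hj : j < J) : blk R o a b T j <:+: spc R o e J z0 a b T :=
  (infix_cat _ hj).trans ⟨_, [], by simp [spc]; rfl⟩

lemma spc_nb_F {j : ℕ} (hj : j < J) {x x' : V} (h : Nb x x' (R.F (o + j))) :
    ∃ y, Nb (y, x) (y, x') (spc R o e J z0 a b T) := by
  obtain ⟨y, hy⟩ := tog_nb (T j) (a j) (b j) h
  exact ⟨y, hy.mono (blk_infix_spc hj)⟩

lemma spc_nb_p {j : ℕ} (h1 : o ≤ j) (h2 : j < e) :
    Nb (z0, R.p j) (z0, R.p (j + 1)) (spc R o e J z0 a b T) :=
  (mpt_nb h1 h2).append_left _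

lemma spc_nb_loop (S : SpcOK H R o e J z0 a b T) {j : ℕ} (hj : j < J) {x : V}
    (hT : T j x = true) : Nb (a j, x) (b j, x) (spc R o e J z0 a b T) := by
  have h1 := S.hoe
  have h2 := S.heL
  exact (tog_loop (T j) (a j) (b j) (R.mem _ (by omega) x) hT).mono (blk_infix_spc hj)

lemma spc_nb_conn0 (S : SpcOK H R o e J z0 a b T) :
    Nb (z0, R.p o) (a 0, R.p o) (spc R o e J z0 a b T) := by
  have h1 := S.hoe
  have h2 := S.heL
  have h3 := S.hJ
  obtain ⟨n, rfl⟩ : ∃ n, J = n + 1 := ⟨J - 1, by omega⟩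
  apply nb_junction (mpt_last (by omega))
  rw [cat_head (blk_ne (by omega)), blk_head (by omega)]
  rfl

lemma spc_nb_conn (S : SpcOK H R o e J z0 a b T) {j : ℕ} (hj : j + 1 < J) :
    Nb (xit R o a b T j, R.p (o + j + 1)) (a (j + 1), R.p (o + j + 1))
      (spc R o e J z0 a b T) := by
  have h1 := S.hoe
  have h2 := S.heL
  apply Nb.append_right
  exact cat_junction hj (blk_last (by omega)) (blk_head (by omega))

end spc

section pln

variable {Γ V : Type} {H : SimpleGraph Γ} {G : SimpleGraph V} {L M : ℕ} (R : HR G L M)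

/-- The `t`-th block of a plain trail. -/
def pblk (c d : ℕ) (z : ℕ → Γ) (t : ℕ) : List (Γ × V) :=
  (R.F (c + d - 1 - t)).reverse.map (fun x => (z t, x))

/-- A plain trail: the colors `c + d - 1, …, c` are traversed at the heights `z 0, …, z (d-1)`;
the trail ends at `(z d, p c)`. -/
def pln (c d : ℕ) (z : ℕ → Γ) : List (Γ × V) := cat (pblk R c d z) d ++ [(z d, R.p c)]

variable {R} {c d : ℕ} {z : ℕ → Γ}

lemma pblk_head {t : ℕ} (ht : t < d) (hc : c + d ≤ L) :
    (pblk R c d z t).head? = some (z t, R.p (c + d - t)) := by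
  have h1 := R.last (c + d - 1 - t) (by omega)
  have h2 : c + d - 1 - t + 1 = c + d - t := by omega
  unfold pblk
  rw [List.head?_map, List.head?_reverse, h1, h2]
  rfl

lemma pblk_last {t : ℕ} (ht : t < d) (hc : c + d ≤ L) :
    (pblk R c d z t).getLast? = some (z t, R.p (c + d - 1 - t)) := by
  have h1 := R.head (c + d - 1 - t) (by omega)
  unfold pblk
  rw [List.getLast?_map, List.getLast?_reverse, h1]
  rfl

lemma pblk_ne {t : ℕ} (ht : t < d) (hc : c + d ≤ L) : pblk R c d z t ≠ [] := by
  intro h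
  have := pblk_head (R := R) (z := z) ht hc
  rw [h] at this
  simp at this

lemma pln_nodup (hc : c + d ≤ L) (hz : ∀ i i', i ≤ d → i' ≤ d → z i = z i' → i = i') :
    (pln R c d z).Nodup := by
  unfold pln
  rw [List.nodup_append]
  refine ⟨?_, by simp, ?_⟩
  · apply cat_nodup
    · intro t ht
      unfold pblk
      apply List.Nodup.map
      · intro x y h
        exact (Prod.mk.injEq _ _ _ _ ▸ h : _ ∧ _).2
      · exact List.nodup_reverse.mpr (R.nodup _ (by omega))
    · intro t ht t' ht' hne w hw hw'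
      unfold pblk at hw hw'
      rw [List.mem_map] at hw hw'
      obtain ⟨x, _, rfl⟩ := hw
      obtain ⟨x', _, h⟩ := hw'
      rw [Prod.mk.injEq] at h
      exact hne (hz t' t (by omega) (by omega) h.1).symm
  · intro w hw w' hw' heq
    subst heq
    rw [List.mem_singleton] at hw'
    subst hw'
    obtain ⟨t, ht, h⟩ := mem_cat.mp hw
    unfold pblk at h
    rw [List.mem_map] at h
    obtain ⟨x, _, h⟩ := h
    rw [Prod.mk.injEq] at h
    have := hz t d (by omega) (by omega) h.1
    omega

lemma pln_chain (hd : 1 ≤ d) (hc : c + d ≤ L) (hz : ∀ i < d, H.Adj (z i) (z (i + 1))) :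
    (pln R c d z).IsChain (H □ G).Adj := by
  unfold pln
  rw [List.isChain_append]
  refine ⟨?_, List.isChain_singleton _, ?_⟩
  · apply cat_chain
    · intro t ht
      unfold pblk
      rw [List.isChain_map, List.isChain_reverse]
      refine (R.chain (c + d - 1 - t) (by omega)).imp ?_
      intro x y h
      rw [boxProd_adj]
      exact Or.inr ⟨h.symm, rfl⟩
    · intro t ht; exact pblk_ne ht hc
    · intro t ht w w' hw hw'
      rw [pblk_last (by omega) hc, Option.some.injEq] at hw
      rw [pblk_head (by omega) hc, Option.some.injEq] at hw'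
      subst hw hw'
      rw [boxProd_adj]
      left
      refine ⟨hz t (by omega), ?_⟩
      change R.p _ = R.p _
      congr 1
      omega
  · intro w hw w' hw'
    obtain ⟨n, rfl⟩ : ∃ n, d = n + 1 := ⟨d - 1, by omega⟩
    rw [cat_last (pblk_ne (by omega) hc), pblk_last (by omega) hc, Option.mem_def,
      Option.some.injEq] at hw
    rw [List.head?_cons, Option.mem_def, Option.some.injEq] at hw'
    subst hw hw'
    rw [boxProd_adj]
    left
    refine ⟨hz n (by omega), ?_⟩
    change R.p _ = R.p _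
    congr 1
    omega

lemma pln_length (hc : c + d ≤ L) : (pln R c d z).length = d * M + 1 := by
  unfold pln
  rw [List.length_append, cat_length, List.length_singleton]
  congr 1
  have : ∀ t ∈ Finset.range d, (pblk R c d z t).length = M := by
    intro t ht
    rw [Finset.mem_range] at ht
    unfold pblk
    rw [List.length_map, List.length_reverse, R.len _ (by omega)]
  rw [Finset.sum_congr rfl this, Finset.sum_const, Finset.card_range, smul_eq_mul]

lemma pln_nb_F {j : ℕ} (h1 : c ≤ j) (h2 : j < c + d) {x x' : V} (h : Nb x x' (R.F j)) :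
    ∃ y, Nb (y, x) (y, x') (pln R c d z) := by
  have h3 : c + d - 1 - (c + d - 1 - j) = j := by omega
  refine ⟨z (c + d - 1 - j), ?_⟩
  apply Nb.append_left
  refine Nb.mono ?_ (infix_cat (pblk R c d z) (j := c + d - 1 - j) (by omega))
  unfold pblk
  rw [h3]
  exact h.reverse.map (fun x => (z (c + d - 1 - j), x))

lemma pln_nb_conn (hc : c + d ≤ L) {t : ℕ} (ht : t < d) :
    Nb (z t, R.p (c + d - 1 - t)) (z (t + 1), R.p (c + d - 1 - t)) (pln R c d z) := by
  by_cases h : t + 1 < d
  · apply Nb.append_left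
    apply cat_junction h (pblk_last ht hc)
    rw [pblk_head (by omega) hc]
    congr 3
    omega
  · have h1 : d = t + 1 := by omega
    subst h1
    unfold pln
    apply nb_junction
    · rw [cat_last (pblk_ne (by omega) hc), pblk_last (by omega) hc]
    · rw [List.head?_cons]
      congr 3
      omega

end pln

end Pool.Agent.Lib.MP_7b50be_co
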