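import Mathlib
import Pool.Agent.Lib.MP_7b50be_co.Spc

set_option autoImplicit false
set_option linter.unusedSimpArgs false

namespace Pool.Agent.Lib.MP_7b50be_co

open SimpleGraph

/-- Heights. -/
abbrev Ht (h : ℕ) := Fin h → ZMod 4

/-- `y` and `y'` differ by one unit in the coordinate `i`. -/
def Stp {h : ℕ} (i : Fin h) (y y' : Ht h) : Prop := y' = y + Pi.single i 1 ∨ y = y' + Pi.single i 1

lemma Stp.symm {h : ℕ} {i : Fin h} {y y' : Ht h} (H : Stp i y y') : Stp i y' y := Or.symm H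

lemma Stp.ne {h : ℕ} {i : Fin h} {y y' : Ht h} (H : Stp i y y') : y ≠ y' := by
  rintro rfl
  have h1 : ∀ w : Ht h, w ≠ w + Pi.single i 1 := by
    intro w hw
    have := congrFun hw i
    rw [Pi.add_apply, Pi.single_eq_same] at this
    have h2 : (1 : ZMod 4) = 0 := by linear_combination -this
    revert h2; decide
  rcases H with H | H <;> exact h1 _ H

/-- The height graph. -/
def Hg (h : ℕ) : SimpleGraph (Ht h) where
  Adj y y' := ∃ i, Stp i y y'
  symm.symm _ _ := fun ⟨i, hi⟩ => ⟨i, hi.symm⟩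
  loopless.irrefl _ := fun ⟨_, hi⟩ => hi.ne rfl

/-- A path of heights with toggles. -/
structure HPath (h d : ℕ) where
  z : ℕ → Ht h
  κ : ℕ → Fin h
  I : Finset (Fin h)
  μ : Fin h → ℕ
  stp : ∀ m < d, Stp (κ m) (z m) (z (m + 1))
  inj : ∀ m m', m ≤ d → m' ≤ d → z m = z m' → m = m'
  κμ : ∀ i ∈ I, κ (μ i) = i
  μ1 : ∀ i ∈ I, 1 ≤ μ i
  μd : ∀ i ∈ I, μ i + 1 ≤ d
  sep : ∀ i ∈ I, ∀ i' ∈ I, i ≠ i' → μ i + 2 ≤ μ i' ∨ μ i' + 2 ≤ μ i

namespace HPath

variable {h d : ℕ} (P : HPath h d)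

/-- The start indices of the toggles. -/
def Mu (m : ℕ) : Prop := ∃ i ∈ P.I, P.μ i = m

instance : DecidablePred P.Mu := fun m => inferInstanceAs (Decidable (∃ i ∈ P.I, P.μ i = m))

lemma muOK : MuOK P.Mu := by
  constructor
  · rintro ⟨i, hi, h0⟩
    have := P.μ1 i hi
    omega
  · rintro m ⟨i, hi, h0⟩ ⟨i', hi', h1⟩
    by_cases hii : i = i'
    · subst hii; omega
    · rcases P.sep i hi i' hi' hii with h2 | h2 <;> omega

lemma mu_lt {m : ℕ} (hm : P.Mu m) : m + 1 ≤ d := by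
  obtain ⟨i, hi, rfl⟩ := hm
  exact P.μd i hi

lemma mu_iff {m : ℕ} : P.Mu m ↔ P.κ m ∈ P.I ∧ P.μ (P.κ m) = m := by
  constructor
  · rintro ⟨i, hi, rfl⟩
    rw [P.κμ i hi]
    exact ⟨hi, rfl⟩
  · rintro ⟨h1, h2⟩
    exact ⟨_, h1, h2⟩

lemma exists_J : ∃ J, ms P.Mu J = d + 1 := by
  apply ms_surj P.muOK _ (by omega)
  intro hm
  have := P.mu_lt hm
  omega

lemma sum_mu {A : Type*} [AddCommMonoid A] (ψ : ℕ → A) :
    ∑ m ∈ Finset.range d, (if P.Mu m then ψ m else 0) = ∑ i ∈ P.I, ψ (P.μ i) := by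
  classical
  rw [← Finset.sum_filter]
  symm
  apply Finset.sum_bij (fun i _ => P.μ i)
  · intro i hi
    rw [Finset.mem_filter, Finset.mem_range]
    exact ⟨P.μd i hi, i, hi, rfl⟩
  · intro i hi i' hi' heq
    rw [← P.κμ i hi, ← P.κμ i' hi', heq]
  · intro m hm
    rw [Finset.mem_filter] at hm
    obtain ⟨_, i, hi, h1⟩ := hm
    exact ⟨i, hi, h1⟩
  · intro i hi; rfl

lemma card_J {J : ℕ} (hJ : ms P.Mu J = d + 1) : J + P.I.card = d := by
  have h1 := ms_sum P.muOK (fun _ => 1) (fun _ => 0) J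
  rw [hJ] at h1
  simp only [ite_self, add_zero, Finset.sum_const, Finset.card_range, smul_eq_mul, mul_one,
    Nat.add_sub_cancel] at h1
  have h2 := P.sum_mu (fun _ => 1)
  rw [Finset.sum_const, smul_eq_mul, mul_one] at h2
  have h3 : ∑ m ∈ Finset.range d, (if P.Mu m then 0 else 1) +
      ∑ m ∈ Finset.range d, (if P.Mu m then 1 else 0) = d := by
    rw [← Finset.sum_add_distrib]
    have : ∀ m ∈ Finset.range d, ((if P.Mu m then 0 else 1) + (if P.Mu m then 1 else 0)) = 1 := by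
      intro m _; split_ifs <;> rfl
    rw [Finset.sum_congr rfl this]
    simp
  omega

variable {V : Type} [DecidableEq V] {G : SimpleGraph V} {L M : ℕ} (R : HR G L M)
  (S : Fin h → Finset V) (B : Finset V)

/-- Entry heights of the blocks. -/
def sa (j : ℕ) : Ht h := P.z (ms P.Mu j)

/-- Alternative heights of the blocks. -/
def sb (j : ℕ) : Ht h := if P.Mu (ms P.Mu j) then P.z (ms P.Mu j + 1) else P.z 0

/-- Toggle sets of the blocks. -/
def sT (j : ℕ) (x : V) : Bool :=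
  if P.Mu (ms P.Mu j) then decide (x ∉ S (P.κ (ms P.Mu j))) else
    (if j = 0 then decide (x ∈ B) else false)

/-- The conditions on the sets. -/
structure SetOK (o e J : ℕ) : Prop where
  hJ : ms P.Mu J = d + 1
  hJ1 : 1 ≤ J
  hoe : o + J ≤ e
  heL : e ≤ L
  odd : ∀ i ∈ P.I, P.μ i + 1 < d → Odd (M - (S i).card)
  hB : B = ∅ ∨ (¬ P.Mu 1 ∧ 2 ≤ J ∧ PairT (fun x => decide (x ∈ B)) (R.F o) ∧
    ∀ i, o ≤ i → i ≤ e → R.p i ∉ B)

variable {R S B}

omit [DecidableEq V] in
lemma _root_.Pool.Agent.Lib.MP_7b50be_co.HR.countP_mem [DecidableEq V] (R : HR G L M) {j : ℕ}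
    (hj : j < L) (S : Finset V) : (R.F j).countP (fun x => decide (x ∈ S)) = S.card := by
  rw [List.countP_eq_length_filter, ← List.toFinset_card_of_nodup ((R.nodup j hj).filter _)]
  congr 1
  ext x
  simp [R.mem j hj x]

omit [DecidableEq V] in
lemma _root_.Pool.Agent.Lib.MP_7b50be_co.HR.countP_not_mem [DecidableEq V] (R : HR G L M) {j : ℕ}
    (hj : j < L) (S : Finset V) : (R.F j).countP (fun x => decide (x ∉ S)) = M - S.card := by
  have h1 := List.length_eq_countP_add_countP (fun x => decide (x ∈ S)) (l := R.F j)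
  rw [R.countP_mem hj, R.len j hj] at h1
  simp only [decide_eq_true_eq] at h1
  omega

lemma sT_mu {j : ℕ} (hj : P.Mu (ms P.Mu j)) :
    P.sT S B j = fun x => decide (x ∉ S (P.κ (ms P.Mu j))) := by
  funext x
  unfold sT
  rw [if_pos hj]

lemma sT_zero (hj : ¬ P.Mu 1) : P.sT S B 0 = fun x => decide (x ∈ B) := by
  funext x
  unfold sT
  rw [ms_zero, if_neg hj, if_pos rfl]

lemma sT_other {j : ℕ} (hj : ¬ P.Mu (ms P.Mu j)) (h0 : j ≠ 0) :
    P.sT S B j = fun _ => false := by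
  funext x
  unfold sT
  rw [if_neg hj, if_neg h0]

lemma pairT_empty (l : List V) : PairT (fun x => decide (x ∈ (∅ : Finset V))) l := by
  have : (fun x => decide (x ∈ (∅ : Finset V))) = fun _ => false := by
    funext x; simp
  rw [this]
  exact pair_false l

lemma pair_zero {o e J : ℕ} (OK : P.SetOK R S B o e J) (hmu : ¬ P.Mu 1) :
    PairT (P.sT S B 0) (R.F o) := by
  rw [P.sT_zero hmu]
  rcases OK.hB with h1 | h1
  · rw [h1]; exact pairT_empty _
  · exact h1.2.2.1

lemma xit_eq {o e J : ℕ} (OK : P.SetOK R S B o e J) {j : ℕ} (hj : j < J)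
    (hodd : P.Mu (ms P.Mu j) → Odd (M - (S (P.κ (ms P.Mu j))).card)) :
    xit R o P.sa P.sb (P.sT S B) j = P.z (ms P.Mu (j + 1) - 1) := by
  have h1 := OK.hoe
  have h2 := OK.heL
  unfold xit
  rw [ms_succ]
  by_cases hmu : P.Mu (ms P.Mu j)
  · rw [if_pos hmu, togEnd_eq, P.sT_mu hmu, R.countP_not_mem (by omega), if_neg]
    · unfold sb
      rw [if_pos hmu]
      congr 1
    · rw [Nat.not_even_iff_odd]
      exact hodd hmu
  · rw [if_neg hmu]
    have h3 : PairT (P.sT S B j) (R.F (o + j)) := by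
      by_cases h0 : j = 0
      · subst h0; exact P.pair_zero OK hmu
      · rw [P.sT_other hmu h0]; exact pair_false _
    rw [pair_togEnd _ _ _ _ h3]
    rfl

lemma hodd_lt {o e J : ℕ} (OK : P.SetOK R S B o e J) {j : ℕ} (hj : j + 1 < J) :
    P.Mu (ms P.Mu j) → Odd (M - (S (P.κ (ms P.Mu j))).card) := by
  intro hmu
  have h1 := P.mu_iff.mp hmu
  apply OK.odd _ h1.1
  rw [h1.2]
  have h2 : ms P.Mu (j + 1) < ms P.Mu J := ms_strictMono hj
  rw [OK.hJ, ms_succ, if_pos hmu] at h2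
  omega

/-- Which heights occur in the blocks. -/
lemma mem_blk {o e J : ℕ} (OK : P.SetOK R S B o e J) {j : ℕ} (hj : j < J) {w : Ht h × V}
    (hw : w ∈ blk R o P.sa P.sb (P.sT S B) j) :
    (∃ m, ms P.Mu j ≤ m ∧ m < ms P.Mu (j + 1) ∧ w.1 = P.z m) ∨
      (j = 0 ∧ w.1 = P.z 0 ∧ w.2 ∈ B) := by
  have h1 := mem_tog _ hw
  rw [ms_succ]
  by_cases hmu : P.Mu (ms P.Mu j)
  · rw [if_pos hmu]
    left
    rcases h1.2 with h2 | ⟨h2, _⟩
    · exact ⟨_, le_refl _, by omega, h2⟩
    · unfold sb at h2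
      rw [if_pos hmu] at h2
      exact ⟨_, by omega, by omega, h2⟩
  · rw [if_neg hmu]
    rcases h1.2 with h2 | ⟨h2, x, hx, hTx⟩
    · left
      exact ⟨_, le_refl _, by omega, h2⟩
    · right
      by_cases h0 : j = 0
      · subst h0
        unfold sb at h2
        rw [if_neg hmu] at h2
        refine ⟨rfl, h2, ?_⟩
        have h3 := P.pair_zero OK hmu
        have h4 : P.sa 0 ≠ P.sb 0 := by
          unfold sa sb
          rw [if_neg hmu, ms_zero]
          intro h5
          have h6 := P.inj 1 0 (by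
            have h7 : ms P.Mu 0 < ms P.Mu J := ms_strictMono (by omega)
            rw [OK.hJ, ms_zero] at h7
            omega) (by omega) h5
          omega
        have h5 := pair_mem (P.sT S B 0) (z := P.sa 0) (z' := P.sb 0) h4 (x := w.2) (R.F o) h3 (by
          have h6 : w = (P.sb 0, w.2) := by
            apply Prod.ext
            · rw [h2]; unfold sb; rw [if_neg hmu]
            · rfl
          rw [← h6]
          exact hw)
        rw [P.sT_zero hmu, decide_eq_true_eq] at h5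
        exact h5
      · rw [P.sT_other hmu h0] at hTx
        simp at hTx

lemma spcOK {o e J : ℕ} (OK : P.SetOK R S B o e J) :
    SpcOK (Hg h) R o e J (P.z 0) P.sa P.sb (P.sT S B) := by
  have hms : ∀ j, j < J → ms P.Mu j < d + 1 := by
    intro j hj
    rw [← OK.hJ]
    exact ms_strictMono hj
  have hms' : ∀ j, j < J → ms P.Mu (j + 1) ≤ d + 1 := by
    intro j hj
    rw [← OK.hJ]
    exact ms_strictMono.monotone hj
  refine ⟨OK.hJ1, OK.hoe, OK.heL, ?_, ?_, ?_, ?_, ?_⟩
  · have := hms 0 OK.hJ1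
    rw [ms_zero] at this
    exact ⟨_, P.stp 0 (by omega)⟩
  · intro j hj
    rw [P.xit_eq OK (by omega) (P.hodd_lt OK hj)]
    unfold sa
    have h1 := ms_pos (Mu := P.Mu) (j + 1)
    have h2 := hms (j + 1) hj
    have h3 := P.stp (ms P.Mu (j + 1) - 1) (by omega)
    rw [Nat.sub_add_cancel h1] at h3
    exact ⟨_, h3⟩
  · rintro j hj ⟨x, hx, hTx⟩
    unfold sa sb
    by_cases hmu : P.Mu (ms P.Mu j)
    · rw [if_pos hmu]
      exact ⟨_, P.stp _ (P.mu_lt hmu)⟩
    · rw [if_neg hmu]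
      by_cases h0 : j = 0
      · subst h0
        rw [ms_zero]
        have := hms 0 OK.hJ1
        rw [ms_zero] at this
        exact ⟨_, (P.stp 0 (by omega)).symm⟩
      · rw [P.sT_other hmu h0] at hTx
        simp at hTx
  · intro j hj i h1 h2 hw
    rcases P.mem_blk OK hj hw with ⟨m, h3, h4, h5⟩ | ⟨_, _, h5⟩
    · have h6 := ms_pos (Mu := P.Mu) j
      have h7 := hms' j hj
      have := P.inj 0 m (by omega) (by omega) h5
      omega
    · rcases OK.hB with h6 | h6
      · rw [h6] at h5; simp at h5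
      · exact h6.2.2.2 i h1 h2 h5
  · intro j hj j' hj' hne w hw hw'
    have k1 := hms' j hj
    have k2 := hms' j' hj'
    have k3 := ms_pos (Mu := P.Mu) j
    have k4 := ms_pos (Mu := P.Mu) j'
    rcases P.mem_blk OK hj hw with ⟨m, h3, h4, h5⟩ | ⟨h0, h5, _⟩ <;>
      rcases P.mem_blk OK hj' hw' with ⟨m', h3', h4', h5'⟩ | ⟨h0', h5', _⟩
    · have h6 := P.inj m m' (by omega) (by omega) (h5.symm.trans h5')
      subst h6
      rcases Nat.lt_or_gt_of_ne hne with h7 | h7
      · have : ms P.Mu (j + 1) ≤ ms P.Mu j' := ms_strictMono.monotone h7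
        omega
      · have : ms P.Mu (j' + 1) ≤ ms P.Mu j := ms_strictMono.monotone h7
        omega
    · have h6 := P.inj m 0 (by omega) (by omega) (h5.symm.trans h5')
      omega
    · have h6 := P.inj 0 m' (by omega) (by omega) (h5.symm.trans h5')
      omega
    · omega

end HPath

end Pool.Agent.Lib.MP_7b50be_co
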