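import Mathlib
import Pool.Agent.Lib.MP_7b50be_co.SpcPath

set_option autoImplicit false
set_option linter.unusedSimpArgs false

namespace Pool.Agent.Lib.MP_7b50be_co

open SimpleGraph

/-- The triangle wave. -/
def tri (q : ℕ) : ℕ := if q % 8 < 4 then q % 8 else 7 - q % 8

/-- The reflected Gray code in base 4. -/
def gry (h u : ℕ) : Ht h := fun j => (tri (u / 4 ^ (j : ℕ)) : ZMod 4)

lemma tri_lt (q : ℕ) : tri q < 4 := by unfold tri; split_ifs <;> omega

lemma tri_turn (c : ℕ) (hc : 1 ≤ c) : tri (4 * c) = tri (4 * c - 1) := by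
  unfold tri; split_ifs <;> omega

lemma tri_add (c a : ℕ) (ha : a < 4) : tri (4 * c + a) = if c % 2 = 0 then a else 3 - a := by
  unfold tri; split_ifs <;> omega

lemma gry_zero (h : ℕ) : gry h 0 = 0 := by
  funext j
  unfold gry
  rw [Nat.zero_div]
  rfl

lemma gry_step {h u r : ℕ} {j : Fin h} (hu : u + 1 = 4 ^ (j : ℕ) * r) (hr : ¬ 4 ∣ r) :
    Stp j (gry h u) (gry h (u + 1)) := by
  have hr1 : 1 ≤ r := by
    rcases Nat.eq_zero_or_pos r with h0 | h0
    · subst h0; simp at hr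
    · exact h0
  have hpos : ∀ i : ℕ, 0 < 4 ^ i := fun i => Nat.pow_pos (by omega)
  have hoth : ∀ i : Fin h, i ≠ j → gry h (u + 1) i = gry h u i := by
    intro i hi
    unfold gry
    congr 1
    rcases Nat.lt_or_ge (i : ℕ) j with h1 | h1
    · -- below
      obtain ⟨e, he⟩ : ∃ e, (j : ℕ) = i + (e + 1) := ⟨j - i - 1, by omega⟩
      have h2 : u + 1 = 4 ^ (i : ℕ) * (4 * (4 ^ e * r)) := by rw [hu, he]; ring
      have h3 : (u + 1) / 4 ^ (i : ℕ) = 4 * (4 ^ e * r) := by
        rw [h2, Nat.mul_div_cancel_left _ (hpos _)]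
      have h4 : u / 4 ^ (i : ℕ) = 4 * (4 ^ e * r) - 1 := by
        have h5 := Nat.succ_div (a := u) (b := 4 ^ (i : ℕ))
        rw [h3, if_pos ⟨_, h2⟩] at h5
        exact Nat.eq_sub_of_add_eq h5.symm
      rw [h3, h4]
      exact tri_turn _ (Nat.mul_pos (hpos e) hr1)
    · -- above
      have h1' : (j : ℕ) < i := by
        rcases Nat.lt_or_eq_of_le h1 with h2 | h2
        · exact h2
        · exact absurd (Fin.ext h2.symm) hi
      have h2 : ¬ 4 ^ (i : ℕ) ∣ u + 1 := by
        rintro ⟨w, hw⟩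
        obtain ⟨e, he⟩ : ∃ e, (i : ℕ) = j + (e + 1) := ⟨i - j - 1, by omega⟩
        rw [hu, he] at hw
        have h3 : 4 ^ (j : ℕ) * r = 4 ^ (j : ℕ) * (4 * (4 ^ e * w)) := by rw [hw]; ring
        have h4 := Nat.eq_of_mul_eq_mul_left (hpos _) h3
        exact hr ⟨_, h4⟩
      have h5 : (u + 1) / 4 ^ (i : ℕ) = u / 4 ^ (i : ℕ) := by
        rw [Nat.succ_div, if_neg h2]; rfl
      rw [h5]
  have hj1 : (u + 1) / 4 ^ (j : ℕ) = r := by rw [hu, Nat.mul_div_cancel_left _ (hpos _)]
  have hj2 : u / 4 ^ (j : ℕ) = r - 1 := by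
    have h5 := Nat.succ_div (a := u) (b := 4 ^ (j : ℕ))
    rw [hj1, if_pos ⟨_, hu⟩] at h5
    exact Nat.eq_sub_of_add_eq h5.symm
  have key : tri r = tri (r - 1) + 1 ∨ tri (r - 1) = tri r + 1 := by
    have h6 : r % 4 ≠ 0 := fun h0 => hr (Nat.dvd_of_mod_eq_zero h0)
    unfold tri
    split_ifs <;> omega
  rcases key with key | key
  · left
    funext i
    rw [Pi.add_apply]
    by_cases hi : i = j
    · subst hi
      rw [Pi.single_eq_same]
      unfold gry
      rw [hj1, hj2, key]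
      push_cast; ring
    · rw [Pi.single_eq_of_ne hi, add_zero]
      exact hoth i hi
  · right
    funext i
    rw [Pi.add_apply]
    by_cases hi : i = j
    · subst hi
      rw [Pi.single_eq_same]
      unfold gry
      rw [hj1, hj2, key]
      push_cast; ring
    · rw [Pi.single_eq_of_ne hi, add_zero]
      exact (hoth i hi).symm

lemma exists_pow_mul (n : ℕ) (hn : 1 ≤ n) : ∃ j r, n = 4 ^ j * r ∧ ¬ 4 ∣ r := by
  induction n using Nat.strong_induction_on with
  | _ n ih =>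
    by_cases h : 4 ∣ n
    · obtain ⟨m, rfl⟩ := h
      obtain ⟨j, r, h1, h2⟩ := ih m (by omega) (by omega)
      refine ⟨j + 1, r, ?_, h2⟩
      rw [pow_succ, mul_comm (4 ^ j) 4, mul_assoc, ← h1]
    · exact ⟨0, n, by simp, h⟩

lemma gry_step' {h u : ℕ} (hu : u + 1 < 4 ^ h) : ∃ j, Stp j (gry h u) (gry h (u + 1)) := by
  obtain ⟨j, r, h1, h2⟩ := exists_pow_mul (u + 1) (by omega)
  have hr : 1 ≤ r := by
    rcases Nat.eq_zero_or_pos r with h0 | h0
    · subst h0; simp at h2
    · exact h0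
  have hj : j < h := by
    by_contra hj
    have h3 : 4 ^ h ≤ 4 ^ j := Nat.pow_le_pow_right (by omega) (by omega)
    have h4 : 4 ^ j * 1 ≤ 4 ^ j * r := Nat.mul_le_mul_left _ hr
    omega
  exact ⟨⟨j, hj⟩, gry_step (j := ⟨j, hj⟩) h1 h2⟩

lemma gry_inj {h u u' : ℕ} (hu : u < 4 ^ h) (hu' : u' < 4 ^ h) (H : gry h u = gry h u') :
    u = u' := by
  have key : ∀ k, k ≤ h → u / 4 ^ (h - k) = u' / 4 ^ (h - k) := by
    intro k
    induction k with
    | zero =>
      intro _
      rw [Nat.sub_zero, Nat.div_eq_of_lt hu, Nat.div_eq_of_lt hu']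
    | succ k ih =>
      intro hk
      have h1 := ih (by omega)
      obtain ⟨i, hi⟩ : ∃ i, h - (k + 1) = i := ⟨_, rfl⟩
      have hi' : h - k = i + 1 := by omega
      rw [hi] at *
      rw [hi', pow_succ, ← Nat.div_div_eq_div_mul, ← Nat.div_div_eq_div_mul] at h1
      have h2 := congrFun H ⟨i, by omega⟩
      unfold gry at h2
      simp only at h2
      have h3 : tri (u / 4 ^ i) = tri (u' / 4 ^ i) := by
        rw [ZMod.natCast_eq_natCast_iff'] at h2
        have := tri_lt (u / 4 ^ i)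
        have := tri_lt (u' / 4 ^ i)
        omega
      generalize u / 4 ^ i = a at *
      generalize u' / 4 ^ i = a' at *
      have h4 := tri_add (a / 4) (a % 4) (Nat.mod_lt _ (by omega))
      have h5 := tri_add (a' / 4) (a' % 4) (Nat.mod_lt _ (by omega))
      rw [Nat.div_add_mod] at h4 h5
      rw [h4, h5, h1] at h3
      split_ifs at h3 <;> omega
  have := key h le_rfl
  simpa using this

end Pool.Agent.Lib.MP_7b50be_co
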