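import Mathlib
import Pool.Agent.Lib.MP_7b50be_co.Gray

set_option autoImplicit false
set_option linter.unusedSimpArgs false

namespace Pool.Agent.Lib.MP_7b50be_co

open SimpleGraph

lemma Stp.other {h : ℕ} {i : Fin h} {y y' : Ht h} (H : Stp i y y') {j : Fin h} (hj : j ≠ i) :
    y' j = y j := by
  rcases H with H | H
  · rw [H, Pi.add_apply, Pi.single_eq_of_ne hj, add_zero]
  · rw [H, Pi.add_apply, Pi.single_eq_of_ne hj, add_zero]

lemma Stp.same {h : ℕ} {i : Fin h} {y y' : Ht h} (H : Stp i y y') :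
    y' i = y i + 1 ∨ y i = y' i + 1 := by
  rcases H with H | H
  · left; rw [H, Pi.add_apply, Pi.single_eq_same]
  · right; rw [H, Pi.add_apply, Pi.single_eq_same]

lemma Stp.unique {h : ℕ} {i i' : Fin h} {y y' : Ht h} (H : Stp i y y') (H' : Stp i' y y') :
    i = i' := by
  by_contra hne
  have h1 := H'.other hne
  have h2 := H.same
  rw [h1] at h2
  revert h2
  generalize y i = a
  revert a
  decide

lemma stp_cons0 {h : ℕ} {a b : ZMod 4} (y : Ht h) (hab : b = a + 1 ∨ a = b + 1) :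
    Stp 0 (Fin.cons a y : Ht (h + 1)) (Fin.cons b y : Ht (h + 1)) := by
  rcases hab with rfl | rfl
  · left
    funext i
    refine Fin.cases ?_ (fun j => ?_) i
    · rw [Pi.add_apply, Pi.single_eq_same]; rfl
    · rw [Pi.add_apply, Pi.single_eq_of_ne (Fin.succ_ne_zero j), add_zero]; rfl
  · right
    funext i
    refine Fin.cases ?_ (fun j => ?_) i
    · rw [Pi.add_apply, Pi.single_eq_same]; rfl
    · rw [Pi.add_apply, Pi.single_eq_of_ne (Fin.succ_ne_zero j), add_zero]; rfl

lemma stp_cons_succ {h : ℕ} (a : ZMod 4) {y y' : Ht h} {j : Fin h} (H : Stp j y y') :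
    Stp j.succ (Fin.cons a y : Ht (h + 1)) (Fin.cons a y' : Ht (h + 1)) := by
  have key : ∀ w : Ht h, (Fin.cons a (w + Pi.single j 1) : Ht (h + 1)) =
      (Fin.cons a w : Ht (h + 1)) + Pi.single j.succ 1 := by
    intro w
    funext i
    refine Fin.cases ?_ (fun j' => ?_) i
    · rw [Pi.add_apply, Pi.single_eq_of_ne (Fin.succ_ne_zero j).symm, add_zero]; rfl
    · rw [Pi.add_apply]
      by_cases hjj : j' = j
      · subst hjj
        rw [Pi.single_eq_same]
        simp
      · rw [Pi.single_eq_of_ne (fun h0 => hjj (Fin.succ_injective _ h0))]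
        simp [Pi.single_eq_of_ne hjj]
  rcases H with rfl | rfl
  · left; exact key y
  · right; exact key y'

/-- The class of a step. -/
noncomputable def clsOf {h : ℕ} (z : ℕ → Ht (h + 1)) (m : ℕ) : Fin (h + 1) :=
  Classical.epsilon (fun i => Stp i (z m) (z (m + 1)))

lemma clsOf_eq {h : ℕ} {z : ℕ → Ht (h + 1)} {m : ℕ} {i : Fin (h + 1)}
    (H : Stp i (z m) (z (m + 1))) : clsOf z m = i :=
  (Classical.epsilon_spec (p := fun i => Stp i (z m) (z (m + 1))) ⟨i, H⟩).unique H

/-- Building a path of heights. -/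
noncomputable def mkPath {h d : ℕ} (z : ℕ → Ht (h + 1)) (I : Finset (Fin (h + 1)))
    (μ : Fin (h + 1) → ℕ) (hstp : ∀ m < d, ∃ i, Stp i (z m) (z (m + 1)))
    (hinj : ∀ m m', m ≤ d → m' ≤ d → z m = z m' → m = m')
    (hμ : ∀ i ∈ I, Stp i (z (μ i)) (z (μ i + 1))) (hμ1 : ∀ i ∈ I, 1 ≤ μ i)
    (hμd : ∀ i ∈ I, μ i + 1 ≤ d)
    (hsep : ∀ i ∈ I, ∀ i' ∈ I, i ≠ i' → μ i + 2 ≤ μ i' ∨ μ i' + 2 ≤ μ i) : HPath (h + 1) d where
  z := z
  κ := clsOf z
  I := I
  μ := μ
  stp m hm := by
    obtain ⟨i, hi⟩ := hstp m hm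
    rw [clsOf_eq hi]
    exact hi
  inj := hinj
  κμ i hi := clsOf_eq (hμ i hi)
  μ1 := hμ1
  μd := hμd
  sep := hsep

lemma HPath.count_par {h d : ℕ} (P : HPath h d) (i : Fin h) {n : ℕ} (hn : n ≤ d) :
    ((Finset.range n).filter (fun m => P.κ m = i)).card % 2 =
      ((P.z n i).val + (P.z 0 i).val) % 2 := by
  induction n with
  | zero => simp; omega
  | succ n ih =>
    have h1 := ih (by omega)
    have h2 := P.stp n (by omega)
    rw [Finset.range_add_one, Finset.filter_insert]
    by_cases hc : P.κ n = i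
    · rw [if_pos hc, Finset.card_insert_of_notMem (by simp)]
      rw [hc] at h2
      have h3 := h2.same
      have h4 : (P.z (n + 1) i).val % 2 = ((P.z n i).val + 1) % 2 := by
        revert h3
        generalize P.z (n + 1) i = a
        generalize P.z n i = b
        revert a b
        decide
      omega
    · rw [if_neg hc, h2.other (fun h0 => hc h0.symm)]
      exact h1

end Pool.Agent.Lib.MP_7b50be_co
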