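import Mathlib
import Pool.Agent.Lib.MP_7b50be_co.MkPath

set_option autoImplicit false
set_option linter.unusedSimpArgs false

namespace Pool.Agent.Lib.MP_7b50be_co

open SimpleGraph

/-- The first coordinate. -/
def bE (t : ℕ) : ZMod 4 := if t % 4 = 1 ∨ t % 4 = 2 then 1 else 0

/-- The mixed code. -/
def gE (h t : ℕ) : Ht (h + 1) := Fin.cons (bE t) (gry h (t / 2))

/-- The reflected mixed code. -/
def rE (h t : ℕ) : Ht (h + 1) := Fin.cons (3 - bE t) (gry h (t / 2))

/-- The closed path. -/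
def CE (h m t : ℕ) : Ht (h + 1) := if t < m then gE h t else rE h (2 * m - 1 - t)

lemma bE_cases (t : ℕ) : bE t = 0 ∨ bE t = 1 := by
  unfold bE; split_ifs
  · exact Or.inr rfl
  · exact Or.inl rfl

lemma bE_even {t : ℕ} (ht : t % 2 = 0) : (bE (t + 1) = bE t + 1 ∨ bE t = bE (t + 1) + 1) ∧
    (3 - bE (t + 1) = 3 - bE t + 1 ∨ 3 - bE t = 3 - bE (t + 1) + 1) ∧ bE t ≠ bE (t + 1) := by
  have h1 : t % 4 = 0 ∨ t % 4 = 2 := by omega
  rcases h1 with h1 | h1
  · have h2 : bE t = 0 := by unfold bE; rw [if_neg (by omega)]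
    have h3 : bE (t + 1) = 1 := by unfold bE; rw [if_pos (by omega)]
    rw [h2, h3]; decide
  · have h2 : bE t = 1 := by unfold bE; rw [if_pos (by omega)]
    have h3 : bE (t + 1) = 0 := by unfold bE; rw [if_neg (by omega)]
    rw [h2, h3]; decide

lemma bE_odd {t : ℕ} (ht : t % 2 = 1) : bE (t + 1) = bE t := by
  unfold bE
  have h1 : t % 4 = 1 ∨ t % 4 = 3 := by omega
  rcases h1 with h1 | h1
  · rw [if_pos (by omega), if_pos (by omega)]
  · rw [if_neg (by omega), if_neg (by omega)]

lemma gE_step_even (h : ℕ) {t : ℕ} (ht : t % 2 = 0) :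
    Stp 0 (gE h t) (gE h (t + 1)) ∧ Stp 0 (rE h t) (rE h (t + 1)) := by
  have h1 : (t + 1) / 2 = t / 2 := by omega
  unfold gE rE
  rw [h1]
  obtain ⟨h2, h3, _⟩ := bE_even ht
  exact ⟨stp_cons0 _ h2, stp_cons0 _ h3⟩

lemma gE_step_odd {h t : ℕ} {j : Fin h} (ht : t % 2 = 1)
    (H : Stp j (gry h (t / 2)) (gry h (t / 2 + 1))) :
    Stp j.succ (gE h t) (gE h (t + 1)) ∧ Stp j.succ (rE h t) (rE h (t + 1)) := by
  have h1 : (t + 1) / 2 = t / 2 + 1 := by omega
  unfold gE rE
  rw [h1, bE_odd ht]
  exact ⟨stp_cons_succ _ H, stp_cons_succ _ H⟩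

lemma gE_step {h t : ℕ} (ht : (t + 1) / 2 < 4 ^ h) :
    ∃ i, Stp i (gE h t) (gE h (t + 1)) ∧ Stp i (rE h t) (rE h (t + 1)) := by
  rcases Nat.mod_two_eq_zero_or_one t with h1 | h1
  · exact ⟨0, gE_step_even h h1⟩
  · obtain ⟨j, hj⟩ := gry_step' (h := h) (u := t / 2) (by omega)
    exact ⟨j.succ, gE_step_odd h1 hj⟩

lemma gE_inj {h t t' : ℕ} (ht : t / 2 < 4 ^ h) (ht' : t' / 2 < 4 ^ h)
    (H1 : bE t = bE t') (H2 : gry h (t / 2) = gry h (t' / 2)) : t = t' := by
  have h1 := gry_inj ht ht' H2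
  rcases Nat.mod_two_eq_zero_or_one t with h2 | h2 <;>
    rcases Nat.mod_two_eq_zero_or_one t' with h3 | h3
  · omega
  · have h4 : t' = t + 1 := by omega
    rw [h4] at H1
    exact absurd H1 (bE_even h2).2.2
  · have h4 : t = t' + 1 := by omega
    rw [h4] at H1
    exact absurd H1.symm (bE_even h3).2.2
  · omega

lemma CE_inj {h m t t' : ℕ} (hm : m ≤ 2 * 4 ^ h) (ht : t < 2 * m) (ht' : t' < 2 * m)
    (H : CE h m t = CE h m t') : t = t' := by
  have hne : ∀ s s' : ℕ, gE h s ≠ rE h s' := by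
    intro s s' h0
    have h1 := congrFun h0 0
    unfold gE rE at h1
    rw [Fin.cons_zero, Fin.cons_zero] at h1
    rcases bE_cases s with h2 | h2 <;> rcases bE_cases s' with h3 | h3 <;>
      · rw [h2, h3] at h1
        revert h1; decide
  unfold CE at H
  split_ifs at H with h1 h2 h2
  · have h3 := congrFun H 0
    have h4 : gry h (t / 2) = gry h (t' / 2) := by
      funext j; exact congrFun H j.succ
    exact gE_inj (by omega) (by omega) h3 h4
  · exact absurd H (hne _ _)
  · exact absurd H.symm (hne _ _)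
  · have h3 := congrFun H 0
    have h4 : gry h ((2 * m - 1 - t) / 2) = gry h ((2 * m - 1 - t') / 2) := by
      funext j; exact congrFun H j.succ
    unfold rE at h3
    rw [Fin.cons_zero, Fin.cons_zero] at h3
    have := gE_inj (t := 2 * m - 1 - t) (t' := 2 * m - 1 - t') (by omega) (by omega)
      (sub_right_injective h3) h4
    omega

lemma CE_step {h m t : ℕ} (hm : m ≤ 2 * 4 ^ h) (ht : t + 1 < 2 * m) :
    ∃ i, Stp i (CE h m t) (CE h m (t + 1)) := by
  unfold CE
  rcases lt_trichotomy (t + 1) m with h1 | h1 | h1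
  · rw [if_pos h1, if_pos (by omega)]
    obtain ⟨i, hi, _⟩ := gE_step (h := h) (t := t) (by omega)
    exact ⟨i, hi⟩
  · rw [if_pos (by omega), if_neg (by omega)]
    have h2 : 2 * m - 1 - (t + 1) = t := by omega
    rw [h2]
    refine ⟨0, ?_⟩
    unfold gE rE
    apply stp_cons0
    rcases bE_cases t with h3 | h3 <;> rw [h3] <;> decide
  · rw [if_neg (by omega), if_neg (by omega)]
    have h2 : 2 * m - 1 - t = 2 * m - 1 - (t + 1) + 1 := by omega
    rw [h2]
    obtain ⟨i, _, hi⟩ := gE_step (h := h) (t := 2 * m - 1 - (t + 1)) (by omega)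
    exact ⟨i, hi.symm⟩

theorem exists_pathE (h d : ℕ) (h1 : 2 * 4 ^ h ≤ d) (h2 : d < 4 ^ (h + 1)) :
    ∃ P : HPath (h + 1) d, P.I = Finset.univ ∧ P.μ 0 + 1 = d ∧
      (∀ i, i ≠ 0 → Even ((Finset.range d).filter (fun m => P.κ m = i)).card) ∧
      (Even d → Even ((Finset.range d).filter (fun m => P.κ m = 0)).card) ∧
      (1 ≤ h → 4 ≤ ((Finset.range d).filter (fun m => P.κ m ≠ 0)).card) := by
  have hpow : 4 ^ (h + 1) = 4 * 4 ^ h := by ring
  have hpos : ∀ i : ℕ, 1 ≤ 4 ^ i := fun i => Nat.pow_pos (by omega)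
  have hp0 := hpos h
  obtain ⟨m, hm⟩ : ∃ m, m = (d + 2) / 2 := ⟨_, rfl⟩
  obtain ⟨off, hoff⟩ : ∃ off, off + (d + 1) = 2 * m := ⟨2 * m - (d + 1), by omega⟩
  have hm2 : m ≤ 2 * 4 ^ h := by omega
  let μ : Fin (h + 1) → ℕ := Fin.cases (d - 1) (fun j => 4 ^ ((j : ℕ) + 1) - 1 - off)
  have hμ0 : μ 0 = d - 1 := rfl
  have hμs : ∀ j : Fin h, μ j.succ = 4 ^ ((j : ℕ) + 1) - 1 - off := fun j => rfl
  have hj1 : ∀ j : Fin h, 4 ≤ 4 ^ ((j : ℕ) + 1) ∧ 4 ^ ((j : ℕ) + 1) ≤ 4 ^ h := by
    intro j
    constructor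
    · calc 4 = 4 ^ 1 := by norm_num
        _ ≤ _ := Nat.pow_le_pow_right (by omega) (by omega)
    · exact Nat.pow_le_pow_right (by omega) (by omega)
  let z : ℕ → Ht (h + 1) := fun t => CE h m (t + off)
  have hzstp : ∀ t < d, ∃ i, Stp i (z t) (z (t + 1)) := by
    intro t ht
    have h3 : t + 1 + off = t + off + 1 := by omega
    change ∃ i, Stp i (CE h m (t + off)) (CE h m (t + 1 + off))
    rw [h3]
    exact CE_step hm2 (by omega)
  have hzinj : ∀ t t', t ≤ d → t' ≤ d → z t = z t' → t = t' := by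
    intro t t' ht ht' htt
    have := CE_inj hm2 (t := t + off) (t' := t' + off) (by omega) (by omega) htt
    omega
  have hzμ : ∀ i ∈ (Finset.univ : Finset (Fin (h + 1))), Stp i (z (μ i)) (z (μ i + 1)) := by
    intro i _
    refine Fin.cases ?_ (fun j => ?_) i
    · rw [hμ0]
      change Stp 0 (CE h m (d - 1 + off)) (CE h m (d - 1 + 1 + off))
      unfold CE
      rw [if_neg (by omega), if_neg (by omega)]
      have h3 : 2 * m - 1 - (d - 1 + off) = 1 := by omega
      have h4 : 2 * m - 1 - (d - 1 + 1 + off) = 0 := by omega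
      rw [h3, h4]
      exact (gE_step_even h (t := 0) rfl).2.symm
    · rw [hμs]
      obtain ⟨h3, h4⟩ := hj1 j
      change Stp j.succ (CE h m (4 ^ ((j : ℕ) + 1) - 1 - off + off))
        (CE h m (4 ^ ((j : ℕ) + 1) - 1 - off + 1 + off))
      have h5 : 4 ^ ((j : ℕ) + 1) - 1 - off + off = 4 ^ ((j : ℕ) + 1) - 1 := by omega
      have h6 : 4 ^ ((j : ℕ) + 1) - 1 - off + 1 + off = 4 ^ ((j : ℕ) + 1) - 1 + 1 := by omega
      rw [h5, h6]
      unfold CE
      rw [if_pos (by omega), if_pos (by omega)]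
      have h7 : 4 ^ ((j : ℕ) + 1) = 4 * 4 ^ (j : ℕ) := by ring
      refine (gE_step_odd (by omega) ?_).1
      apply gry_step (r := 2)
      · omega
      · omega
  refine ⟨mkPath z Finset.univ μ hzstp hzinj hzμ ?_ ?_ ?_, rfl, ?_, ?_, ?_, ?_⟩
  · intro i _
    refine Fin.cases ?_ (fun j => ?_) i
    · rw [hμ0]; omega
    · rw [hμs]
      have := hj1 j
      omega
  · intro i _
    refine Fin.cases ?_ (fun j => ?_) i
    · rw [hμ0]; omega
    · rw [hμs]
      have := hj1 j
      omega
  · have hs0 : ∀ j : Fin h, μ j.succ + 2 ≤ μ 0 := by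
      intro j
      rw [hμs, hμ0]
      have := hj1 j
      omega
    intro i _ i' _
    refine Fin.cases ?_ (fun j => ?_) i <;> refine Fin.cases ?_ (fun j' => ?_) i'
    · intro h0; exact absurd rfl h0
    · intro _; right; exact hs0 j'
    · intro _; left; exact hs0 j
    · intro hne
      have hne' : (j : ℕ) ≠ j' := by
        intro h0; exact hne (by rw [Fin.ext h0])
      rw [hμs, hμs]
      have := hj1 j
      have := hj1 j'
      have hp : ∀ a b : ℕ, a < b → 4 * 4 ^ (a + 1) ≤ 4 ^ (b + 1) := by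
        intro a b hab
        calc 4 * 4 ^ (a + 1) = 4 ^ (a + 1 + 1) := by ring
          _ ≤ _ := Nat.pow_le_pow_right (by omega) (by omega)
      rcases Nat.lt_or_gt_of_ne hne' with h0 | h0
      · have := hp _ _ h0; left; omega
      · have := hp _ _ h0; right; omega
  · change d - 1 + 1 = d
    omega
  · intro i hi
    rw [Nat.even_iff, HPath.count_par _ i le_rfl]
    obtain ⟨j, rfl⟩ := Fin.exists_succ_eq.mpr hi
    change ((CE h m (d + off) j.succ).val + (CE h m (0 + off) j.succ).val) % 2 = 0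
    have h3 : CE h m (d + off) j.succ = 0 := by
      unfold CE
      rw [if_neg (by omega)]
      have h4 : 2 * m - 1 - (d + off) = 0 := by omega
      rw [h4]
      unfold rE
      rw [Fin.cons_succ, Nat.zero_div, gry_zero]; rfl
    have h5 : CE h m (0 + off) j.succ = 0 := by
      unfold CE
      rw [if_pos (by omega)]
      unfold gE
      have h6 : (0 + off) / 2 = 0 := by omega
      rw [Fin.cons_succ, h6, gry_zero]; rfl
    rw [h3, h5]; rfl
  · intro hd
    rw [Nat.even_iff, HPath.count_par _ 0 le_rfl]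
    change ((CE h m (d + off) 0).val + (CE h m (0 + off) 0).val) % 2 = 0
    have hoff1 : off = 1 := by
      obtain ⟨e, he⟩ := hd
      omega
    have h3 : CE h m (d + off) 0 = 3 := by
      unfold CE
      rw [if_neg (by omega)]
      have h4 : 2 * m - 1 - (d + off) = 0 := by omega
      rw [h4]
      unfold rE
      rw [Fin.cons_zero]; decide
    have h5 : CE h m (0 + off) 0 = 1 := by
      unfold CE
      rw [if_pos (by omega)]
      unfold gE
      rw [Fin.cons_zero, hoff1]; decide
    rw [h3, h5]; rfl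
  · intro hh
    have h4h : 4 ≤ 4 ^ h := by
      calc 4 = 4 ^ 1 := by norm_num
        _ ≤ _ := Nat.pow_le_pow_right (by omega) hh
    -- the steps `1`, `3` and their mirrors
    have hcl : ∀ t, t % 2 = 1 → t + 1 < m → clsOf z (t - off) ≠ 0 ∧
        clsOf z (2 * m - 2 - t - off) ≠ 0 := by
      intro t ht htm
      obtain ⟨j, hj⟩ := gry_step' (h := h) (u := t / 2) (by omega)
      obtain ⟨h5, h6⟩ := gE_step_odd ht hj
      constructor
      · have h7 : Stp j.succ (z (t - off)) (z (t - off + 1)) := by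
          change Stp j.succ (CE h m (t - off + off)) (CE h m (t - off + 1 + off))
          have h8 : t - off + off = t := by omega
          have h9 : t - off + 1 + off = t + 1 := by omega
          rw [h8, h9]
          unfold CE
          rw [if_pos (by omega), if_pos (by omega)]
          exact h5
        rw [clsOf_eq h7]
        exact Fin.succ_ne_zero j
      · have h7 : Stp j.succ (z (2 * m - 2 - t - off)) (z (2 * m - 2 - t - off + 1)) := by
          change Stp j.succ (CE h m (2 * m - 2 - t - off + off))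
            (CE h m (2 * m - 2 - t - off + 1 + off))
          have h8 : 2 * m - 2 - t - off + off = 2 * m - 2 - t := by omega
          have h9 : 2 * m - 2 - t - off + 1 + off = 2 * m - 1 - t := by omega
          rw [h8, h9]
          unfold CE
          rw [if_neg (by omega), if_neg (by omega)]
          have h10 : 2 * m - 1 - (2 * m - 2 - t) = t + 1 := by omega
          have h11 : 2 * m - 1 - (2 * m - 1 - t) = t := by omega
          rw [h10, h11]
          exact h6.symm
        rw [clsOf_eq h7]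
        exact Fin.succ_ne_zero j
    have hA := hcl 1 rfl (by omega)
    have hB := hcl 3 rfl (by omega)
    have hsub : ({1 - off, 3 - off, 2 * m - 2 - 1 - off, 2 * m - 2 - 3 - off} : Finset ℕ) ⊆
        (Finset.range d).filter (fun t => clsOf z t ≠ 0) := by
      intro t ht
      simp only [Finset.mem_insert, Finset.mem_singleton] at ht
      rw [Finset.mem_filter, Finset.mem_range]
      rcases ht with rfl | rfl | rfl | rfl
      · exact ⟨by omega, hA.1⟩
      · exact ⟨by omega, hB.1⟩
      · exact ⟨by omega, hA.2⟩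
      · exact ⟨by omega, hB.2⟩
    have hc := Finset.card_le_card hsub
    rw [Finset.card_insert_of_notMem, Finset.card_insert_of_notMem,
      Finset.card_insert_of_notMem, Finset.card_singleton] at hc
    · exact hc
    · rw [Finset.mem_singleton]; omega
    · simp only [Finset.mem_insert, Finset.mem_singleton]; omega
    · simp only [Finset.mem_insert, Finset.mem_singleton]; omega

end Pool.Agent.Lib.MP_7b50be_co
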