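import Mathlib
import Pool.Agent.Lib.MP_7b50be_co.SpcPath

set_option autoImplicit false
set_option linter.unusedSimpArgs false

namespace Pool.Agent.Lib.MP_7b50be_co

open SimpleGraph

namespace HPath

variable {h d : ℕ} (P : HPath h d)

/-- Counting the connecting steps. -/
lemma sum_conn {J : ℕ} (hJ : ms P.Mu J = d + 1) (φ : Fin h → ℕ) :
    ∑ j ∈ Finset.range J, φ (P.κ (ms P.Mu j - 1)) + ∑ i ∈ P.I, φ i =
      ∑ m ∈ Finset.range d, φ (P.κ m) := by
  have h1 := ms_sum P.muOK (fun m => φ (P.κ m)) (fun _ => 0) J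
  rw [hJ] at h1
  simp only [ite_self, add_zero, Nat.add_sub_cancel] at h1
  have h2 := P.sum_mu (fun m => φ (P.κ m))
  have h3 : ∑ i ∈ P.I, φ (P.κ (P.μ i)) = ∑ i ∈ P.I, φ i := by
    apply Finset.sum_congr rfl
    intro i hi
    rw [P.κμ i hi]
  rw [h3] at h2
  rw [h1, ← h2, ← Finset.sum_add_distrib]
  apply Finset.sum_congr rfl
  intro m _
  split_ifs <;> simp

variable {V : Type} [DecidableEq V] {G : SimpleGraph V} {L M : ℕ} (R : HR G L M)
  (S : Fin h → Finset V) (B : Finset V)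

/-- The special trail attached to a path of heights. -/
def sp (o e J : ℕ) : List (Ht h × V) := spc R o e J (P.z 0) P.sa P.sb (P.sT S B)

variable {R S B} {o e J : ℕ}

lemma sp_nodup (OK : P.SetOK R S B o e J) : (P.sp R S B o e J).Nodup := spc_nodup (P.spcOK OK)

lemma sp_chain (OK : P.SetOK R S B o e J) : (P.sp R S B o e J).IsChain (Hg h □ G).Adj :=
  spc_chain (P.spcOK OK)

lemma sp_head : (P.sp R S B o e J).head? = some (P.z 0, R.p e) := spc_head

lemma sp_last (OK : P.SetOK R S B o e J) (hodd : ∀ i ∈ P.I, Odd (M - (S i).card)) :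
    (P.sp R S B o e J).getLast? = some (P.z d, R.p (o + J)) := by
  have h1 := spc_last (P.spcOK OK)
  have h2 := OK.hJ1
  rw [P.xit_eq OK (by omega), Nat.sub_add_cancel h2, OK.hJ, Nat.add_sub_cancel] at h1
  · exact h1
  · intro hmu
    exact hodd _ (P.mu_iff.mp hmu).1

lemma sp_length (OK : P.SetOK R S B o e J) : (P.sp R S B o e J).length =
    (e - o + 1) + J * M + (∑ i ∈ P.I, (M - (S i).card) + B.card) := by
  have k1 := OK.hoe
  have k2 := OK.heL
  have k3 := OK.hJ1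
  unfold sp
  rw [spc_length (P.spcOK OK)]
  congr 1
  have h1 := ms_sum P.muOK (fun _ => 0) (fun m => M - (S (P.κ m)).card) J
  rw [OK.hJ] at h1
  simp only [zero_add, Nat.add_sub_cancel] at h1
  have h2 := P.sum_mu (fun m => M - (S (P.κ m)).card)
  have h3 : ∑ i ∈ P.I, (M - (S (P.κ (P.μ i))).card) = ∑ i ∈ P.I, (M - (S i).card) := by
    apply Finset.sum_congr rfl
    intro i hi
    rw [P.κμ i hi]
  rw [← h3, ← h2, ← h1]
  have h4 : ∀ j ∈ Finset.range J, (R.F (o + j)).countP (P.sT S B j) =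
      (if P.Mu (ms P.Mu j) then M - (S (P.κ (ms P.Mu j))).card else 0) +
        (if j = 0 then B.card else 0) := by
    intro j hj
    rw [Finset.mem_range] at hj
    by_cases hmu : P.Mu (ms P.Mu j)
    · rw [if_pos hmu, P.sT_mu hmu, R.countP_not_mem (by omega)]
      by_cases h0 : j = 0
      · subst h0
        rcases OK.hB with h5 | h5
        · rw [h5]; simp
        · exact absurd hmu h5.1
      · rw [if_neg h0]; rfl
    · rw [if_neg hmu]
      by_cases h0 : j = 0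
      · subst h0
        rw [P.sT_zero hmu, if_pos rfl, R.countP_mem (by omega), zero_add]
      · rw [P.sT_other hmu h0, if_neg h0]
        simp
  rw [Finset.sum_congr rfl h4, Finset.sum_add_distrib, Finset.sum_ite_eq' (Finset.range J) 0,
    if_pos (Finset.mem_range.mpr (by omega))]

lemma sp_nb_F (OK : P.SetOK R S B o e J) {j : ℕ} (h1 : o ≤ j) (h2 : j < o + J) {x x' : V}
    (hx : Nb x x' (R.F j)) : ∃ y, Nb (y, x) (y, x') (P.sp R S B o e J) := by
  obtain ⟨i, rfl⟩ : ∃ i, j = o + i := ⟨j - o, by omega⟩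
  exact spc_nb_F (by omega) hx

lemma sp_nb_p {j : ℕ} (h1 : o ≤ j) (h2 : j < e) :
    Nb (P.z 0, R.p j) (P.z 0, R.p (j + 1)) (P.sp R S B o e J) := spc_nb_p h1 h2

lemma sp_nb_conn (OK : P.SetOK R S B o e J) {j : ℕ} (hj : j < J) :
    Nb (P.z (ms P.Mu j - 1), R.p (o + j)) (P.z (ms P.Mu j - 1 + 1), R.p (o + j))
      (P.sp R S B o e J) := by
  have h1 := ms_pos (Mu := P.Mu) j
  rw [Nat.sub_add_cancel h1]
  cases j with
  | zero => exact spc_nb_conn0 (P.spcOK OK)
  | succ j =>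
    have h2 := spc_nb_conn (P.spcOK OK) hj
    rw [P.xit_eq OK (by omega) (P.hodd_lt OK hj)] at h2
    exact h2

lemma sp_nb_tog (OK : P.SetOK R S B o e J) {i : Fin h} (hi : i ∈ P.I) {x : V} (hx : x ∉ S i) :
    Nb (P.z (P.μ i), x) (P.z (P.μ i + 1), x) (P.sp R S B o e J) := by
  have hmu : P.Mu (P.μ i) := ⟨i, hi, rfl⟩
  obtain ⟨j, hj⟩ := ms_surj P.muOK (P.μ i) (P.μ1 i hi) (by
    intro h1
    have h2 := P.muOK.iso _ h1
    have h3 := P.μ1 i hi
    rw [Nat.sub_add_cancel h3] at h2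
    exact h2 hmu)
  have hjJ : j < J := by
    have h1 : ms P.Mu j < ms P.Mu J := by
      rw [hj, OK.hJ]
      have := P.μd i hi
      omega
    exact ms_strictMono.lt_iff_lt.mp h1
  have h2 : P.sT S B j x = true := by
    rw [P.sT_mu (by rw [hj]; exact hmu), decide_eq_true_eq, hj, P.κμ i hi]
    exact hx
  have h3 := spc_nb_loop (P.spcOK OK) hjJ h2
  unfold sa sb at h3
  rw [hj, if_pos hmu] at h3
  exact h3

lemma sp_nb_bump (OK : P.SetOK R S B o e J) {x : V} (hx : x ∈ B) :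
    Nb (P.z 1, x) (P.z 0, x) (P.sp R S B o e J) := by
  rcases OK.hB with h1 | h1
  · rw [h1] at hx; simp at hx
  · have h2 : P.sT S B 0 x = true := by
      rw [P.sT_zero h1.1, decide_eq_true_eq]; exact hx
    have h3 := spc_nb_loop (P.spcOK OK) (j := 0) OK.hJ1 h2
    unfold sa sb at h3
    rw [ms_zero, if_neg h1.1] at h3
    exact h3

lemma sp_mem (OK : P.SetOK R S B o e J) {w : Ht h × V} (hw : w ∈ P.sp R S B o e J) :
    (w.1 = P.z 0 ∧ (w.2 ∈ B ∨ ∃ i, o ≤ i ∧ i ≤ e ∧ w.2 = R.p i)) ∨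
      ∃ m, 1 ≤ m ∧ m ≤ d ∧ w.1 = P.z m := by
  have k1 := OK.hoe
  unfold sp spc at hw
  rw [List.mem_append] at hw
  rcases hw with hw | hw
  · rw [mem_mpt (by omega)] at hw
    exact Or.inl ⟨hw.1, Or.inr hw.2⟩
  · obtain ⟨j, hj, hw⟩ := mem_cat.mp hw
    rcases P.mem_blk OK hj hw with ⟨m, h3, h4, h5⟩ | ⟨_, h5, h6⟩
    · right
      have h6 := ms_pos (Mu := P.Mu) j
      have h7 : ms P.Mu (j + 1) ≤ ms P.Mu J := ms_strictMono.monotone hj
      rw [OK.hJ] at h7
      exact ⟨m, by omega, by omega, h5⟩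
    · exact Or.inl ⟨h5, Or.inl h6⟩

end HPath

end Pool.Agent.Lib.MP_7b50be_co
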