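import Mathlib
import Pool.Agent.Lib.MP_7b50be_co.SpcPath2

set_option autoImplicit false
set_option linter.unusedSimpArgs false

namespace Pool.Agent.Lib.MP_7b50be_co

open SimpleGraph

lemma HR.card_le {V : Type} [DecidableEq V] {G : SimpleGraph V} {L M : ℕ} (R : HR G L M)
    (hL : 0 < L) (S : Finset V) : S.card ≤ M := by
  calc S.card = (R.F 0).countP (fun x => decide (x ∈ S)) := (R.countP_mem hL S).symm
    _ ≤ (R.F 0).length := List.countP_le_length
    _ = M := R.len 0 hL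

namespace HPath

variable {h d : ℕ} (P : HPath h d)

/-- The class of the connecting step at the column `p j` of the chain. -/
def vcls (J j : ℕ) : Fin h :=
  if j < J then P.κ (ms P.Mu j - 1) else P.κ (d - 1 - (j - J) % d)

lemma sum_mod (f : ℕ → ℕ) (n : ℕ) :
    ∑ i ∈ Finset.range (n * d), f (d - 1 - i % d) = n * ∑ t ∈ Finset.range d, f t := by
  induction n with
  | zero => simp
  | succ n ih =>
    rw [Nat.succ_mul, Finset.sum_range_add, ih, Nat.succ_mul]
    congr 1
    rw [← Finset.sum_range_reflect f d]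
    apply Finset.sum_congr rfl
    intro i hi
    rw [Finset.mem_range] at hi
    have : (n * d + i) % d = i := by
      rw [add_comm, Nat.add_mul_mod_self_right, Nat.mod_eq_of_lt hi]
    rw [this]

lemma sum_vcls {J q : ℕ} (hJ : ms P.Mu J = d + 1) (hq : 1 ≤ q) (φ : Fin h → ℕ) :
    ∑ j ∈ Finset.range (J + (q - 1) * d), φ (P.vcls J j) + ∑ i ∈ P.I, φ i =
      q * ∑ m ∈ Finset.range d, φ (P.κ m) := by
  rw [Finset.sum_range_add]
  have h1 := P.sum_conn hJ φ
  have h2 : ∑ j ∈ Finset.range J, φ (P.vcls J j) =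
      ∑ j ∈ Finset.range J, φ (P.κ (ms P.Mu j - 1)) := by
    apply Finset.sum_congr rfl
    intro j hj
    rw [Finset.mem_range] at hj
    unfold vcls
    rw [if_pos hj]
  have h3 : ∑ i ∈ Finset.range ((q - 1) * d), φ (P.vcls J (J + i)) =
      ∑ i ∈ Finset.range ((q - 1) * d), (fun t => φ (P.κ t)) (d - 1 - i % d) := by
    apply Finset.sum_congr rfl
    intro i hi
    unfold vcls
    rw [if_neg (by omega)]
    have : J + i - J = i := by omega
    rw [this]
  rw [h2, h3, sum_mod (d := d) (fun t => φ (P.κ t))]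
  obtain ⟨n, rfl⟩ : ∃ n, q = n + 1 := ⟨q - 1, by omega⟩
  rw [Nat.add_sub_cancel, Nat.succ_mul]
  omega

variable {V : Type} [DecidableEq V] {G : SimpleGraph V} {L M : ℕ} (R : HR G L M)
  (S : Fin h → Finset V)

/-- The trails of the chain. -/
def vw (J q g : ℕ) : List (Ht h × V) :=
  if g = 0 then P.sp R S ∅ 0 (J + (q - 1) * d) J else pln R (J + (g - 1) * d) d P.z

omit [DecidableEq V] in
/-- Hypotheses for the chain. -/
structure VOK (L M : ℕ) (S : Fin h → Finset V) (J q : ℕ) : Prop where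
  hJ : ms P.Mu J = d + 1
  hJ1 : 1 ≤ J
  hq : 1 ≤ q
  hL : J + (q - 1) * d ≤ L
  odd : ∀ i ∈ P.I, P.μ i + 1 < d → Odd (M - (S i).card)
  hsum : ∑ i ∈ P.I, (S i).card = J + (q - 1) * d

variable {R S} {J q : ℕ}

lemma VOK.setOK (OK : P.VOK L M S J q) : P.SetOK R S ∅ 0 (J + (q - 1) * d) J :=
  ⟨OK.hJ, OK.hJ1, by omega, OK.hL, OK.odd, Or.inl rfl⟩

omit [DecidableEq V] in
lemma VOK.bound (OK : P.VOK L M S J q) {g : ℕ} (hg : g < q) (h0 : g ≠ 0) :
    J + (g - 1) * d + d ≤ L := by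
  have h1 := OK.hL
  have h2 : (g - 1) * d + d = g * d := by
    obtain ⟨n, rfl⟩ : ∃ n, g = n + 1 := ⟨g - 1, by omega⟩
    rw [Nat.add_sub_cancel, Nat.succ_mul]
  have h3 : g * d ≤ (q - 1) * d := Nat.mul_le_mul_right _ (by omega)
  omega

lemma vw_nodup (OK : P.VOK L M S J q) {g : ℕ} (hg : g < q) : (P.vw R S J q g).Nodup := by
  unfold vw
  split_ifs with h0
  · exact P.sp_nodup (OK.setOK P)
  · exact pln_nodup (OK.bound P hg h0) P.inj

lemma vw_chain (OK : P.VOK L M S J q) {g : ℕ} (hg : g < q) :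
    (P.vw R S J q g).IsChain (Hg h □ G).Adj := by
  unfold vw
  split_ifs with h0
  · exact P.sp_chain (OK.setOK P)
  · have h1 := P.card_J OK.hJ
    have h2 := OK.hJ1
    exact pln_chain (by omega) (OK.bound P hg h0) (fun i hi => ⟨_, P.stp i hi⟩)

lemma vw_length (OK : P.VOK L M S J q) {g : ℕ} (hg : g < q) :
    (P.vw R S J q g).length = d * M + 1 := by
  have h1 := P.card_J OK.hJ
  have h2 := OK.hJ1
  have h3 := OK.hL
  unfold vw
  split_ifs with h0
  · rw [P.sp_length (OK.setOK P), Finset.card_empty, add_zero, Nat.sub_zero]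
    have h4 : ∑ i ∈ P.I, (M - (S i).card) + ∑ i ∈ P.I, (S i).card = P.I.card * M := by
      rw [← Finset.sum_add_distrib]
      have : ∀ i ∈ P.I, (M - (S i).card) + (S i).card = M := fun i _ =>
        Nat.sub_add_cancel (R.card_le (by omega) (S i))
      rw [Finset.sum_congr rfl this, Finset.sum_const, smul_eq_mul]
    rw [OK.hsum] at h4
    have h5 : J * M + P.I.card * M = d * M := by rw [← Nat.add_mul, h1]
    have h6 : (J + (q - 1) * d) + (∑ i ∈ P.I, (M - (S i).card)) = P.I.card * M := by omega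
    omega
  · exact pln_length (OK.bound P hg h0)

omit [DecidableEq V] in
lemma VOK.index (OK : P.VOK L M S J q) {j : ℕ} (hj : j < J + (q - 1) * d) (h0 : ¬ j < J) :
    ∃ g r, g + 1 < q ∧ r < d ∧ j = J + g * d + r ∧ (j - J) % d = r := by
  have h1 := P.card_J OK.hJ
  have h2 := OK.hJ1
  have hd : 0 < d := by omega
  have h30 : j - J < (q - 1) * d := by omega
  have h3 : (j - J) / d < q - 1 := (Nat.div_lt_iff_lt_mul hd).mpr h30
  have h4 := Nat.div_add_mod' (j - J) d
  have h5 := Nat.mod_lt (j - J) hd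
  refine ⟨(j - J) / d, (j - J) % d, ?_, h5, ?_, rfl⟩
  · generalize (j - J) / d = g at *
    omega
  · generalize (j - J) / d * d = g at *
    omega

lemma vw_F (OK : P.VOK L M S J q) {j : ℕ} (hj : j < J + (q - 1) * d) {x x' : V}
    (hx : Nb x x' (R.F j)) : ∃ g < q, ∃ y, Nb (y, x) (y, x') (P.vw R S J q g) := by
  have h1 := P.card_J OK.hJ
  have h2 := OK.hJ1
  by_cases h0 : j < J
  · refine ⟨0, by have := OK.hq; omega, ?_⟩
    unfold vw
    rw [if_pos rfl]
    exact P.sp_nb_F (OK.setOK P) (by omega) (by omega) hx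
  · obtain ⟨g, r, hg, hr, hjr, _⟩ := OK.index P hj h0
    refine ⟨g + 1, by omega, ?_⟩
    unfold vw
    rw [if_neg (Nat.succ_ne_zero _), Nat.add_sub_cancel]
    exact pln_nb_F (by omega) (by omega) hx

lemma vw_p (OK : P.VOK L M S J q) {j : ℕ} (hj : j < J + (q - 1) * d) :
    ∃ g < q, ∃ y, Nb (y, R.p j) (y, R.p (j + 1)) (P.vw R S J q g) := by
  refine ⟨0, by have := OK.hq; omega, P.z 0, ?_⟩
  unfold vw
  rw [if_pos rfl]
  exact P.sp_nb_p (by omega) hj

lemma vw_conn (OK : P.VOK L M S J q) {j : ℕ} (hj : j < J + (q - 1) * d) :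
    ∃ g < q, ∃ y y', Stp (P.vcls J j) y y' ∧ Nb (y, R.p j) (y', R.p j) (P.vw R S J q g) := by
  have h1 := P.card_J OK.hJ
  have h2 := OK.hJ1
  by_cases h0 : j < J
  · have h3 : ms P.Mu j < ms P.Mu J := ms_strictMono h0
    rw [OK.hJ] at h3
    have h4 := ms_pos (Mu := P.Mu) j
    have h5 := P.sp_nb_conn (R := R) (OK.setOK P) h0
    rw [zero_add] at h5
    refine ⟨0, by have := OK.hq; omega, P.z (ms P.Mu j - 1), P.z (ms P.Mu j - 1 + 1), ?_, ?_⟩
    · unfold vcls
      rw [if_pos h0]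
      exact P.stp _ (by omega)
    · unfold vw
      rw [if_pos rfl]
      exact h5
  · obtain ⟨g, r, hg, hr, hjr, hjm⟩ := OK.index P hj h0
    have h6 := OK.bound P (g := g + 1) (by omega) (by omega)
    rw [Nat.add_sub_cancel] at h6
    have h7 := pln_nb_conn (R := R) (z := P.z) h6 (t := d - 1 - r) (by omega)
    have h8 : J + g * d + d - 1 - (d - 1 - r) = j := by omega
    rw [h8] at h7
    refine ⟨g + 1, by omega, P.z (d - 1 - r), P.z (d - 1 - r + 1), ?_, ?_⟩
    · unfold vcls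
      rw [if_neg h0, hjm]
      exact P.stp _ (by omega)
    · unfold vw
      rw [if_neg (Nat.succ_ne_zero _), Nat.add_sub_cancel]
      exact h7

lemma vw_tog (OK : P.VOK L M S J q) {i : Fin h} (hi : i ∈ P.I) {x : V} (hx : x ∉ S i) :
    ∃ g < q, ∃ y y', Stp i y y' ∧ Nb (y, x) (y', x) (P.vw R S J q g) := by
  refine ⟨0, by have := OK.hq; omega, P.z (P.μ i), P.z (P.μ i + 1), ?_, ?_⟩
  · have := P.stp (P.μ i) (by have := P.μd i hi; omega)
    rwa [P.κμ i hi] at this
  · unfold vw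
    rw [if_pos rfl]
    exact P.sp_nb_tog (OK.setOK P) hi hx

end HPath

end Pool.Agent.Lib.MP_7b50be_co
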