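import Mathlib
import Pool.Agent.Lib.MP_7b50be_co.VChain

set_option autoImplicit false
set_option linter.unusedSimpArgs false

namespace Pool.Agent.Lib.MP_7b50be_co

open SimpleGraph

lemma Stp.add {h : ℕ} {i : Fin h} {y y' : Ht h} (H : Stp i y y') (γ : Ht h) :
    Stp i (y + γ) (y' + γ) := by
  rcases H with H | H
  · left; rw [H]; abel
  · right; rw [H]; abel

/-- Translation of a list. -/
def trl {h : ℕ} {V : Type} (γ : Ht h) (l : List (Ht h × V)) : List (Ht h × V) :=
  l.map (fun w => (w.1 + γ, w.2))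

section

variable {h : ℕ} {V : Type}

lemma trl_length (γ : Ht h) (l : List (Ht h × V)) : (trl γ l).length = l.length :=
  List.length_map _

lemma trl_nodup (γ : Ht h) {l : List (Ht h × V)} (hl : l.Nodup) : (trl γ l).Nodup := by
  apply hl.map
  intro a b hab
  rw [Prod.mk.injEq] at hab
  exact Prod.ext (add_right_cancel hab.1) hab.2

lemma trl_chain {G : SimpleGraph V} (γ : Ht h) {l : List (Ht h × V)}
    (hl : l.IsChain (Hg h □ G).Adj) : (trl γ l).IsChain (Hg h □ G).Adj := by
  unfold trl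
  rw [List.isChain_map]
  refine hl.imp ?_
  rintro ⟨y, x⟩ ⟨y', x'⟩ hadj
  rw [boxProd_adj] at hadj ⊢
  rcases hadj with ⟨⟨i, h1⟩, h2⟩ | ⟨h1, h2⟩
  · exact Or.inl ⟨⟨i, h1.add γ⟩, h2⟩
  · refine Or.inr ⟨h1, ?_⟩
    change y + γ = y' + γ
    change y = y' at h2
    rw [h2]

lemma trl_nb (γ : Ht h) {l : List (Ht h × V)} {y y' : Ht h} {x x' : V}
    (hl : Nb (y, x) (y', x') l) : Nb (y + γ, x) (y' + γ, x') (trl γ l) :=
  hl.map (fun w => (w.1 + γ, w.2))

/-- Reaching any edge of the same class. -/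
lemma trl_cover_stp {l : List (Ht h × V)} {i : Fin h} {y y' y0 y0' : Ht h} {x : V}
    (H : Stp i y y') (H0 : Stp i y0 y0') (hl : Nb (y0, x) (y0', x) l) :
    ∃ γ, Nb (y, x) (y', x) (trl γ l) := by
  rcases H with H | H <;> rcases H0 with H0 | H0
  · refine ⟨y - y0, ?_⟩
    have h1 := trl_nb (y - y0) hl
    have h2 : y0 + (y - y0) = y := by abel
    have h3 : y0' + (y - y0) = y' := by rw [H, H0]; abel
    rwa [h2, h3] at h1
  · refine ⟨y - y0', ?_⟩
    have h1 := trl_nb (y - y0') hl
    have h2 : y0' + (y - y0') = y := by abel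
    have h3 : y0 + (y - y0') = y' := by rw [H, H0]; abel
    rw [h2, h3] at h1
    exact h1.symm
  · refine ⟨y' - y0, ?_⟩
    have h1 := trl_nb (y' - y0) hl
    have h2 : y0 + (y' - y0) = y' := by abel
    have h3 : y0' + (y' - y0) = y := by rw [H, H0]; abel
    rw [h2, h3] at h1
    exact h1.symm
  · refine ⟨y' - y0', ?_⟩
    have h1 := trl_nb (y' - y0') hl
    have h2 : y0' + (y' - y0') = y' := by abel
    have h3 : y0 + (y' - y0') = y := by rw [H, H0]; abel
    rwa [h2, h3] at h1

lemma trl_cover_same {l : List (Ht h × V)} {y0 : Ht h} {x x' : V} (y : Ht h)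
    (hl : Nb (y0, x) (y0, x') l) : Nb (y, x) (y, x') (trl (y - y0) l) := by
  have h1 := trl_nb (y - y0) hl
  have h2 : y0 + (y - y0) = y := by abel
  rwa [h2] at h1

end

/-- The columns of a given class. -/
def HR.cset {V : Type} [DecidableEq V] {G : SimpleGraph V} {L M : ℕ} (R : HR G L M) {h : ℕ}
    (c : ℕ → Fin h) (N : ℕ) (i : Fin h) : Finset V :=
  ((Finset.range N).filter (fun j => c j = i)).image R.p

section

variable {V : Type} [DecidableEq V] {G : SimpleGraph V} {L M : ℕ} (R : HR G L M) {h : ℕ}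
    (c : ℕ → Fin h)

lemma HR.mem_cset {N : ℕ} {i : Fin h} {x : V} :
    x ∈ R.cset c N i ↔ ∃ j < N, c j = i ∧ R.p j = x := by
  unfold HR.cset
  rw [Finset.mem_image]
  constructor
  · rintro ⟨j, hj, rfl⟩
    rw [Finset.mem_filter, Finset.mem_range] at hj
    exact ⟨j, hj.1, hj.2, rfl⟩
  · rintro ⟨j, h1, h2, rfl⟩
    exact ⟨j, by rw [Finset.mem_filter, Finset.mem_range]; exact ⟨h1, h2⟩, rfl⟩

lemma HR.card_cset {N : ℕ} (hN : N ≤ L + 1) (i : Fin h) :
    (R.cset c N i).card = ((Finset.range N).filter (fun j => c j = i)).card := by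
  unfold HR.cset
  apply Finset.card_image_of_injOn
  intro a ha b hb hab
  simp only [Finset.coe_filter, Finset.mem_range, Set.mem_ofPred_eq] at ha hb
  exact R.p_inj a b (by omega) (by omega) hab

lemma HR.card_cset' {N : ℕ} (hN : N ≤ L + 1) (i : Fin h) :
    (R.cset c N i).card = ∑ j ∈ Finset.range N, if c j = i then 1 else 0 := by
  rw [R.card_cset c hN, Finset.card_filter]

lemma HR.sum_cset {N : ℕ} (hN : N ≤ L + 1) :
    ∑ i, (R.cset c N i).card = N := by
  have h1 : ∀ i, (R.cset c N i).card = ((Finset.range N).filter (fun j => c j = i)).card :=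
    R.card_cset c hN
  simp only [h1]
  have h2 := Finset.card_eq_sum_card_fiberwise (f := c) (s := Finset.range N) (t := Finset.univ)
    (fun _ _ => by simp)
  rw [Finset.card_range] at h2
  exact h2.symm

end

end Pool.Agent.Lib.MP_7b50be_co
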