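import Mathlib
import Pool.Agent.Lib.MP_7b50be_co.Trans

set_option autoImplicit false
set_option linter.unusedSimpArgs false

namespace Pool.Agent.Lib.MP_7b50be_co

open SimpleGraph

lemma pair_infix_append {W : Type*} {x y : W} {l1 l2 : List W} (H : [x, y] <:+: l1 ++ l2) :
    [x, y] <:+: l1 ∨ [x, y] <:+: l2 ∨ (l1.getLast? = some x ∧ l2.head? = some y) := by
  rw [List.infix_append_iff] at H
  rcases H with H | H | ⟨a, b, hab, h1, h2⟩
  · exact Or.inl H
  · exact Or.inr (Or.inl H)
  · cases a with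
    | nil =>
      rw [List.nil_append] at hab
      rw [← hab] at h2
      exact Or.inr (Or.inl h2.isInfix)
    | cons a0 a =>
      rw [List.cons_append, List.cons.injEq] at hab
      obtain ⟨rfl, hab⟩ := hab
      cases a with
      | nil =>
        rw [List.nil_append] at hab
        rw [← hab] at h2
        right; right
        obtain ⟨s, rfl⟩ := h1
        obtain ⟨t, rfl⟩ := h2
        simp
      | cons a1 a =>
        rw [List.cons_append, List.cons.injEq] at hab
        obtain ⟨rfl, hab⟩ := hab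
        have h3 := List.append_eq_nil_iff.mp hab.symm
        obtain ⟨rfl, rfl⟩ := h3
        exact Or.inl h1.isInfix

lemma cyc_core {W : Type*} {G : SimpleGraph W} {s t : List W} {a b hd la : W}
    (hnd : ((s ++ [a]) ++ (b :: t)).Nodup) (hch : ((s ++ [a]) ++ (b :: t)).IsChain G.Adj)
    (hhd : ((s ++ [a]) ++ (b :: t)).head? = some hd)
    (hla : ((s ++ [a]) ++ (b :: t)).getLast? = some la) (hcl : G.Adj la hd) :
    ((b :: t) ++ (s ++ [a])).Nodup ∧ ((b :: t) ++ (s ++ [a])).IsChain G.Adj ∧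
    ((b :: t) ++ (s ++ [a])).length = ((s ++ [a]) ++ (b :: t)).length ∧
    (∀ w, w ∈ (b :: t) ++ (s ++ [a]) ↔ w ∈ (s ++ [a]) ++ (b :: t)) ∧
    ((b :: t) ++ (s ++ [a])).head? = some b ∧ ((b :: t) ++ (s ++ [a])).getLast? = some a ∧
    (∀ x y, [x, y] <:+: (s ++ [a]) ++ (b :: t) → [x, y] <:+: (b :: t) ++ (s ++ [a]) ∨
      (x = a ∧ y = b)) ∧ [la, hd] <:+: (b :: t) ++ (s ++ [a]) := by
  have h1 : (s ++ [a]).head? = some hd := by
    rw [List.head?_append_of_ne_nil (s ++ [a]) (by simp)] at hhd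
    exact hhd
  have h2 : (b :: t).getLast? = some la := by
    rw [List.getLast?_append_of_ne_nil (s ++ [a]) (by simp)] at hla
    exact hla
  refine ⟨?_, ?_, ?_, ?_, ?_, ?_, ?_, ?_⟩
  · exact (List.perm_append_comm.nodup_iff).mp hnd
  · rw [List.isChain_append] at hch ⊢
    refine ⟨hch.2.1, hch.1, ?_⟩
    intro x hx y hy
    rw [h2, Option.mem_some_iff] at hx
    rw [h1, Option.mem_some_iff] at hy
    subst hx hy
    exact hcl
  · exact List.perm_append_comm.length_eq
  · intro w
    exact List.perm_append_comm.mem_iff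
  · simp
  · rw [List.getLast?_append_of_ne_nil (b :: t) (by simp)]
    simp
  · intro x y hxy
    rcases pair_infix_append hxy with h | h | ⟨h, h'⟩
    · exact Or.inl (h.trans ⟨b :: t, [], by simp⟩)
    · exact Or.inl (h.trans ⟨[], s ++ [a], by simp⟩)
    · right
      rw [List.getLast?_append_of_ne_nil s (by simp)] at h
      simp only [List.getLast?_singleton, Option.some.injEq, List.head?_cons] at h h'
      exact ⟨h.symm, h'.symm⟩
  · obtain ⟨s', hs'⟩ : ∃ s', b :: t = s' ++ [la] := by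
      rw [List.getLast?_eq_some_iff] at h2
      exact h2
    obtain ⟨t', ht'⟩ : ∃ t', s ++ [a] = hd :: t' := by
      rw [List.head?_eq_some_iff] at h1
      exact h1
    rw [hs', ht']
    exact ⟨s', t', by simp⟩

/-- Opening a cycle at an edge. -/
theorem cyc_cut {W : Type*} {G : SimpleGraph W} {C : List W} (hnd : C.Nodup)
    (hch : C.IsChain G.Adj) {hd la : W} (hhd : C.head? = some hd) (hla : C.getLast? = some la)
    (hcl : G.Adj la hd) {u v : W} (huv : Nb u v C) :
    ∃ Q : List W, Q.Nodup ∧ Q.IsChain G.Adj ∧ Q.length = C.length ∧ (∀ w, w ∈ Q ↔ w ∈ C) ∧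
      Q.head? = some u ∧ Q.getLast? = some v ∧
      (∀ x y, Nb x y C → Nb x y Q ∨ (x = u ∧ y = v) ∨ (x = v ∧ y = u)) ∧ Nb la hd Q := by
  rcases huv with ⟨s, t, hC⟩ | ⟨s, t, hC⟩
  · have hC' : C = (s ++ [u]) ++ (v :: t) := by rw [← hC]; simp
    subst hC'
    obtain ⟨h1, h2, h3, h4, h5, h6, h7, h8⟩ := cyc_core hnd hch hhd hla hcl
    refine ⟨((v :: t) ++ (s ++ [u])).reverse, ?_, ?_, ?_, ?_, ?_, ?_, ?_, ?_⟩
    · exact List.nodup_reverse.mpr h1
    · rw [List.isChain_reverse]
      exact h2.imp (fun _ _ h => SimpleGraph.Adj.symm h)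
    · rw [List.length_reverse, h3]
    · intro w
      rw [List.mem_reverse, h4]
    · rw [List.head?_reverse, h6]
    · rw [List.getLast?_reverse, h5]
    · intro x y hxy
      rcases hxy with hxy | hxy
      · rcases h7 x y hxy with h | h
        · exact Or.inl (Nb.reverse (Or.inl h))
        · exact Or.inr (Or.inl h)
      · rcases h7 y x hxy with h | h
        · exact Or.inl (Nb.reverse (Or.inr h))
        · exact Or.inr (Or.inr ⟨h.2, h.1⟩)
    · exact Nb.reverse (Or.inl h8)
  · have hC' : C = (s ++ [v]) ++ (u :: t) := by rw [← hC]; simp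
    subst hC'
    obtain ⟨h1, h2, h3, h4, h5, h6, h7, h8⟩ := cyc_core hnd hch hhd hla hcl
    refine ⟨(u :: t) ++ (s ++ [v]), h1, h2, h3, h4, h5, h6, ?_, Or.inl h8⟩
    intro x y hxy
    rcases hxy with hxy | hxy
    · rcases h7 x y hxy with h | h
      · exact Or.inl (Or.inl h)
      · exact Or.inr (Or.inr h)
    · rcases h7 y x hxy with h | h
      · exact Or.inl (Or.inr h)
      · exact Or.inr (Or.inl ⟨h.2, h.1⟩)

end Pool.Agent.Lib.MP_7b50be_co
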