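import Mathlib
import Pool.Agent.Lib.MP_7b50be_co.Cyc

set_option autoImplicit false
set_option linter.unusedSimpArgs false

namespace Pool.Agent.Lib.MP_7b50be_co

open SimpleGraph

/-- The half of the heights. -/
def InA {h : ℕ} (γ : Ht (h + 1)) : Prop := γ 0 = 0 ∨ γ 0 = 1

/-- The elements of the half of the heights. -/
def aEl {h : ℕ} (p : Bool × Ht h) : Ht (h + 1) := Fin.cons (if p.1 then 1 else 0) p.2

lemma InA.exists {h : ℕ} {γ : Ht (h + 1)} (H : InA γ) : ∃ p, aEl p = γ := by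
  rcases H with H | H
  · refine ⟨(false, Fin.tail γ), ?_⟩
    unfold aEl
    simp only [Bool.false_eq_true, if_false]
    rw [← H]
    exact Fin.cons_self_tail γ
  · refine ⟨(true, Fin.tail γ), ?_⟩
    unfold aEl
    simp only [if_true]
    rw [← H]
    exact Fin.cons_self_tail γ

lemma InA.tau {h : ℕ} {γ τ : Ht (h + 1)} (H : InA γ) (hτ : τ 0 = 2) : ¬ InA (γ + τ) := by
  unfold InA at *
  rw [Pi.add_apply, hτ]
  revert H
  generalize γ 0 = a
  revert a
  decide

lemma InA.or_tau {h : ℕ} (γ : Ht (h + 1)) {τ : Ht (h + 1)} (hτ : τ 0 = 2) :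
    InA γ ∨ InA (γ + τ) := by
  unfold InA at *
  rw [Pi.add_apply, hτ]
  generalize γ 0 = a
  revert a
  decide

/-- Conditions for the closed trail. -/
structure WOK {h d L M : ℕ} (P : HPath (h + 1) d) {V : Type} [DecidableEq V] {G : SimpleGraph V}
    (R : HR G L M) (S : Fin (h + 1) → Finset V) (B : Finset V) (o J : ℕ) (τ : Ht (h + 1))
    (i1 : Fin (h + 1)) (x0 : V) : Prop where
  set : P.SetOK R S B o L J
  hoJ : o + J = L
  odd : ∀ i ∈ P.I, Odd (M - (S i).card)
  len : (L - o + 1) + J * M + (∑ i ∈ P.I, (M - (S i).card) + B.card) = d * M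
  τ0 : τ 0 = 2
  ττ : τ + τ = 0
  inA : ∀ m ≤ d, InA (P.z m)
  close : Stp 0 (P.z d) (P.z 0 + τ)
  hi1 : i1 ∈ P.I
  i10 : i1 ≠ 0
  x0S : x0 ∉ S i1
  x0B : x0 ∉ B
  x0p : ∀ j, j ≤ L → R.p j ≠ x0
  st1 : Stp i1 (P.z 0) (P.z (P.μ i1))
  st2 : P.z (P.μ i1 + 1) - P.z (P.μ i1) = P.z (P.μ i1) - P.z 0

section

variable {h d L M : ℕ} {P : HPath (h + 1) d} {V : Type} [DecidableEq V] {G : SimpleGraph V}
    {R : HR G L M} {S : Fin (h + 1) → Finset V} {B : Finset V} {o J : ℕ} {τ : Ht (h + 1)}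
    {i1 : Fin (h + 1)} {x0 : V}

theorem WOK.exists_path (W : WOK P R S B o J τ i1 x0) :
    ∃ Q : List (Ht (h + 1) × V), Q.Nodup ∧ Q.IsChain (Hg (h + 1) □ G).Adj ∧
      Q.length = 2 * (d * M) + 1 ∧
      (∀ a b, Nb a b (P.sp R S B o L J) → ∀ γ, ∃ γ', InA γ' ∧
        Nb (a.1 + γ, a.2) (b.1 + γ, b.2) (trl γ' Q)) ∧
      (∀ γ, ∃ γ', InA γ' ∧ Nb (P.z d + γ, R.p L) (P.z 0 + τ + γ, R.p L) (trl γ' Q)) := by
  set W0 := P.sp R S B o L J with hW0
  have hd : P.μ i1 + 1 ≤ d := P.μd i1 W.hi1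
  have hmemA : ∀ w ∈ W0, InA w.1 := by
    intro w hw
    rcases P.sp_mem W.set hw with h1 | ⟨m, _, h2, h3⟩
    · rw [h1.1]; exact W.inA 0 (Nat.zero_le _)
    · rw [h3]; exact W.inA m h2
  have hmemB : ∀ w ∈ trl τ W0, ¬ InA w.1 := by
    intro w hw
    unfold trl at hw
    rw [List.mem_map] at hw
    obtain ⟨a, ha, rfl⟩ := hw
    exact (hmemA a ha).tau W.τ0
  have hlast : W0.getLast? = some (P.z d, R.p L) := by
    rw [hW0, P.sp_last W.set W.odd, W.hoJ]
  have hhead : W0.head? = some (P.z 0, R.p L) := P.sp_head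
  have hhead' : (trl τ W0).head? = some (P.z 0 + τ, R.p L) := by
    unfold trl
    rw [List.head?_map, hhead]; rfl
  have hlast' : (trl τ W0).getLast? = some (P.z d + τ, R.p L) := by
    unfold trl
    rw [List.getLast?_map, hlast]; rfl
  have hne : W0 ≠ [] := by
    intro h0; rw [h0] at hhead; simp at hhead
  have hne' : trl τ W0 ≠ [] := by
    intro h0; rw [h0] at hhead'; simp at hhead'
  have hnd : (W0 ++ trl τ W0).Nodup := by
    rw [List.nodup_append]
    refine ⟨P.sp_nodup W.set, trl_nodup _ (P.sp_nodup W.set), ?_⟩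
    intro a ha b hb hab
    subst hab
    exact hmemB a hb (hmemA a ha)
  have hch : (W0 ++ trl τ W0).IsChain (Hg (h + 1) □ G).Adj := by
    rw [List.isChain_append]
    refine ⟨P.sp_chain W.set, trl_chain _ (P.sp_chain W.set), ?_⟩
    intro a ha b hb
    rw [hlast, Option.mem_some_iff] at ha
    rw [hhead', Option.mem_some_iff] at hb
    subst ha hb
    rw [boxProd_adj]
    exact Or.inl ⟨⟨0, W.close⟩, rfl⟩
  have hhd : (W0 ++ trl τ W0).head? = some (P.z 0, R.p L) := by
    rw [List.head?_append_of_ne_nil _ hne]; exact hhead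
  have hla : (W0 ++ trl τ W0).getLast? = some (P.z d + τ, R.p L) := by
    rw [List.getLast?_append_of_ne_nil _ hne']; exact hlast'
  have hcl : (Hg (h + 1) □ G).Adj (P.z d + τ, R.p L) (P.z 0, R.p L) := by
    rw [boxProd_adj]
    refine Or.inl ⟨⟨0, ?_⟩, rfl⟩
    have h1 := W.close.add τ
    have h2 : P.z 0 + τ + τ = P.z 0 := by rw [add_assoc, W.ττ, add_zero]
    rwa [h2] at h1
  have huv : Nb (P.z (P.μ i1), x0) (P.z (P.μ i1 + 1), x0) (W0 ++ trl τ W0) :=
    (P.sp_nb_tog W.set W.hi1 W.x0S).append_left _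
  obtain ⟨Q, q1, q2, q3, q4, q5, q6, q7, q8⟩ := cyc_cut hnd hch hhd hla hcl huv
  have hzQ : (P.z 0, x0) ∉ Q := by
    rw [q4, List.mem_append]
    rintro (h1 | h1)
    · rcases P.sp_mem W.set h1 with ⟨_, h2 | ⟨i, _, h3, h4⟩⟩ | ⟨m, h2, h3, h4⟩
      · exact W.x0B h2
      · exact W.x0p i h3 h4.symm
      · have := P.inj 0 m (Nat.zero_le _) h3 h4
        omega
    · exact hmemB _ h1 (W.inA 0 (Nat.zero_le _))
  have hQ : ∃ t, Q = (P.z (P.μ i1), x0) :: t := by
    rw [List.head?_eq_some_iff] at q5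
    exact q5
  have hadj0 : (Hg (h + 1) □ G).Adj (P.z 0, x0) (P.z (P.μ i1), x0) := by
    rw [boxProd_adj]
    exact Or.inl ⟨⟨i1, W.st1⟩, rfl⟩
  have hz00 : (P.z (P.μ i1) - P.z 0) 0 = 0 := by
    rw [Pi.sub_apply]
    rcases W.st1 with h1 | h1
    · rw [h1, Pi.add_apply, Pi.single_eq_of_ne W.i10.symm]; ring
    · rw [h1, Pi.add_apply, Pi.single_eq_of_ne W.i10.symm]; ring
  -- covering by `A`-translates
  have key : ∀ a b, Nb a b (W0 ++ trl τ W0) → ∀ γ, InA γ → ∃ γ', InA γ' ∧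
      Nb (a.1 + γ, a.2) (b.1 + γ, b.2) (trl γ' ((P.z 0, x0) :: Q)) := by
    intro a b hab γ hγ
    have h0 : InA (γ + (P.z (P.μ i1) - P.z 0)) := by
      unfold InA
      rw [Pi.add_apply, hz00, add_zero]
      exact hγ
    have h1 : Nb (P.z 0, x0) (P.z (P.μ i1), x0) ((P.z 0, x0) :: Q) := by
      obtain ⟨t, rfl⟩ := hQ
      exact nb_head _ _ _
    have h2 := trl_nb (γ + (P.z (P.μ i1) - P.z 0)) h1
    have h3 : P.z 0 + (γ + (P.z (P.μ i1) - P.z 0)) = P.z (P.μ i1) + γ := by abel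
    have h4 : P.z (P.μ i1) + (γ + (P.z (P.μ i1) - P.z 0)) = P.z (P.μ i1 + 1) + γ := by
      rw [← W.st2]; abel
    rw [h3, h4] at h2
    rcases q7 a b hab with h5 | ⟨rfl, rfl⟩ | ⟨rfl, rfl⟩
    · exact ⟨γ, hγ, trl_nb γ (h5.cons _)⟩
    · exact ⟨_, h0, h2⟩
    · exact ⟨_, h0, h2.symm⟩
  have hττ' : ∀ z γ : Ht (h + 1), z + τ + (γ + τ) = z + γ := by
    intro z γ
    have : z + τ + (γ + τ) = z + γ + (τ + τ) := by abel
    rw [this, W.ττ, add_zero]
  refine ⟨(P.z 0, x0) :: Q, ?_, ?_, ?_, ?_, ?_⟩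
  · rw [List.nodup_cons]; exact ⟨hzQ, q1⟩
  · obtain ⟨t, rfl⟩ := hQ
    exact List.IsChain.cons_cons hadj0 q2
  · rw [List.length_cons, q3, List.length_append, trl_length, hW0, P.sp_length W.set, W.len]
    ring
  · intro a b hab γ
    rcases InA.or_tau γ W.τ0 with h1 | h1
    · exact key a b (hab.append_left _) γ h1
    · have h2 := key _ _ ((trl_nb τ hab).append_right W0) _ h1
      simp only [hττ'] at h2
      exact h2
  · intro γ
    rcases InA.or_tau γ W.τ0 with h1 | h1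
    · exact key _ _ (nb_junction hlast hhead') γ h1
    · refine ⟨_, h1, ?_⟩
      have h2 := trl_nb (γ + τ) (q8.cons (P.z 0, x0))
      rw [hττ'] at h2
      have h3 : P.z 0 + τ + γ = P.z 0 + (γ + τ) := by abel
      rw [h3]
      exact h2

end

/-- Conditions for the translated part of the family. -/
structure VFam {h L M : ℕ} {V : Type} {G : SimpleGraph V} (R : HR G L M)
    (S : Fin h → Finset V) (IV : Finset (Fin h)) (c : ℕ → Fin h) (o q k : ℕ)
    (v : ℕ → List (Ht h × V)) : Prop where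
  nodup : ∀ g < q, (v g).Nodup
  chain : ∀ g < q, (v g).IsChain (Hg h □ G).Adj
  length : ∀ g < q, (v g).length = k + 1
  F : ∀ j < o, ∀ x x', Nb x x' (R.F j) → ∃ g < q, ∃ y, Nb (y, x) (y, x') (v g)
  p : ∀ j < o, ∃ g < q, ∃ y, Nb (y, R.p j) (y, R.p (j + 1)) (v g)
  conn : ∀ j < o, ∃ g < q, ∃ y y', Stp (c j) y y' ∧ Nb (y, R.p j) (y', R.p j) (v g)
  tog : ∀ i ∈ IV, ∀ x ∉ S i, ∃ g < q, ∃ y y', Stp i y y' ∧ Nb (y, x) (y', x) (v g)

theorem caseO {h d L M : ℕ} {P : HPath (h + 1) d} {V : Type} [DecidableEq V] {G : SimpleGraph V}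
    {R : HR G L M} {S : Fin (h + 1) → Finset V} {B : Finset V} {o J : ℕ} {τ : Ht (h + 1)}
    {i1 : Fin (h + 1)} {x0 : V} (W : WOK P R S B o J τ i1 x0) {IV : Finset (Fin (h + 1))}
    {c : ℕ → Fin (h + 1)} {q : ℕ} {v : ℕ → List (Ht (h + 1) × V)}
    (F : VFam R S IV c o q (2 * (d * M)) v)
    (hc : ∀ j < J, c (o + j) = P.κ (ms P.Mu j - 1)) (hcL : c L = 0)
    (hS : ∀ i x, x ∈ S i → (∃ j ≤ L, c j = i ∧ R.p j = x) ∨ (i = 0 ∧ x ∈ B))
    (hI : ∀ i, i ∈ P.I ∨ i ∈ IV) (hB : B.Nonempty → Stp 0 (P.z 1) (P.z 0))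
    (hE : (q * 4 ^ (h + 1) + 2 * 4 ^ h) * (2 * (d * M)) = Nat.card (Hg (h + 1) □ G).edgeSet) :
    DecL (Hg (h + 1) □ G) (2 * (d * M)) := by
  obtain ⟨Q, w1, w2, w3, w4, w5⟩ := W.exists_path
  have hoJ := W.hoJ
  refine ⟨(Ht (h + 1) × Fin q) ⊕ (Bool × Ht h), inferInstance,
    Sum.elim (fun p => trl p.1 (v p.2)) (fun p => trl (aEl p) Q), ?_, ?_, ?_, ?_, ?_⟩
  · rintro (p | p)
    · rw [Sum.elim_inl, trl_length]; exact F.length _ p.2.2
    · rw [Sum.elim_inr, trl_length]; exact w3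
  · rintro (p | p)
    · exact trl_nodup _ (F.nodup _ p.2.2)
    · exact trl_nodup _ w1
  · rintro (p | p)
    · exact trl_chain _ (F.chain _ p.2.2)
    · exact trl_chain _ w2
  · have keyV : ∀ (g : ℕ) (hg : g < q) (a b : Ht (h + 1) × V) (γ : Ht (h + 1)),
        Nb a b (trl γ (v g)) →
        ∃ p : (Ht (h + 1) × Fin q) ⊕ (Bool × Ht h), Nb a b
          (Sum.elim (fun p => trl p.1 (v p.2)) (fun p => trl (aEl p) Q) p) :=
      fun g hg a b γ hn => ⟨Sum.inl (γ, ⟨g, hg⟩), hn⟩
    have keyA : ∀ (a b : Ht (h + 1) × V), (∃ γ, InA γ ∧ Nb a b (trl γ Q)) →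
        ∃ p : (Ht (h + 1) × Fin q) ⊕ (Bool × Ht h), Nb a b
          (Sum.elim (fun p => trl p.1 (v p.2)) (fun p => trl (aEl p) Q) p) := by
      rintro a b ⟨γ, h1, h2⟩
      obtain ⟨p, rfl⟩ := h1.exists
      exact ⟨Sum.inr p, h2⟩
    have keyW : ∀ (i : Fin (h + 1)) (y y' y0 y0' : Ht (h + 1)) (x : V), Stp i y y' →
        Stp i y0 y0' → Nb (y0, x) (y0', x) (P.sp R S B o L J) →
        ∃ p : (Ht (h + 1) × Fin q) ⊕ (Bool × Ht h), Nb (y, x) (y', x)
          (Sum.elim (fun p => trl p.1 (v p.2)) (fun p => trl (aEl p) Q) p) := by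
      intro i y y' y0 y0' x H H0 hn
      rcases H with H | H <;> rcases H0 with H0 | H0
      · have h1 := w4 _ _ hn (y - y0)
        have h2 : y0 + (y - y0) = y := by abel
        have h3 : y0' + (y - y0) = y' := by rw [H, H0]; abel
        simp only [h2, h3] at h1
        exact keyA _ _ h1
      · have h1 := w4 _ _ hn.symm (y - y0')
        have h2 : y0' + (y - y0') = y := by abel
        have h3 : y0 + (y - y0') = y' := by rw [H, H0]; abel
        simp only [h2, h3] at h1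
        exact keyA _ _ h1
      · have h1 := w4 _ _ hn.symm (y' - y0)
        have h2 : y0 + (y' - y0) = y' := by abel
        have h3 : y0' + (y' - y0) = y := by rw [H, H0]; abel
        simp only [h2, h3] at h1
        exact keyA _ _ h1
      · have h1 := w4 _ _ hn (y' - y0')
        have h2 : y0' + (y' - y0') = y' := by abel
        have h3 : y0 + (y' - y0') = y := by rw [H, H0]; abel
        simp only [h2, h3] at h1
        exact keyA _ _ h1
    have keyS : ∀ (y y0 : Ht (h + 1)) (x x' : V), Nb (y0, x) (y0, x') (P.sp R S B o L J) →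
        ∃ p : (Ht (h + 1) × Fin q) ⊕ (Bool × Ht h), Nb (y, x) (y, x')
          (Sum.elim (fun p => trl p.1 (v p.2)) (fun p => trl (aEl p) Q) p) := by
      intro y y0 x x' hn
      have h1 := w4 _ _ hn (y - y0)
      have h2 : y0 + (y - y0) = y := by abel
      simp only [h2] at h1
      exact keyA _ _ h1
    rintro ⟨y, x⟩ ⟨y', x'⟩ hadj
    rw [boxProd_adj] at hadj
    rcases hadj with ⟨⟨i, h1⟩, h2⟩ | ⟨h1, h2⟩
    · change x = x' at h2
      change Stp i y y' at h1
      subst h2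
      by_cases hx : x ∈ S i
      · rcases hS i x hx with ⟨j, hj, hcj, rfl⟩ | ⟨rfl, hxB⟩
        · by_cases hjo : j < o
          · obtain ⟨g, hg, y0, y0', hs0, hn⟩ := F.conn j hjo
            rw [hcj] at hs0
            obtain ⟨γ, hγ⟩ := trl_cover_stp h1 hs0 hn
            exact keyV g hg _ _ γ hγ
          · by_cases hjL : j = L
            · subst hjL
              rw [hcL] at hcj
              subst hcj
              rcases h1 with H | H <;> rcases W.close with H0 | H0
              · have h1 := w5 (y - P.z d)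
                have h2 : P.z d + (y - P.z d) = y := by abel
                have h3 : P.z 0 + τ + (y - P.z d) = y' := by rw [H, H0]; abel
                simp only [h2, h3] at h1
                exact keyA _ _ h1
              · have h1 := w5 (y - (P.z 0 + τ))
                have h2 : P.z 0 + τ + (y - (P.z 0 + τ)) = y := by abel
                have h3 : P.z d + (y - (P.z 0 + τ)) = y' := by rw [H, H0]; abel
                simp only [h2, h3] at h1
                obtain ⟨γ', h4, h5⟩ := h1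
                exact keyA _ _ ⟨γ', h4, h5.symm⟩
              · have h1 := w5 (y' - P.z d)
                have h2 : P.z d + (y' - P.z d) = y' := by abel
                have h3 : P.z 0 + τ + (y' - P.z d) = y := by rw [H, H0]; abel
                simp only [h2, h3] at h1
                obtain ⟨γ', h4, h5⟩ := h1
                exact keyA _ _ ⟨γ', h4, h5.symm⟩
              · have h1 := w5 (y' - (P.z 0 + τ))
                have h2 : P.z 0 + τ + (y' - (P.z 0 + τ)) = y' := by abel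
                have h3 : P.z d + (y' - (P.z 0 + τ)) = y := by rw [H, H0]; abel
                simp only [h2, h3] at h1
                exact keyA _ _ h1
            · obtain ⟨j', rfl⟩ : ∃ j', j = o + j' := ⟨j - o, by omega⟩
              have hj' : j' < J := by omega
              rw [hc j' hj'] at hcj
              have h3 : ms P.Mu j' < ms P.Mu J := ms_strictMono hj'
              rw [W.set.hJ] at h3
              have h4 := ms_pos (Mu := P.Mu) j'
              have h5 := P.sp_nb_conn W.set hj'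
              have h6 := P.stp (ms P.Mu j' - 1) (by omega)
              rw [hcj] at h6
              exact keyW i _ _ _ _ _ h1 h6 h5
        · exact keyW 0 _ _ _ _ _ h1 (hB ⟨x, hxB⟩) (P.sp_nb_bump W.set hxB)
      · rcases hI i with hi | hi
        · have h6 := P.stp (P.μ i) (by have := P.μd i hi; omega)
          rw [P.κμ i hi] at h6
          exact keyW i _ _ _ _ _ h1 h6 (P.sp_nb_tog W.set hi hx)
        · obtain ⟨g, hg, y0, y0', hs0, hn⟩ := F.tog i hi x hx
          obtain ⟨γ, hγ⟩ := trl_cover_stp h1 hs0 hn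
          exact keyV g hg _ _ γ hγ
    · change y = y' at h2
      change G.Adj x x' at h1
      subst h2
      obtain ⟨j, hj, hc'⟩ := R.cover x x' h1
      by_cases hjo : j < o
      · rcases hc' with hc' | ⟨rfl, rfl⟩ | ⟨rfl, rfl⟩
        · obtain ⟨g, hg, y0, hn⟩ := F.F j hjo _ _ hc'
          exact keyV g hg _ _ _ (trl_cover_same y hn)
        · obtain ⟨g, hg, y0, hn⟩ := F.p j hjo
          exact keyV g hg _ _ _ (trl_cover_same y hn)
        · obtain ⟨g, hg, y0, hn⟩ := F.p j hjo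
          exact keyV g hg _ _ _ (trl_cover_same y hn.symm)
      · rcases hc' with hc' | ⟨rfl, rfl⟩ | ⟨rfl, rfl⟩
        · obtain ⟨y0, hn⟩ := P.sp_nb_F (S := S) (B := B) W.set (j := j) (by omega) (by omega) hc'
          exact keyS y y0 _ _ hn
        · exact keyS y _ _ _ (P.sp_nb_p (by omega) hj)
        · exact keyS y _ _ _ (P.sp_nb_p (by omega) hj).symm
  · rw [← hE, Fintype.card_sum, Fintype.card_prod, Fintype.card_prod, Fintype.card_fin,
      Fintype.card_fun, Fintype.card_fun, ZMod.card, Fintype.card_fin, Fintype.card_fin,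
      Fintype.card_bool]
    ring

end Pool.Agent.Lib.MP_7b50be_co
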