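import Mathlib
import Pool.Agent.Lib.MP_7b50be_co.MkPath
import Pool.Agent.Lib.MP_7b50be_co.CaseO

set_option autoImplicit false
set_option linter.unusedSimpArgs false

namespace Pool.Agent.Lib.MP_7b50be_co

open SimpleGraph

/-- The index of the code. -/
def uO (m t : ℕ) : ℕ :=
  if t ≤ 1 then 0 else if t ≤ 2 then 1 else if t ≤ m + 1 then t - 2 else 2 * m + 1 - t

/-- The first coordinate. -/
def bO (m t : ℕ) : ZMod 4 := if t = 0 then 0 else if t ≤ 2 then 1 else if t ≤ m + 1 then 0 else 1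

/-- The path of heights. -/
def zO (h m t : ℕ) : Ht (h + 2) := Fin.cons (bO m t) (gry (h + 1) (uO m t))

lemma bO_cases (m t : ℕ) : bO m t = 0 ∨ bO m t = 1 := by
  unfold bO; split_ifs <;> simp

lemma gry_two (h : ℕ) (j : Fin (h + 1)) : gry (h + 1) 2 j = if j = 0 then 2 else 0 := by
  unfold gry
  refine Fin.cases ?_ (fun j' => ?_) j
  · rw [if_pos rfl, Fin.val_zero, pow_zero, Nat.div_one]; rfl
  · rw [if_neg (Fin.succ_ne_zero j')]
    have h1 : 4 ≤ 4 ^ ((Fin.succ j' : Fin (h + 1)) : ℕ) := by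
      rw [Fin.val_succ]
      calc 4 = 4 ^ 1 := by norm_num
        _ ≤ _ := Nat.pow_le_pow_right (by omega) (by omega)
    rw [Nat.div_eq_of_lt (by omega)]; rfl

lemma gry_one (h : ℕ) (j : Fin (h + 1)) : gry (h + 1) 1 j = if j = 0 then 1 else 0 := by
  unfold gry
  refine Fin.cases ?_ (fun j' => ?_) j
  · rw [if_pos rfl, Fin.val_zero, pow_zero, Nat.div_one]; rfl
  · rw [if_neg (Fin.succ_ne_zero j')]
    have h1 : 4 ≤ 4 ^ ((Fin.succ j' : Fin (h + 1)) : ℕ) := by
      rw [Fin.val_succ]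
      calc 4 = 4 ^ 1 := by norm_num
        _ ≤ _ := Nat.pow_le_pow_right (by omega) (by omega)
    rw [Nat.div_eq_of_lt (by omega)]; rfl

lemma zO_step0 {h m t : ℕ} (hm : 3 ≤ m) (ht : t = 0 ∨ t = 2 ∨ t = m + 1) :
    Stp 0 (zO h m t) (zO h m (t + 1)) := by
  unfold zO
  rcases ht with rfl | rfl | rfl
  · have h1 : uO m (0 + 1) = uO m 0 := by unfold uO; rw [if_pos (by omega), if_pos (by omega)]
    rw [h1]
    apply stp_cons0
    unfold bO
    rw [if_pos rfl, if_neg (by omega), if_pos (by omega)]; decide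
  · have h1 : uO m (2 + 1) = uO m 2 := by
      unfold uO
      split_ifs <;> omega
    rw [h1]
    apply stp_cons0
    have h3 : bO m (2 + 1) = 0 := by
      unfold bO; rw [if_neg (by omega), if_neg (by omega), if_pos (by omega)]
    have h4 : bO m 2 = 1 := by
      unfold bO; rw [if_neg (by omega), if_pos (by omega)]
    rw [h3, h4]; decide
  · have h1 : uO m (m + 1 + 1) = uO m (m + 1) := by
      unfold uO
      split_ifs <;> omega
    rw [h1]
    apply stp_cons0
    have h3 : bO m (m + 1 + 1) = 1 := by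
      unfold bO; rw [if_neg (by omega), if_neg (by omega), if_neg (by omega)]
    have h4 : bO m (m + 1) = 0 := by
      unfold bO; rw [if_neg (by omega), if_neg (by omega), if_pos (by omega)]
    rw [h3, h4]; decide

lemma zO_steps {h m t : ℕ} {j : Fin (h + 1)} (h1 : t = 1 ∨ (3 ≤ t ∧ t ≤ m) ∨ m + 2 ≤ t)
    (h2 : Stp j (gry (h + 1) (uO m t)) (gry (h + 1) (uO m (t + 1)))) (hm : 3 ≤ m) :
    Stp j.succ (zO h m t) (zO h m (t + 1)) := by
  have h3 : bO m (t + 1) = bO m t := by
    unfold bO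
    rcases h1 with h1 | h1 | h1
    · rw [if_neg (by omega), if_pos (by omega), if_neg (by omega), if_pos (by omega)]
    · rw [if_neg (by omega), if_neg (by omega), if_pos (by omega), if_neg (by omega),
        if_neg (by omega), if_pos (by omega)]
    · rw [if_neg (by omega), if_neg (by omega), if_neg (by omega), if_neg (by omega),
        if_neg (by omega), if_neg (by omega)]
  unfold zO
  rw [h3]
  exact stp_cons_succ _ h2

lemma zO_step_mid {h m t r : ℕ} {j : Fin (h + 1)} (h1 : 3 ≤ t) (h2 : t ≤ m)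
    (hu : t - 1 = 4 ^ (j : ℕ) * r) (hr : ¬ 4 ∣ r) :
    Stp j.succ (zO h m t) (zO h m (t + 1)) := by
  apply zO_steps (Or.inr (Or.inl ⟨h1, h2⟩)) _ (by omega)
  have h3 : uO m t = t - 2 := by
    unfold uO; rw [if_neg (by omega), if_neg (by omega), if_pos (by omega)]
  have h4 : uO m (t + 1) = t - 2 + 1 := by
    unfold uO; rw [if_neg (by omega), if_neg (by omega), if_pos (by omega)]; omega
  rw [h3, h4]
  apply gry_step (r := r) _ hr
  omega

lemma zO_step {h m t : ℕ} (hm : 3 ≤ m) (hm2 : m ≤ 4 ^ (h + 1)) (ht : t + 1 < 2 * m)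
    (h0 : t ≠ 0) (h2 : t ≠ 2) (hm1 : t ≠ m + 1) :
    ∃ j : Fin (h + 1), Stp j.succ (zO h m t) (zO h m (t + 1)) := by
  have h3 : t = 1 ∨ (3 ≤ t ∧ t ≤ m) ∨ m + 2 ≤ t := by omega
  have h4 : ∃ j, Stp j (gry (h + 1) (uO m t)) (gry (h + 1) (uO m (t + 1))) := by
    rcases h3 with h3 | h3 | h3
    · subst h3
      have h5 : uO m 1 = 0 := by unfold uO; rw [if_pos (by omega)]
      have h6 : uO m (1 + 1) = 0 + 1 := by unfold uO; rw [if_neg (by omega), if_pos (by omega)]
      rw [h5, h6]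
      exact gry_step' (by omega)
    · have h5 : uO m t = t - 2 := by
        unfold uO; rw [if_neg (by omega), if_neg (by omega), if_pos (by omega)]
      have h6 : uO m (t + 1) = t - 2 + 1 := by
        unfold uO; rw [if_neg (by omega), if_neg (by omega), if_pos (by omega)]; omega
      rw [h5, h6]
      exact gry_step' (by omega)
    · have h5 : uO m t = 2 * m - t + 1 := by
        unfold uO; rw [if_neg (by omega), if_neg (by omega), if_neg (by omega)]; omega
      have h6 : uO m (t + 1) = 2 * m - t := by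
        unfold uO; rw [if_neg (by omega), if_neg (by omega), if_neg (by omega)]; omega
      rw [h5, h6]
      obtain ⟨j, hj⟩ := gry_step' (h := h + 1) (u := 2 * m - t) (by omega)
      exact ⟨j, hj.symm⟩
  obtain ⟨j, hj⟩ := h4
  exact ⟨j, zO_steps h3 hj hm⟩

lemma zO_inj {h m t t' : ℕ} (_ : 3 ≤ m) (hm2 : m ≤ 4 ^ (h + 1)) (ht : t < 2 * m)
    (ht' : t' < 2 * m) (H : zO h m t = zO h m t') : t = t' := by
  have h1 : bO m t = bO m t' := congrFun H 0
  have h2 : gry (h + 1) (uO m t) = gry (h + 1) (uO m t') := by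
    funext j; exact congrFun H j.succ
  have hu : ∀ s, s < 2 * m → uO m s < 4 ^ (h + 1) := by
    intro s hs
    unfold uO
    split_ifs <;> omega
  have h3 := gry_inj (hu t ht) (hu t' ht') h2
  have h10 : (1 : ZMod 4) ≠ 0 := by decide
  have h01 : (0 : ZMod 4) ≠ 1 := by decide
  unfold uO at h3
  unfold bO at h1
  split_ifs at h1 h3 <;> first | omega | exact absurd h1 h10 | exact absurd h1 h01

/-- Conditions on the path of heights and the shift. -/
structure OKO {h d : ℕ} (P : HPath (h + 2) d) (τ : Ht (h + 2)) : Prop where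
  τ0 : τ 0 = 2
  ττ : τ + τ = 0
  inA : ∀ m ≤ d, InA (P.z m)
  close : Stp 0 (P.z d) (P.z 0 + τ)
  h1 : (1 : Fin (h + 2)) ∈ P.I
  st1 : Stp 1 (P.z 0) (P.z (P.μ 1))
  st2 : P.z (P.μ 1 + 1) - P.z (P.μ 1) = P.z (P.μ 1) - P.z 0
  even : ∀ i, i ≠ 0 → Even ((Finset.range d).filter (fun m => P.κ m = i)).card
  odd : Odd ((Finset.range d).filter (fun m => P.κ m = 0)).card

/-- The toggles. -/
def μO (h m : ℕ) : Fin (h + 2) → ℕ :=
  Fin.cases (m + 1) (Fin.cases 3 (fun j : Fin h => 4 ^ ((j : ℕ) + 1) + 1))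

lemma μO_zero (h m : ℕ) : μO h m 0 = m + 1 := rfl
lemma μO_one (h m : ℕ) : μO h m 1 = 3 := rfl
lemma μO_succ (h m : ℕ) (j : Fin h) : μO h m j.succ.succ = 4 ^ ((j : ℕ) + 1) + 1 := rfl

lemma pow_j {h : ℕ} (j : Fin h) : 4 ≤ 4 ^ ((j : ℕ) + 1) ∧ 4 ^ ((j : ℕ) + 1) ≤ 4 ^ h := by
  constructor
  · calc 4 = 4 ^ 1 := by norm_num
      _ ≤ _ := Nat.pow_le_pow_right (by omega) (by omega)
  · exact Nat.pow_le_pow_right (by omega) (by omega)

lemma fin_cases3 {h : ℕ} (i : Fin (h + 2)) : i = 0 ∨ i = 1 ∨ ∃ j : Fin h, i = j.succ.succ := by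
  refine Fin.cases (Or.inl rfl) (fun i' => ?_) i
  refine Fin.cases (Or.inr (Or.inl rfl)) (fun j => ?_) i'
  exact Or.inr (Or.inr ⟨j, rfl⟩)

lemma zO_μ {h m : ℕ} (hm : 3 ≤ m) (hm3 : 2 * 4 ^ h + 1 ≤ m) (i : Fin (h + 2)) :
    Stp i (zO h m (μO h m i)) (zO h m (μO h m i + 1)) := by
  rcases fin_cases3 i with rfl | rfl | ⟨j, rfl⟩
  · rw [μO_zero]
    exact zO_step0 hm (Or.inr (Or.inr rfl))
  · rw [μO_one]
    exact zO_step_mid (j := 0) (r := 2) (by omega) (by omega) (by simp) (by omega)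
  · rw [μO_succ]
    obtain ⟨h4, h5⟩ := pow_j j
    exact zO_step_mid (j := j.succ) (r := 1) (by omega) (by omega) (by simp) (by omega)

lemma μO_sep {h m : ℕ} (i i' : Fin (h + 2)) (hi : i ≠ 0) (hi' : i' ≠ 0) (hne : i ≠ i') :
    μO h m i + 2 ≤ μO h m i' ∨ μO h m i' + 2 ≤ μO h m i := by
  rcases fin_cases3 i with rfl | rfl | ⟨j, rfl⟩
  · exact absurd rfl hi
  · rcases fin_cases3 i' with rfl | rfl | ⟨j', rfl⟩
    · exact absurd rfl hi'
    · exact absurd rfl hne
    · left
      rw [μO_one, μO_succ]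
      have := pow_j j'
      omega
  · rcases fin_cases3 i' with rfl | rfl | ⟨j', rfl⟩
    · exact absurd rfl hi'
    · right
      rw [μO_one, μO_succ]
      have := pow_j j
      omega
    · have hne' : (j : ℕ) ≠ j' := by
        intro h0; exact hne (by rw [Fin.ext h0])
      rw [μO_succ, μO_succ]
      have := pow_j j
      have := pow_j j'
      have hp : ∀ a b : ℕ, a < b → 4 * 4 ^ (a + 1) ≤ 4 ^ (b + 1) := by
        intro a b hab
        calc 4 * 4 ^ (a + 1) = 4 ^ (a + 1 + 1) := by ring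
          _ ≤ _ := Nat.pow_le_pow_right (by omega) (by omega)
      rcases Nat.lt_or_gt_of_ne hne' with h0 | h0
      · have := hp _ _ h0; left; omega
      · have := hp _ _ h0; right; omega

lemma μO_sep0 {h m : ℕ} (hm3 : 2 * 4 ^ h + 1 ≤ m) (hm4 : 4 ≤ m) (i : Fin (h + 2)) (hi : i ≠ 0) :
    μO h m i + 2 ≤ μO h m 0 := by
  rcases fin_cases3 i with rfl | rfl | ⟨j, rfl⟩
  · exact absurd rfl hi
  · rw [μO_one, μO_zero]; omega
  · rw [μO_succ, μO_zero]
    have := pow_j j
    omega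

lemma μO_ge {h m : ℕ} (hm3 : 3 ≤ m) (i : Fin (h + 2)) : 3 ≤ μO h m i := by
  rcases fin_cases3 i with rfl | rfl | ⟨j, rfl⟩
  · rw [μO_zero]; omega
  · rw [μO_one]
  · rw [μO_succ]
    have := pow_j j
    omega

lemma μO_le {h m : ℕ} (hm3 : 2 * 4 ^ h + 1 ≤ m) (hm : 3 ≤ m) (i : Fin (h + 2)) :
    μO h m i ≤ m + 1 := by
  rcases fin_cases3 i with rfl | rfl | ⟨j, rfl⟩
  · rw [μO_zero]
  · rw [μO_one]; omega
  · rw [μO_succ]
    have := pow_j j
    omega

theorem exists_pathO_aux (h d m : ℕ) (hdm : d + 1 = 2 * m) (h1 : 4 ^ (h + 1) < d)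
    (h2 : d < 2 * 4 ^ (h + 1)) (I : Finset (Fin (h + 2))) (hI : (1 : Fin (h + 2)) ∈ I)
    (hI0 : (0 : Fin (h + 2)) ∈ I → 4 ≤ m) :
    ∃ (P : HPath (h + 2) d) (τ : Ht (h + 2)), OKO P τ ∧ P.I = I ∧
      ((Finset.range d).filter (fun m => P.κ m = 0)).card ≤ 3 ∧ Stp 0 (P.z 0) (P.z 1) ∧
      ¬ P.Mu 1 := by
  have hpow : 4 ^ (h + 1) = 4 * 4 ^ h := by ring
  have hp0 : 1 ≤ 4 ^ h := Nat.pow_pos (by omega)
  have hm : 3 ≤ m := by omega
  have hm2 : m ≤ 4 ^ (h + 1) := by omega
  have hm3 : 2 * 4 ^ h + 1 ≤ m := by omega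
  have hstp : ∀ t < d, ∃ i, Stp i (zO h m t) (zO h m (t + 1)) := by
    intro t ht
    by_cases h0 : t = 0 ∨ t = 2 ∨ t = m + 1
    · exact ⟨0, zO_step0 hm h0⟩
    · obtain ⟨j, hj⟩ := zO_step (h := h) (m := m) (t := t) hm hm2 (by omega) (by omega) (by omega)
        (by omega)
      exact ⟨j.succ, hj⟩
  have hinj : ∀ t t', t ≤ d → t' ≤ d → zO h m t = zO h m t' → t = t' := by
    intro t t' ht ht' htt
    exact zO_inj hm hm2 (by omega) (by omega) htt
  let P : HPath (h + 2) d := mkPath (zO h m) I (μO h m) hstp hinj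
    (fun i _ => zO_μ hm hm3 i) (fun i _ => by have := μO_ge (h := h) hm i; omega)
    (fun i _ => by have := μO_le hm3 hm i; omega)
    (by
      intro i hi i' hi' hne
      by_cases h0 : i = 0
      · subst h0
        right
        exact μO_sep0 hm3 (hI0 hi) i' (fun h0 => hne h0.symm)
      · by_cases h0' : i' = 0
        · subst h0'
          left
          exact μO_sep0 hm3 (hI0 hi') i h0
        · exact μO_sep i i' h0 h0' hne)
  have hz0 : zO h m 0 = 0 := by
    funext i
    refine Fin.cases ?_ (fun j => ?_) i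
    · rfl
    · change gry (h + 1) (uO m 0) j = 0
      have : uO m 0 = 0 := by unfold uO; rw [if_pos (by omega)]
      rw [this, gry_zero]; rfl
  have hbd : bO m d = 1 := by
    unfold bO; rw [if_neg (by omega), if_neg (by omega), if_neg (by omega)]
  have hud : uO m d = 2 := by
    unfold uO; rw [if_neg (by omega), if_neg (by omega), if_neg (by omega)]; omega
  have hu3 : uO m 3 = 1 := by
    unfold uO; rw [if_neg (by omega), if_neg (by omega), if_pos (by omega)]
  have hu4 : uO m 4 = 2 := by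
    unfold uO; rw [if_neg (by omega), if_neg (by omega), if_pos (by omega)]
  have hb3 : bO m 3 = 0 := by
    unfold bO; rw [if_neg (by omega), if_neg (by omega), if_pos (by omega)]
  have hb4 : bO m 4 = 0 := by
    unfold bO; rw [if_neg (by omega), if_neg (by omega), if_pos (by omega)]
  refine ⟨P, Fin.cons 2 (gry (h + 1) 2), ⟨rfl, ?_, ?_, ?_, hI, ?_, ?_, ?_, ?_⟩, rfl, ?_, ?_, ?_⟩
  · funext i
    refine Fin.cases ?_ (fun j => ?_) i
    · rfl
    · rw [Pi.add_apply, Fin.cons_succ, gry_two]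
      split_ifs <;> rfl
  · intro t _
    exact bO_cases m t
  · change Stp 0 (zO h m d) (zO h m 0 + Fin.cons 2 (gry (h + 1) 2))
    rw [hz0, zero_add]
    unfold zO
    rw [hbd, hud]
    exact stp_cons0 _ (Or.inl (by decide))
  · change Stp 1 (zO h m 0) (zO h m 3)
    rw [hz0]
    left
    rw [zero_add]
    funext i
    refine Fin.cases ?_ (fun j => ?_) i
    · unfold zO
      rw [Fin.cons_zero, hb3]
      exact (Pi.single_eq_of_ne (M := fun _ : Fin (h + 2) => ZMod 4)
        (fun h0 => absurd (congrArg Fin.val h0) (by simp)) 1).symm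
    · unfold zO
      rw [Fin.cons_succ, hu3, gry_one]
      by_cases hj : j = 0
      · subst hj
        rw [if_pos rfl]
        exact (Pi.single_eq_same (M := fun _ : Fin (h + 2) => ZMod 4) 1 1).symm
      · rw [if_neg hj, Pi.single_eq_of_ne]
        intro h0
        exact hj (Fin.succ_injective _ h0)
  · change zO h m 4 - zO h m 3 = zO h m 3 - zO h m 0
    rw [hz0]
    funext i
    rw [Pi.sub_apply, Pi.sub_apply, Pi.zero_apply]
    refine Fin.cases ?_ (fun j => ?_) i
    · unfold zO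
      rw [Fin.cons_zero, Fin.cons_zero, hb3, hb4]
    · unfold zO
      rw [Fin.cons_succ, Fin.cons_succ, hu3, hu4, gry_one, gry_two]
      split_ifs <;> rfl
  · intro i hi
    rw [Nat.even_iff, HPath.count_par _ i le_rfl]
    obtain ⟨j, rfl⟩ := Fin.exists_succ_eq.mpr hi
    change ((zO h m d j.succ).val + (zO h m 0 j.succ).val) % 2 = 0
    rw [hz0]
    unfold zO
    rw [Fin.cons_succ, hud, gry_two, Pi.zero_apply]
    split_ifs <;> rfl
  · rw [Nat.odd_iff, HPath.count_par _ 0 le_rfl]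
    change ((zO h m d 0).val + (zO h m 0 0).val) % 2 = 1
    rw [hz0]
    unfold zO
    rw [Fin.cons_zero, hbd, Pi.zero_apply]; rfl
  · have hsub : (Finset.range d).filter (fun t => P.κ t = 0) ⊆ {0, 2, m + 1} := by
      intro t ht
      rw [Finset.mem_filter, Finset.mem_range] at ht
      by_contra hc
      simp only [Finset.mem_insert, Finset.mem_singleton] at hc
      obtain ⟨j, hj⟩ := zO_step (h := h) (m := m) (t := t) hm hm2 (by omega) (by omega) (by omega)
        (by omega)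
      have h3 : P.κ t = j.succ := clsOf_eq hj
      rw [h3] at ht
      exact Fin.succ_ne_zero j ht.2
    exact (Finset.card_le_card hsub).trans Finset.card_le_three
  · exact zO_step0 hm (Or.inl rfl)
  · rintro ⟨i, _, h3⟩
    have : 3 ≤ P.μ i := μO_ge hm i
    omega

end Pool.Agent.Lib.MP_7b50be_co
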