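import Mathlib
import Pool.Agent.Lib.MP_7b50be_co.PathO
import Pool.Agent.Lib.MP_7b50be_co.PathE
import Pool.Agent.Lib.MP_7b50be_co.Pairs

set_option autoImplicit false
set_option linter.unusedSimpArgs false

namespace Pool.Agent.Lib.MP_7b50be_co

open SimpleGraph

section

variable {h d L M : ℕ} {P : HPath (h + 2) d} {V : Type} [DecidableEq V] {G : SimpleGraph V}
    {R : HR G L M} {S : Fin (h + 2) → Finset V} {B : Finset V} {o J : ℕ} {τ : Ht (h + 2)}
    {x0 : V}

lemma mkWOK (OK : OKO P τ) (hJ : ms P.Mu J = d + 1) (hJ1 : 1 ≤ J) (hoJ : o + J = L)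
    (hM : Even M) (hodd : ∀ i ∈ P.I, Odd (S i).card)
    (hB : B = ∅ ∨ (¬ P.Mu 1 ∧ 2 ≤ J ∧ PairT (fun x => decide (x ∈ B)) (R.F o) ∧
      ∀ i, o ≤ i → i ≤ L → R.p i ∉ B))
    (hsum : ∑ i ∈ P.I, (S i).card = (L - o + 1) + B.card)
    (x0S : x0 ∉ S 1) (x0B : x0 ∉ B) (x0p : ∀ j, j ≤ L → R.p j ≠ x0) :
    WOK P R S B o J τ 1 x0 := by
  have hL : 0 < L := by omega
  have hle : ∀ i, (S i).card ≤ M := fun i => R.card_le hL (S i)
  have hodd' : ∀ i ∈ P.I, Odd (M - (S i).card) := fun i hi =>
    Nat.Even.sub_odd (hle i) hM (hodd i hi)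
  have hJc := P.card_J hJ
  refine ⟨⟨hJ, hJ1, by omega, le_rfl, fun i hi _ => hodd' i hi, hB⟩, hoJ, hodd', ?_, OK.τ0, OK.ττ,
    OK.inA, OK.close, OK.h1, ?_, x0S, x0B, x0p, OK.st1, OK.st2⟩
  · have h1 : ∑ i ∈ P.I, (M - (S i).card) + ∑ i ∈ P.I, (S i).card = P.I.card * M := by
      rw [← Finset.sum_add_distrib, Finset.sum_congr rfl (fun i _ => Nat.sub_add_cancel (hle i)),
        Finset.sum_const, smul_eq_mul]
    have h2 : J * M + P.I.card * M = d * M := by rw [← Nat.add_mul, hJc]
    rw [hsum] at h1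
    change (L - o + 1) + J * M + (∑ i ∈ P.I, (M - (S i).card) + B.card) = d * M
    omega
  · intro h0
    exact absurd (congrArg Fin.val h0) (by simp)

lemma sum_split (c : ℕ → Fin (h + 2)) (κ' : ℕ → Fin (h + 2)) (κ : ℕ → Fin (h + 2))
    (hoJ : o + J = L) (h1 : ∀ j < o, c j = κ' j) (h2 : ∀ j < J, c (o + j) = κ j) (h3 : c L = 0)
    (φ : Fin (h + 2) → ℕ) :
    ∑ j ∈ Finset.range (L + 1), φ (c j) =
      ∑ j ∈ Finset.range o, φ (κ' j) + ∑ j ∈ Finset.range J, φ (κ j) + φ 0 := by
  rw [Finset.sum_range_succ, h3, ← hoJ, Finset.sum_range_add]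
  congr 2
  · exact Finset.sum_congr rfl (fun j hj => by rw [h1 j (Finset.mem_range.mp hj)])
  · exact Finset.sum_congr rfl (fun j hj => by rw [h2 j (Finset.mem_range.mp hj)])

end

lemma sum_ind {h n : ℕ} (κ : ℕ → Fin h) (i : Fin h) :
    ∑ m ∈ Finset.range n, (fun i' => if i' = i then 1 else 0) (κ m) =
      ((Finset.range n).filter (fun m => κ m = i)).card := by
  rw [Finset.card_filter]

/-- Case (O) with a single closed trail. -/
theorem asmO_zero {h d L M : ℕ} {V : Type} [DecidableEq V] {G : SimpleGraph V} (R : HR G L M)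
    (P : HPath (h + 2) d) (τ : Ht (h + 2)) (OK : OKO P τ) (hI : P.I = Finset.univ)
    (hL : h + 2 + L = d) (hL1 : 1 ≤ L) (hM : Even M) (hMbig : 3 * L + 3 ≤ M)
    (hE : 4 ^ (h + 2) * (d * M) = Nat.card (Hg (h + 2) □ G).edgeSet) :
    DecL (Hg (h + 2) □ G) (2 * (d * M)) := by
  obtain ⟨J, hJ⟩ := P.exists_J
  have hJc := P.card_J hJ
  rw [hI, Finset.card_univ, Fintype.card_fin] at hJc
  have hJL : J = L := by omega
  let c : ℕ → Fin (h + 2) := fun j => if j < L then P.κ (ms P.Mu j - 1) else 0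
  have hc : ∀ j < J, c (0 + j) = P.κ (ms P.Mu j - 1) := by
    intro j hj
    rw [zero_add]
    change (if j < L then _ else _) = _
    rw [if_pos (by omega)]
  have hcL : c L = 0 := by
    change (if L < L then _ else _) = _
    rw [if_neg (by omega)]
  let S : Fin (h + 2) → Finset V := R.cset c (L + 1)
  have hcnt : ∀ i, (S i).card + 1 = ((Finset.range d).filter (fun m => P.κ m = i)).card +
      if i = 0 then 1 else 0 := by
    intro i
    have h1 := P.sum_conn hJ (fun i' => if i' = i then 1 else 0)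
    rw [hI, Finset.sum_ite_eq' Finset.univ i, if_pos (Finset.mem_univ i), sum_ind P.κ i] at h1
    have h2 := sum_split (o := 0) c (fun _ => 0) (fun j => P.κ (ms P.Mu j - 1))
      (by omega : 0 + J = L) (fun j hj => by omega) hc hcL (fun i' => if i' = i then 1 else 0)
    rw [Finset.sum_range_zero, zero_add] at h2
    have h3 : (S i).card = ∑ j ∈ Finset.range (L + 1), if c j = i then 1 else 0 :=
      R.card_cset' c le_rfl i
    rw [h3, h2]
    have h4 : (if (0 : Fin (h + 2)) = i then 1 else 0) = if i = 0 then 1 else 0 := by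
      by_cases h0 : i = 0
      · rw [if_pos h0, if_pos h0.symm]
      · rw [if_neg h0, if_neg (fun h5 => h0 h5.symm)]
    rw [h4]
    omega
  have hodd : ∀ i, Odd (S i).card := by
    intro i
    have h1 := hcnt i
    by_cases h0 : i = 0
    · subst h0
      rw [if_pos rfl] at h1
      have h2 := OK.odd
      rw [Nat.odd_iff] at h2 ⊢
      omega
    · rw [if_neg h0] at h1
      have h2 := OK.even i h0
      rw [Nat.even_iff] at h2
      rw [Nat.odd_iff]
      omega
  have hpc : ((Finset.range (L + 1)).image R.p).card ≤ L + 1 := by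
    have := Finset.card_image_le (s := Finset.range (L + 1)) (f := R.p)
    rwa [Finset.card_range] at this
  obtain ⟨x0, hx0⟩ := R.exists_notMem (by omega) ((Finset.range (L + 1)).image R.p) (by omega)
  have hx0p : ∀ j, j ≤ L → R.p j ≠ x0 := by
    intro j hj h0
    exact hx0 (Finset.mem_image.mpr ⟨j, Finset.mem_range.mpr (by omega), h0⟩)
  have W : WOK P R S ∅ 0 J τ 1 x0 := by
    apply mkWOK OK hJ (by omega) (by omega) hM (fun i _ => hodd i) (Or.inl rfl)
    · rw [hI, Finset.card_empty, Nat.sub_zero, add_zero]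
      exact R.sum_cset c le_rfl
    · intro h0
      obtain ⟨j, h1, _, h2⟩ := (R.mem_cset c).mp h0
      exact hx0p j (by omega) h2
    · simp
    · exact hx0p
  refine caseO W (IV := ∅) (c := c) (q := 0) (v := fun _ => [])
    ⟨fun g hg => by omega, fun g hg => by omega, fun g hg => by omega, fun j hj => by omega,
      fun j hj => by omega, fun j hj => by omega, fun i hi => by simp at hi⟩ hc hcL ?_ ?_ ?_ ?_
  · intro i x hx
    obtain ⟨j, h1, h2, h3⟩ := (R.mem_cset c).mp hx
    exact Or.inl ⟨j, by omega, h2, h3⟩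
  · intro i
    left; rw [hI]; exact Finset.mem_univ i
  · intro h0; simp at h0
  · rw [← hE]; ring

/-- Case (O) with a chain and a closed trail. -/
theorem asmO_pos {h d q L M : ℕ} {V : Type} [DecidableEq V] {G : SimpleGraph V} (R : HR G L M)
    (hdodd : d % 2 = 1) (h1 : 4 ^ (h + 1) < d) (h2 : d < 2 * 4 ^ (h + 1)) (hq : 1 ≤ q)
    (hL : h + 2 + L = d * (2 * q + 1)) (hM : Even M) (hMbig : 3 * L + 3 ≤ M)
    (hE : 4 ^ (h + 2) * (d * (2 * q + 1) * M) = Nat.card (Hg (h + 2) □ G).edgeSet) :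
    DecL (Hg (h + 2) □ G) (2 * (d * M)) := by
  have hpow : 4 ^ (h + 1 + 1) = 4 * 4 ^ (h + 1) := by ring
  have hhd : h + 3 ≤ d := by
    have : h + 1 < 4 ^ (h + 1) := Nat.lt_pow_self (by omega)
    omega
  obtain ⟨m, hm⟩ : ∃ m, d + 1 = 2 * m := ⟨(d + 1) / 2, by omega⟩
  obtain ⟨P, τ, OK, hI, hc3, hst0, hmu1⟩ := exists_pathO_aux h d m hm h1 h2
    (Finset.univ.erase 0) (by simp) (by simp)
  obtain ⟨V0, hVI, hVμ, hVpar, hVpar0, hVcnt⟩ := exists_pathE (h + 1) (2 * d) (by omega) (by omega)
  let V' : HPath (h + 2) (2 * d) :=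
    { V0 with
      I := {0}
      κμ := fun i _ => V0.κμ i (by rw [hVI]; exact Finset.mem_univ i)
      μ1 := fun i _ => V0.μ1 i (by rw [hVI]; exact Finset.mem_univ i)
      μd := fun i _ => V0.μd i (by rw [hVI]; exact Finset.mem_univ i)
      sep := fun i hi i' hi' hne => by
        rw [Finset.mem_singleton] at hi hi'
        exact absurd (hi.trans hi'.symm) hne }
  have hV'I : V'.I = {0} := rfl
  have hV'κ : V'.κ = V0.κ := rfl
  have hV'μ : V'.μ = V0.μ := rfl
  obtain ⟨J, hJ⟩ := P.exists_J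
  have hJc := P.card_J hJ
  rw [hI, Finset.card_erase_of_mem (Finset.mem_univ _), Finset.card_univ, Fintype.card_fin] at hJc
  obtain ⟨JV, hJV⟩ := V'.exists_J
  have hJVc := V'.card_J hJV
  rw [hV'I, Finset.card_singleton] at hJVc
  obtain ⟨o, ho⟩ : ∃ o, o = JV + (q - 1) * (2 * d) := ⟨_, rfl⟩
  have hq2 : (q - 1) * (2 * d) + 2 * d = 2 * d * q := by
    obtain ⟨n, rfl⟩ : ∃ n, q = n + 1 := ⟨q - 1, by omega⟩
    rw [Nat.add_sub_cancel]; ring
  have hq3 : d * (2 * q + 1) = 2 * d * q + d := by ring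
  have hoJ : o + J = L := by omega
  let c : ℕ → Fin (h + 2) := fun j => if j < o then V'.vcls JV j else
    if j < L then P.κ (ms P.Mu (j - o) - 1) else 0
  have hc1 : ∀ j < o, c j = V'.vcls JV j := by
    intro j hj
    change (if j < o then _ else _) = _
    rw [if_pos hj]
  have hc : ∀ j < J, c (o + j) = P.κ (ms P.Mu j - 1) := by
    intro j hj
    change (if o + j < o then _ else _) = _
    rw [if_neg (by omega), if_pos (by omega), Nat.add_sub_cancel_left]
  have hcL : c L = 0 := by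
    change (if L < o then _ else _) = _
    rw [if_neg (by omega), if_neg (by omega)]
  have hcnt : ∀ i, (R.cset c (L + 1) i).card + 1 =
      q * ((Finset.range (2 * d)).filter (fun m => V0.κ m = i)).card +
      ((Finset.range d).filter (fun m => P.κ m = i)).card + if i = 0 then 1 else 0 := by
    intro i
    have e1 := P.sum_conn hJ (fun i' => if i' = i then 1 else 0)
    rw [hI, Finset.sum_ite_eq' _ i, sum_ind P.κ i] at e1
    have e2 := V'.sum_vcls hJV hq (fun i' => if i' = i then 1 else 0)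
    rw [← ho, hV'I, Finset.sum_singleton, sum_ind V'.κ i, hV'κ] at e2
    have e3 := sum_split c (V'.vcls JV) (fun j => P.κ (ms P.Mu j - 1))
      hoJ hc1 hc hcL (fun i' => if i' = i then 1 else 0)
    have e4 : (R.cset c (L + 1) i).card = ∑ j ∈ Finset.range (L + 1), if c j = i then 1 else 0 :=
      R.card_cset' c le_rfl i
    have e5 : (if (0 : Fin (h + 2)) = i then 1 else 0) = if i = 0 then 1 else 0 := by
      by_cases h0 : i = 0
      · rw [if_pos h0, if_pos h0.symm]
      · rw [if_neg h0, if_neg (fun h5 => h0 h5.symm)]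
    rw [e5] at e2 e3
    by_cases h0 : i = 0
    · rw [if_neg (by rw [h0]; simp)] at e1
      rw [if_pos h0] at e2 e3
      rw [if_pos h0, e4, e3]
      omega
    · rw [if_pos (Finset.mem_erase.mpr ⟨h0, Finset.mem_univ i⟩)] at e1
      rw [if_neg h0] at e2 e3
      rw [if_neg h0, e4, e3]
      omega
  -- the size of the bump set
  have hc0 := hcnt 0
  rw [if_pos rfl] at hc0
  have hEV : ((Finset.range (2 * d)).filter (fun m => V0.κ m = 0)).card +
      ((Finset.range (2 * d)).filter (fun m => V0.κ m ≠ 0)).card = 2 * d := by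
    have := Finset.card_filter_add_card_filter_not (s := Finset.range (2 * d))
      (fun m => V0.κ m = 0)
    rwa [Finset.card_range] at this
  have hEV4 := hVcnt (by omega)
  have hEVpar := hVpar0 ⟨d, by ring⟩
  have hEWpar := OK.odd
  obtain ⟨t, ht⟩ : ∃ t, (R.cset c (L + 1) 0).card + 2 * t = o := by
    generalize ((Finset.range (2 * d)).filter (fun m => V0.κ m = 0)).card = eV at *
    generalize ((Finset.range (2 * d)).filter (fun m => V0.κ m ≠ 0)).card = eV' at *
    generalize ((Finset.range d).filter (fun m => P.κ m = 0)).card = eW at *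
    obtain ⟨a, ha⟩ := hEVpar
    have e1 : q * (eV + 4) ≤ q * (2 * d) := Nat.mul_le_mul_left _ (by omega)
    have e2 : q * (eV + 4) = q * eV + 4 * q := by ring
    have e3 : q * (2 * d) = 2 * d * q := by ring
    have e4 : q * eV = 2 * (q * a) := by rw [ha]; ring
    have e5 : q * (2 * d) = 2 * (q * d) := by ring
    rw [Nat.odd_iff] at hEWpar
    refine ⟨(o - (R.cset c (L + 1) 0).card) / 2, ?_⟩
    omega
  have hpc : ((Finset.range (L + 1)).image R.p).card ≤ L + 1 := by
    have := Finset.card_image_le (s := Finset.range (L + 1)) (f := R.p)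
    rwa [Finset.card_range] at this
  obtain ⟨B, hBc, hBF, hBP⟩ := exists_pairs ((Finset.range (L + 1)).image R.p) (R.F o)
    (R.nodup o (by omega)) t (by
      have := Finset.card_filter_le ((Finset.range (L + 1)).image R.p) (· ∈ R.F o)
      rw [R.len o (by omega)]
      omega)
  have hBp : ∀ j, j ≤ L → R.p j ∉ B := by
    intro j hj h0
    exact (hBF _ h0).2 (Finset.mem_image.mpr ⟨j, Finset.mem_range.mpr (by omega), rfl⟩)
  obtain ⟨x0, hx0⟩ := R.exists_notMem (by omega) ((Finset.range (L + 1)).image R.p ∪ B) (by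
    have := Finset.card_union_le ((Finset.range (L + 1)).image R.p) B
    omega)
  rw [Finset.mem_union, not_or] at hx0
  have hx0p : ∀ j, j ≤ L → R.p j ≠ x0 := by
    intro j hj h0
    exact hx0.1 (Finset.mem_image.mpr ⟨j, Finset.mem_range.mpr (by omega), h0⟩)
  let S : Fin (h + 2) → Finset V := fun i => if i = 0 then R.cset c (L + 1) 0 ∪ B else
    R.cset c (L + 1) i
  have hS0 : S 0 = R.cset c (L + 1) 0 ∪ B := if_pos rfl
  have hSi : ∀ i, i ≠ 0 → S i = R.cset c (L + 1) i := fun i hi => if_neg hi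
  have hS0c : (S 0).card = o := by
    rw [hS0, Finset.card_union_of_disjoint, hBc, ht]
    rw [Finset.disjoint_left]
    intro x hx hx'
    obtain ⟨j, e1, _, rfl⟩ := (R.mem_cset c).mp hx
    exact hBp j (by omega) hx'
  have hIne : ∀ i ∈ P.I, i ≠ 0 := by
    intro i hi
    rw [hI] at hi
    exact (Finset.mem_erase.mp hi).1
  have hodd : ∀ i ∈ P.I, Odd (S i).card := by
    intro i hi
    have h0 := hIne i hi
    rw [hSi i h0]
    have e1 := hcnt i
    rw [if_neg h0] at e1
    have e2 := OK.even i h0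
    have e3 := (hVpar i h0).mul_left q
    rw [Nat.even_iff] at e2 e3
    rw [Nat.odd_iff]
    omega
  have hsum : ∑ i ∈ P.I, (S i).card = (L - o + 1) + B.card := by
    have e1 := R.sum_cset c (le_refl (L + 1))
    rw [← Finset.add_sum_erase _ _ (Finset.mem_univ (0 : Fin (h + 2)))] at e1
    rw [hI]
    have e2 : ∑ i ∈ Finset.univ.erase (0 : Fin (h + 2)), (S i).card =
        ∑ i ∈ Finset.univ.erase (0 : Fin (h + 2)), (R.cset c (L + 1) i).card := by
      apply Finset.sum_congr rfl
      intro i hi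
      rw [hSi i (Finset.mem_erase.mp hi).1]
    rw [e2, hBc]
    omega
  have W : WOK P R S B o J τ 1 x0 := by
    apply mkWOK OK hJ (by omega) hoJ hM hodd
      (Or.inr ⟨hmu1, by omega, hBP, fun i _ hi => hBp i hi⟩) hsum
    · rw [hSi 1 (fun h0 => absurd (congrArg Fin.val h0) (by simp))]
      intro h0
      obtain ⟨j, e1, _, e2⟩ := (R.mem_cset c).mp h0
      exact hx0p j (by omega) e2
    · exact hx0.2
    · exact hx0p
  have VOK' : V'.VOK L M S JV q := by
    refine ⟨hJV, by omega, hq, by omega, ?_, ?_⟩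
    · intro i hi hi2
      rw [hV'I, Finset.mem_singleton] at hi
      subst hi
      rw [hV'μ] at hi2
      omega
    · rw [hV'I, Finset.sum_singleton, hS0c]; exact ho
  have hVF : VFam R S {0} c o q (2 * (d * M)) (V'.vw R S JV q) := by
    refine ⟨fun g hg => V'.vw_nodup VOK' hg, fun g hg => V'.vw_chain VOK' hg, ?_, ?_, ?_, ?_, ?_⟩
    · intro g hg
      rw [V'.vw_length VOK' hg]; ring
    · intro j hj x x' hx
      rw [ho] at hj
      exact V'.vw_F VOK' hj hx
    · intro j hj
      rw [ho] at hj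
      exact V'.vw_p VOK' hj
    · intro j hj
      rw [hc1 j hj]
      rw [ho] at hj
      exact V'.vw_conn VOK' hj
    · intro i hi x hx
      exact V'.vw_tog VOK' hi hx
  refine caseO W hVF hc hcL ?_ ?_ ?_ ?_
  · intro i x hx
    by_cases h0 : i = 0
    · subst h0
      rw [hS0, Finset.mem_union] at hx
      rcases hx with hx | hx
      · obtain ⟨j, e1, e2, e3⟩ := (R.mem_cset c).mp hx
        exact Or.inl ⟨j, by omega, e2, e3⟩
      · exact Or.inr ⟨rfl, hx⟩
    · rw [hSi i h0] at hx
      obtain ⟨j, e1, e2, e3⟩ := (R.mem_cset c).mp hx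
      exact Or.inl ⟨j, by omega, e2, e3⟩
  · intro i
    by_cases h0 : i = 0
    · right; rw [h0]; simp
    · left; rw [hI]; simp [h0]
  · intro _
    exact hst0.symm
  · rw [← hE]; ring

end Pool.Agent.Lib.MP_7b50be_co
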