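import Mathlib
import Pool.Agent.Lib.MP_7b50be_co.HR

set_option autoImplicit false
set_option linter.unusedSimpArgs false

namespace Pool.Agent.Lib.MP_7b50be_co

open Equiv SimpleGraph

/-- Iterated products of `ZMod 4`. -/
def BV : ℕ → Type
  | 0 => ZMod 4
  | n + 1 => BV n × ZMod 4

/-- Iterated box products of the 4-cycle. -/
def BG : (n : ℕ) → SimpleGraph (BV n)
  | 0 => C4
  | n + 1 => BG n □ C4

instance finite_BV (n : ℕ) : Finite (BV n) := by
  induction n with
  | zero => exact inferInstanceAs (Finite (ZMod 4))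
  | succ n ih => exact inferInstanceAs (Finite (BV n × ZMod 4))

theorem HD_all (n : ℕ) : Nonempty (HD (BG (n + 2)) (n + 2) (4 ^ (n + 3))) := by
  classical
  induction n with
  | zero => exact base3
  | succ n ih =>
    obtain ⟨D⟩ := ih
    have := D.step (by omega)
    have h : 4 * 4 ^ (n + 3) = 4 ^ (n + 1 + 3) := by ring
    rw [h] at this
    exact this

/-- The listing of the 4-cycle. -/
def f0 (q : ℕ) : ZMod 4 := (q : ZMod 4)

lemma f0_isListing : IsListing C4 4 f0 := by
  refine ⟨by omega, ?_, ?_, ?_, ?_⟩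
  · intro q
    unfold f0
    rw [ZMod.natCast_eq_natCast_iff']; omega
  · intro q q' hq hq' h
    unfold f0 at h
    rw [ZMod.natCast_eq_natCast_iff'] at h; omega
  · intro w
    exact ⟨w.val, ZMod.val_lt w, ZMod.natCast_zmod_val w⟩
  · intro q
    left
    unfold f0
    push_cast; rfl

theorem HR_zero : Nonempty (HR C4 1 4) := by
  apply HR.ofListings (fun _ => f0) (fun i => (i : ZMod 4))
  · intro j hj; exact f0_isListing
  · intro i i' hi hi' h
    rw [ZMod.natCast_eq_natCast_iff'] at h; omega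
  · intro j hj
    have : j = 0 := by omega
    subst this
    exact ⟨0, Or.inl ⟨by decide, by decide⟩⟩
  · intro x y hxy
    refine ⟨0, by omega, ?_⟩
    rcases hxy with h | h
    · refine ⟨x.val, Or.inl ⟨ZMod.natCast_zmod_val x, ?_⟩⟩
      unfold f0
      push_cast
      rw [ZMod.natCast_zmod_val, h]
    · refine ⟨y.val, Or.inr ⟨ZMod.natCast_zmod_val y, ?_⟩⟩
      unfold f0
      push_cast
      rw [ZMod.natCast_zmod_val, h]

theorem HR_one : Nonempty (HR (C4 □ C4) 2 16) := by
  have hX : IsListing (C4 □ C4) 16 (Xl f0) := Xl_isListing f0_isListing (by decide)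
  have hY : IsListing (C4 □ C4) 16 (Yl f0) := Yl_isListing f0_isListing (by decide) (by decide)
  have h4 : (4 : ℕ) ∣ 4 := dvd_rfl
  have h3 : Nat.Coprime 3 4 := by decide
  apply HR.ofListings (fun j => if j = 0 then Xl f0 else Yl f0)
    (fun i => if i = 0 then ((0 : ZMod 4), (0 : ZMod 4)) else if i = 1 then (0, 1) else (1, 1))
  · intro j hj
    by_cases h0 : j = 0
    · rw [if_pos h0]; exact hX
    · rw [if_neg h0]; exact hY
  · intro i i' hi hi'
    interval_cases i <;> interval_cases i' <;> decide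
  · intro j hj
    interval_cases j
    · refine ⟨0, Or.inl ⟨by decide, by decide⟩⟩
    · have hu : (((0 : ℕ) : ZMod 4) + 1).val ≠ 3 := by decide
      obtain ⟨t, h1, h2⟩ := Y_h f0_isListing h4 h3 hu
      refine ⟨t, Or.inl ⟨?_, ?_⟩⟩
      · rw [if_neg (by decide), h1]; decide
      · rw [if_neg (by decide), h2]; decide
  · have cov1 : ∀ (x ℓ : ZMod 4), ∃ j < 2, ∃ r,
        ((fun j => if j = 0 then Xl f0 else Yl f0) j r = (x, ℓ) ∧
        (fun j => if j = 0 then Xl f0 else Yl f0) j (r + 1) = (x + 1, ℓ)) := by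
      intro x ℓ
      obtain ⟨q, _, rfl⟩ := f0_isListing.surj x
      have hq : f0 q + 1 = f0 (q + 1) := by unfold f0; push_cast; rfl
      rw [hq]
      by_cases hu : ((q : ZMod 4) + ℓ).val = 3
      · obtain ⟨h1, h2⟩ := X_h (c := f0) hu
        exact ⟨0, by omega, _, by simpa using h1, by simpa using h2⟩
      · obtain ⟨t, h1, h2⟩ := Y_h f0_isListing h4 h3 hu
        exact ⟨1, by omega, t, by simpa using h1, by simpa using h2⟩
    have cov2 : ∀ (x ℓ : ZMod 4), ∃ j < 2, ∃ r,
        ((fun j => if j = 0 then Xl f0 else Yl f0) j r = (x, ℓ) ∧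
        (fun j => if j = 0 then Xl f0 else Yl f0) j (r + 1) = (x, ℓ + 1)) := by
      intro x ℓ
      obtain ⟨q, _, rfl⟩ := f0_isListing.surj x
      by_cases hu : ((q : ZMod 4) + ℓ).val = 3
      · obtain ⟨t, h1, h2⟩ := Y_v f0_isListing h4 h3 hu
        exact ⟨1, by omega, t, by simpa using h1, by simpa using h2⟩
      · obtain ⟨h1, h2⟩ := X_v (c := f0) hu
        exact ⟨0, by omega, _, by simpa using h1, by simpa using h2⟩
    rintro ⟨x, ℓ⟩ ⟨x', ℓ'⟩ h
    rw [boxProd_adj] at h
    rcases h with ⟨h1, h2⟩ | ⟨h1, h2⟩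
    · change x' = x + 1 ∨ x = x' + 1 at h1
      change ℓ = ℓ' at h2
      subst h2
      rcases h1 with rfl | rfl
      · obtain ⟨j, hj, r, h⟩ := cov1 x ℓ
        exact ⟨j, hj, r, Or.inl h⟩
      · obtain ⟨j, hj, r, h⟩ := cov1 x' ℓ
        exact ⟨j, hj, r, Or.inr h⟩
    · change ℓ' = ℓ + 1 ∨ ℓ = ℓ' + 1 at h1
      change x = x' at h2
      subst h2
      rcases h1 with rfl | rfl
      · obtain ⟨j, hj, r, h⟩ := cov2 x ℓ
        exact ⟨j, hj, r, Or.inl h⟩
      · obtain ⟨j, hj, r, h⟩ := cov2 x ℓ'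
        exact ⟨j, hj, r, Or.inr h⟩

theorem HR_all (n : ℕ) : Nonempty (HR (BG n) (n + 1) (4 ^ (n + 1))) := by
  match n with
  | 0 => exact HR_zero
  | 1 => exact HR_one
  | n + 2 =>
    obtain ⟨D⟩ := HD_all n
    exact D.toHR

end Pool.Agent.Lib.MP_7b50be_co
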