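import Mathlib
import Pool.Agent.Lib.MP_7b50be_co.Trans

set_option autoImplicit false
set_option linter.unusedSimpArgs false

namespace Pool.Agent.Lib.MP_7b50be_co

open SimpleGraph

/-- Case (E): a path of heights in which all the classes have a toggle. -/
theorem caseE {h d s L M : ℕ} {V : Type} [DecidableEq V] {G : SimpleGraph V} (R : HR G L M)
    (P : HPath (h + 1) d) (hI : P.I = Finset.univ) (hμ : P.μ 0 + 1 = d)
    (hpar : ∀ i, i ≠ 0 → Even ((Finset.range d).filter (fun m => P.κ m = i)).card)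
    (hs : 1 ≤ s) (hL : h + 1 + L = d * s) (hd : h + 1 < d) (hM : Even M)
    (hE : 4 ^ (h + 1) * (d * s * M) = Nat.card (Hg (h + 1) □ G).edgeSet) :
    DecL (Hg (h + 1) □ G) (d * M) := by
  obtain ⟨J, hJ⟩ := P.exists_J
  have hJc := P.card_J hJ
  rw [hI, Finset.card_univ, Fintype.card_fin] at hJc
  have hLe : J + (s - 1) * d = L := by
    obtain ⟨n, rfl⟩ : ∃ n, s = n + 1 := ⟨s - 1, by omega⟩
    rw [Nat.add_sub_cancel]
    have : d * (n + 1) = n * d + d := by ring
    omega
  have hL0 : 0 < L := by omega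
  set S : Fin (h + 1) → Finset V := R.cset (P.vcls J) L with hS
  have hcard : ∀ i, (S i).card + 1 = s * ((Finset.range d).filter (fun m => P.κ m = i)).card := by
    intro i
    have h1 := P.sum_vcls hJ hs (fun i' => if i' = i then 1 else 0)
    rw [hLe, hI, Finset.sum_ite_eq' Finset.univ i, if_pos (Finset.mem_univ i)] at h1
    rw [Finset.card_filter, hS, R.card_cset' _ (Nat.le_succ L)]
    exact h1
  have OK : P.VOK L M S J s := by
    refine ⟨hJ, by omega, hs, by omega, ?_, ?_⟩
    · intro i _ hi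
      have hi0 : i ≠ 0 := by rintro rfl; omega
      have h1 := hcard i
      have h2 : Even (s * ((Finset.range d).filter (fun m => P.κ m = i)).card) :=
        (hpar i hi0).mul_left s
      rw [← h1] at h2
      have h3 : Odd (S i).card := by
        rw [Nat.even_add_one, Nat.not_even_iff_odd] at h2
        exact h2
      exact Nat.Even.sub_odd (R.card_le hL0 (S i)) hM h3
    · rw [hI, hLe, hS]
      exact R.sum_cset _ (Nat.le_succ L)
  refine ⟨Ht (h + 1) × Fin s, inferInstance, fun p => trl p.1 (P.vw R S J s p.2), ?_, ?_, ?_, ?_, ?_⟩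
  · intro p
    rw [trl_length]
    exact P.vw_length OK p.2.2
  · intro p
    exact trl_nodup _ (P.vw_nodup OK p.2.2)
  · intro p
    exact trl_chain _ (P.vw_chain OK p.2.2)
  · have key : ∀ (g : ℕ) (hg : g < s) (a b : Ht (h + 1) × V) (γ : Ht (h + 1)),
        Nb a b (trl γ (P.vw R S J s g)) →
        ∃ p : Ht (h + 1) × Fin s, Nb a b (trl p.1 (P.vw R S J s p.2)) :=
      fun g hg a b γ hn => ⟨(γ, ⟨g, hg⟩), hn⟩
    rintro ⟨y, x⟩ ⟨y', x'⟩ hadj
    rw [boxProd_adj] at hadj
    rcases hadj with ⟨⟨i, h1⟩, h2⟩ | ⟨h1, h2⟩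
    · change x = x' at h2
      change Stp i y y' at h1
      subst h2
      by_cases hx : x ∈ S i
      · obtain ⟨j, hj, hc, rfl⟩ := (R.mem_cset _).mp hx
        rw [← hLe] at hj
        obtain ⟨g, hg, y0, y0', hs0, hn⟩ := P.vw_conn (R := R) (S := S) OK hj
        rw [hc] at hs0
        obtain ⟨γ, hγ⟩ := trl_cover_stp h1 hs0 hn
        exact key g hg _ _ γ hγ
      · obtain ⟨g, hg, y0, y0', hs0, hn⟩ := P.vw_tog (R := R) (S := S) OK
          (i := i) (by rw [hI]; exact Finset.mem_univ i) hx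
        obtain ⟨γ, hγ⟩ := trl_cover_stp h1 hs0 hn
        exact key g hg _ _ γ hγ
    · change y = y' at h2
      change G.Adj x x' at h1
      subst h2
      obtain ⟨j, hj, hc⟩ := R.cover x x' h1
      rw [← hLe] at hj
      rcases hc with hc | ⟨rfl, rfl⟩ | ⟨rfl, rfl⟩
      · obtain ⟨g, hg, y0, hn⟩ := P.vw_F (R := R) (S := S) OK hj hc
        exact key g hg _ _ _ (trl_cover_same y hn)
      · obtain ⟨g, hg, y0, hn⟩ := P.vw_p (R := R) (S := S) OK hj
        exact key g hg _ _ _ (trl_cover_same y hn)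
      · obtain ⟨g, hg, y0, hn⟩ := P.vw_p (R := R) (S := S) OK hj
        exact key g hg _ _ _ (trl_cover_same y hn.symm)
  · rw [← hE, Fintype.card_prod, Fintype.card_fin, Fintype.card_fun, ZMod.card, Fintype.card_fin]
    ring

end Pool.Agent.Lib.MP_7b50be_co
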