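import Mathlib
import Pool.Agent.Lib.MP_7b50be_co.Defs
import Pool.Agent.Lib.MP_7b50be_co.SpcPath
import Pool.Agent.Lib.MP_7b50be_co.BG

set_option autoImplicit false

namespace Pool.Agent.Lib.MP_7b50be_co

open SimpleGraph

/-! ### Gray code -/

/-- The Gray code. -/
def grayE : (Bool → Bool) ≃ ZMod 4 where
  toFun u := if u true then (if u false then 2 else 1) else (if u false then 3 else 0)
  invFun a b := if b then decide (a = 1 ∨ a = 2) else decide (a = 2 ∨ a = 3)
  left_inv := by decide
  right_inv := by decide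

lemma gray_adj : ∀ u v : Bool → Bool,
    (grayE v = grayE u + 1 ∨ grayE u = grayE v + 1) ↔ ∃ b, u b ≠ v b ∧ ∀ c, u c ≠ v c → c = b := by
  decide

lemma stp_iff {h : ℕ} {i : Fin h} {y y' : Ht h} :
    Stp i y y' ↔ (y' i = y i + 1 ∨ y i = y' i + 1) ∧ ∀ j, j ≠ i → y j = y' j := by
  constructor
  · rintro (H | H)
    · subst H
      refine ⟨Or.inl (by simp), fun j hj => by simp [Pi.single_eq_of_ne hj]⟩
    · subst H
      refine ⟨Or.inr (by simp), fun j hj => by simp [Pi.single_eq_of_ne hj]⟩
  · rintro ⟨H | H, h2⟩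
    · left
      funext j
      by_cases hj : j = i
      · subst hj; simp [H]
      · simp [Pi.single_eq_of_ne hj, h2 j hj]
    · right
      funext j
      by_cases hj : j = i
      · subst hj; simp [H]
      · simp [Pi.single_eq_of_ne hj, h2 j hj]

/-- The reindexing of the coordinates. -/
noncomputable def idxE (m : ℕ) : Fin m × Bool ≃ Fin (2 * m) :=
  Fintype.equivOfCardEq (by simp [mul_comm])

/-- The underlying equivalence of `hyper_iso`. -/
noncomputable def hyperE (m : ℕ) : (Fin (2 * m) → Bool) ≃ Ht m :=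
  ((Equiv.arrowCongr (idxE m).symm (Equiv.refl Bool)).trans (Equiv.curry (Fin m) Bool Bool)).trans
    (Equiv.piCongrRight fun _ => grayE)

lemma hyperE_apply (m : ℕ) (x : Fin (2 * m) → Bool) (i : Fin m) :
    hyperE m x i = grayE (fun b => x (idxE m (i, b))) := rfl

theorem hyper_iso (m : ℕ) : Nonempty (hypercube (2 * m) ≃g Hg m) := by
  refine ⟨⟨hyperE m, ?_⟩⟩
  intro x y
  change (∃ i, Stp i (hyperE m x) (hyperE m y)) ↔ ∃! k, x k ≠ y k
  have key : ∀ i, Stp i (hyperE m x) (hyperE m y) ↔
      (∃ b, x (idxE m (i, b)) ≠ y (idxE m (i, b)) ∧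
        ∀ c, x (idxE m (i, c)) ≠ y (idxE m (i, c)) → c = b) ∧
      ∀ j, j ≠ i → ∀ b, x (idxE m (j, b)) = y (idxE m (j, b)) := by
    intro i
    rw [stp_iff, hyperE_apply, hyperE_apply, gray_adj]
    refine and_congr Iff.rfl (forall_congr' fun j => imp_congr Iff.rfl ?_)
    rw [hyperE_apply, hyperE_apply, Equiv.apply_eq_iff_eq, funext_iff]
  constructor
  · rintro ⟨i, hi⟩
    obtain ⟨⟨b, hb, hu⟩, h2⟩ := (key i).1 hi
    refine ⟨idxE m (i, b), hb, ?_⟩
    intro k hk
    obtain ⟨⟨j, c⟩, rfl⟩ := (idxE m).surjective k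
    by_cases hj : j = i
    · subst hj
      rw [hu c hk]
    · exact absurd (h2 j hj c) hk
  · rintro ⟨k, hk, hu⟩
    obtain ⟨⟨i, b⟩, rfl⟩ := (idxE m).surjective k
    refine ⟨i, (key i).2 ⟨⟨b, hk, ?_⟩, ?_⟩⟩
    · intro c hc
      have := (idxE m).injective (hu _ hc)
      exact (Prod.ext_iff.1 this).2
    · intro j hj c
      by_contra hc
      have := (idxE m).injective (hu _ hc)
      exact hj (Prod.ext_iff.1 this).1

/-! ### Splitting off coordinates -/

/-- Congruence of box products in the first factor. -/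
def boxCongrLeft {α β γ : Type*} {G : SimpleGraph α} {H : SimpleGraph β} (e : G ≃g H)
    (K : SimpleGraph γ) : (boxProd G K) ≃g (boxProd H K) where
  toEquiv := Equiv.prodCongr e.toEquiv (Equiv.refl γ)
  map_rel_iff' := by
    rintro ⟨a, c⟩ ⟨b, d⟩
    simp [boxProd_adj, Iso.map_adj_iff]

lemma Hg_succ (k : ℕ) : Nonempty (Hg (k + 1) ≃g (Hg k □ C4)) := by
  refine ⟨⟨(Fin.snocEquiv (fun _ : Fin (k + 1) => ZMod 4)).symm.trans (Equiv.prodComm _ _), ?_⟩⟩
  intro y y'
  change (Hg k □ C4).Adj (fun i => y i.castSucc, y (Fin.last k))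
    (fun i => y' i.castSucc, y' (Fin.last k)) ↔ ∃ i, Stp i y y'
  rw [boxProd_adj]
  constructor
  · rintro (⟨⟨i, hi⟩, h2⟩ | ⟨h1, h2⟩)
    · refine ⟨i.castSucc, ?_⟩
      rw [stp_iff] at hi ⊢
      refine ⟨hi.1, ?_⟩
      intro j
      refine Fin.lastCases ?_ (fun j => ?_) j
      · intro _; exact h2
      · intro hj
        exact hi.2 j (fun hh => hj (by rw [hh]))
    · refine ⟨Fin.last k, ?_⟩
      rw [stp_iff]
      refine ⟨h1, ?_⟩
      intro j
      refine Fin.lastCases ?_ (fun j => ?_) j
      · intro hj; exact absurd rfl hj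
      · intro _
        exact congrFun h2 j
  · rintro ⟨i, hi⟩
    rw [stp_iff] at hi
    revert hi
    refine Fin.lastCases ?_ (fun i => ?_) i
    · rintro ⟨h1, h2⟩
      right
      refine ⟨h1, ?_⟩
      funext j
      exact h2 _ (Fin.castSucc_lt_last j).ne
    · rintro ⟨h1, h2⟩
      left
      refine ⟨⟨i, stp_iff.2 ⟨h1, ?_⟩⟩, h2 _ (Fin.castSucc_lt_last i).ne'⟩
      intro j hj
      exact h2 _ (fun hh => hj (Fin.castSucc_injective k hh))

theorem Hg_split (h n : ℕ) : Nonempty (Hg (h + n + 1) ≃g (Hg h □ BG n)) := by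
  induction n with
  | zero => exact Hg_succ h
  | succ n ih =>
    obtain ⟨e⟩ := ih
    obtain ⟨f⟩ := Hg_succ (h + n + 1)
    exact ⟨(f.trans (boxCongrLeft e C4)).trans (boxProdAssoc (Hg h) (BG n) C4)⟩

/-! ### Counting edges -/

lemma hyper_adj_iff {n : ℕ} (x y : Fin n → Bool) :
    (hypercube n).Adj x y ↔ ∃ i, y = Function.update x i (!x i) := by
  constructor
  · rintro ⟨i, hi, hu⟩
    refine ⟨i, ?_⟩
    funext j
    by_cases hj : j = i
    · subst hj
      rw [Function.update_self]
      revert hi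
      cases x j <;> cases y j <;> simp
    · rw [Function.update_of_ne hj]
      by_contra hc
      exact hj (hu j (fun hh => hc hh.symm))
  · rintro ⟨i, rfl⟩
    refine ⟨i, ?_, ?_⟩
    · simp
    · intro j hj
      by_contra hc
      exact hj (by simp only [Function.update_of_ne hc])

theorem edge_card (n : ℕ) : 2 * Nat.card (hypercube n).edgeSet = n * 2 ^ n := by
  classical
  have hdeg : ∀ x, (hypercube n).degree x = n := by
    intro x
    have h1 : (hypercube n).neighborFinset x =
        (Finset.univ : Finset (Fin n)).image (fun i => Function.update x i (!x i)) := by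
      ext y
      rw [mem_neighborFinset, hyper_adj_iff]
      simp [eq_comm]
    have hinj : Function.Injective (fun i => Function.update x i (!x i)) := by
      intro i j hij
      by_contra hc
      have := congrFun hij i
      simp only [Function.update_self, Function.update_of_ne hc] at this
      revert this
      cases x i <;> simp
    rw [← card_neighborFinset_eq_degree, h1, Finset.card_image_of_injective _ hinj]
    simp
  have h2 := (hypercube n).sum_degrees_eq_twice_card_edges
  rw [Finset.sum_congr rfl (fun x _ => hdeg x)] at h2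
  rw [Nat.card_eq_fintype_card, ← edgeFinset_card, ← h2]
  simp [mul_comm]

end Pool.Agent.Lib.MP_7b50be_co
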