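import Mathlib
import Pool.Agent.Lib.MP_7b50be_co.AsmO
import Pool.Agent.Lib.MP_7b50be_co.Iso

set_option autoImplicit false
set_option linter.unusedSimpArgs false

namespace Pool.Agent.Lib.MP_7b50be_co

open SimpleGraph

lemma nb_getElem {V : Type*} : ∀ (l : List V) (t : ℕ) (ht : t + 1 < l.length),
    Nb l[t] l[t + 1] l
  | [], t, ht => by simp at ht
  | [a], t, ht => by simp at ht
  | a :: b :: l, 0, _ => nb_head a b l
  | a :: b :: l, t + 1, ht => by
    have := nb_getElem (b :: l) t (by simpa using ht)
    exact this.cons a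

/-- Cutting the Hamilton cycles into halves. -/
theorem dec_half {V : Type} {G : SimpleGraph V} {L M M' : ℕ} (R : HR G L M) (hM : M = 2 * M')
    (hM' : 1 ≤ M') (hE : L * M = Nat.card G.edgeSet) : DecL G M' := by
  refine ⟨Fin L × Bool, inferInstance, fun p => bif p.2 then (R.F p.1).drop M' ++ [R.p p.1]
    else (R.F p.1).take (M' + 1), ?_, ?_, ?_, ?_, ?_⟩
  · rintro ⟨j, b⟩
    cases b
    · simp only [cond_false, List.length_take, R.len j j.2]; omega
    · simp only [cond_true, List.length_append, List.length_drop, R.len j j.2,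
        List.length_singleton]; omega
  · rintro ⟨j, b⟩
    cases b
    · simp only [cond_false]
      exact (R.nodup j j.2).sublist (List.take_sublist _ _)
    · simp only [cond_true]
      rw [List.nodup_append]
      refine ⟨(R.nodup j j.2).sublist (List.drop_sublist _ _), by simp, ?_⟩
      intro a ha b hb hab
      subst hab
      rw [List.mem_singleton] at hb
      subst hb
      obtain ⟨t, ht⟩ : ∃ t, R.F j = R.p j :: t := by
        have := R.head j j.2
        rw [List.head?_eq_some_iff] at this
        exact this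
      have hnd := R.nodup j j.2
      rw [ht, List.nodup_cons] at hnd
      rw [ht] at ha
      obtain ⟨e, rfl⟩ : ∃ e, M' = e + 1 := ⟨M' - 1, by omega⟩
      rw [List.drop_succ_cons] at ha
      exact hnd.1 (List.mem_of_mem_drop ha)
  · rintro ⟨j, b⟩
    cases b
    · simp only [cond_false]
      exact (R.chain j j.2).take _
    · simp only [cond_true]
      rw [List.isChain_append]
      refine ⟨(R.chain j j.2).drop _, List.isChain_singleton _, ?_⟩
      intro a ha b hb
      rw [List.getLast?_drop, if_neg (by rw [R.len j j.2]; omega), R.last j j.2,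
        Option.mem_some_iff] at ha
      rw [List.head?_cons, Option.mem_some_iff] at hb
      subst ha hb
      exact (R.p_adj j j.2).symm
  · intro x y hxy
    obtain ⟨j, hj, hc⟩ := R.cover x y hxy
    have hlen := R.len j hj
    have hcl : Nb (R.p (j + 1)) (R.p j) ((R.F j).drop M' ++ [R.p j]) := by
      apply nb_junction
      · rw [List.getLast?_drop, if_neg (by rw [R.len j hj]; omega), R.last j hj]
      · simp
    rcases hc with hc | ⟨rfl, rfl⟩ | ⟨rfl, rfl⟩
    · obtain ⟨t, ht, hst⟩ := hc.exists_getElem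
      rcases Nat.lt_or_ge t M' with h1 | h1
      · refine ⟨(⟨j, hj⟩, false), ?_⟩
        simp only [cond_false]
        have h2 : t + 1 < ((R.F j).take (M' + 1)).length := by
          rw [List.length_take]; omega
        have h3 := nb_getElem ((R.F j).take (M' + 1)) t h2
        rw [List.getElem_take, List.getElem_take] at h3
        rw [Sym2.eq_iff] at hst
        rcases hst with ⟨rfl, rfl⟩ | ⟨rfl, rfl⟩
        · exact h3
        · exact h3.symm
      · refine ⟨(⟨j, hj⟩, true), ?_⟩
        simp only [cond_true]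
        apply Nb.append_left
        have h2 : t - M' + 1 < ((R.F j).drop M').length := by
          rw [List.length_drop]; omega
        have h3 := nb_getElem ((R.F j).drop M') (t - M') h2
        rw [List.getElem_drop, List.getElem_drop] at h3
        have h4 : M' + (t - M') = t := by omega
        have h5 : M' + (t - M' + 1) = t + 1 := by omega
        simp only [h4, h5] at h3
        rw [Sym2.eq_iff] at hst
        rcases hst with ⟨rfl, rfl⟩ | ⟨rfl, rfl⟩
        · exact h3
        · exact h3.symm
    · exact ⟨(⟨j, hj⟩, true), hcl.symm⟩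
    · exact ⟨(⟨j, hj⟩, true), hcl⟩
  · rw [Fintype.card_prod, Fintype.card_fin, Fintype.card_bool, ← hE, hM]; ring

/-- The product with the trivial height graph. -/
def isoZero {V : Type} (G : SimpleGraph V) : G ≃g (Hg 0 □ G) where
  toEquiv := (Equiv.uniqueProd V (Ht 0)).symm
  map_rel_iff' := by
    intro a b
    rw [boxProd_adj]
    constructor
    · rintro (⟨⟨i, _⟩, _⟩ | ⟨h1, _⟩)
      · exact i.elim0
      · exact h1
    · intro h1
      exact Or.inr ⟨h1, rfl⟩

lemma card_edge_iso {V W : Type*} {G : SimpleGraph V} {H : SimpleGraph W} (e : G ≃g H) :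
    Nat.card G.edgeSet = Nat.card H.edgeSet := Nat.card_congr e.mapEdgeSet

/-- The number of edges. -/
lemma card_edge_prod (h n : ℕ) :
    Nat.card (Hg h □ BG n).edgeSet = (h + n + 1) * 4 ^ (h + n + 1) := by
  obtain ⟨e1⟩ := hyper_iso (h + n + 1)
  obtain ⟨e2⟩ := Hg_split h n
  have h1 := edge_card (2 * (h + n + 1))
  have h2 : (2 : ℕ) ^ 2 = 4 := rfl
  rw [card_edge_iso e1, card_edge_iso e2, pow_mul, h2, mul_assoc] at h1
  exact Nat.eq_of_mul_eq_mul_left (by omega) h1

instance (h n : ℕ) : Finite (Ht h × BV n) := by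
  have := finite_BV n
  infer_instance

instance nonempty_BV (n : ℕ) : Nonempty (BV n) := by
  induction n with
  | zero => exact ⟨(0 : ZMod 4)⟩
  | succ n ih => exact ⟨(Classical.choice ih, (0 : ZMod 4))⟩

/-- Transfer to the hypercube. -/
theorem toHyper {h n N k : ℕ} (hN : h + n + 1 = N) (H : DecL (Hg h □ BG n) k) :
    DecF (hypercube (2 * N)) k := by
  subst hN
  obtain ⟨e1⟩ := hyper_iso (h + n + 1)
  obtain ⟨e2⟩ := Hg_split h n
  have : Nonempty (Ht h × BV n) := ⟨(0, Classical.arbitrary _)⟩
  exact (DecF.iso e1.symm (DecF.iso e2.symm (H.decF inferInstance)))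

/-- Powers of two. -/
theorem top_one {N : ℕ} (hN : 1 ≤ N) : DecF (hypercube (2 * N)) (2 ^ (2 * N - 1)) := by
  obtain ⟨n, rfl⟩ : ∃ n, N = n + 1 := ⟨N - 1, by omega⟩
  obtain ⟨R⟩ := HR_all n
  have h1 : (4 : ℕ) ^ (n + 1) = 2 * 2 ^ (2 * (n + 1) - 1) := by
    have : 2 * (n + 1) - 1 + 1 = 2 * (n + 1) := by omega
    rw [← pow_succ', this, pow_mul]; norm_num
  have h2 : DecL (BG n) (2 ^ (2 * (n + 1) - 1)) := by
    apply dec_half R h1 (Nat.pow_pos (by omega))
    rw [card_edge_iso (isoZero (BG n)), card_edge_prod 0 n]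
    simp only [Nat.zero_add]
  have := finite_BV n
  obtain ⟨e1⟩ := hyper_iso (0 + n + 1)
  obtain ⟨e2⟩ := Hg_split 0 n
  have h3 := DecF.iso e1.symm (DecF.iso e2.symm (DecF.iso (isoZero (BG n)) (h2.decF inferInstance)))
  have h4 : 0 + n + 1 = n + 1 := by omega
  rw [h4] at h3
  exact h3

end Pool.Agent.Lib.MP_7b50be_co
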