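import Mathlib
import Pool.Agent.Lib.MP_7b50be_co.PathO

set_option autoImplicit false
set_option linter.unusedSimpArgs false

namespace Pool.Agent.Lib.MP_7b50be_co

open SimpleGraph

instance {h : ℕ} (i : Fin h) (y y' : Ht h) : Decidable (Stp i y y') :=
  inferInstanceAs (Decidable (y' = y + Pi.single i 1 ∨ y = y' + Pi.single i 1))

instance {h : ℕ} (y : Ht (h + 1)) : Decidable (InA y) :=
  inferInstanceAs (Decidable (y 0 = 0 ∨ y 0 = 1))

/-- The special path. -/
def zS (t : ℕ) : Ht 2 :=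
  if t = 0 then ![0, 0] else if t = 1 then ![0, 1] else if t = 2 then ![0, 2] else
    if t = 3 then ![0, 3] else if t = 4 then ![1, 3] else ![1, 2]

/-- The special toggles. -/
def μS : Fin 2 → ℕ := ![3, 1]

lemma zS_inj (m m' : ℕ) (hm : m ≤ 5) (hm' : m' ≤ 5) (H : zS m = zS m') : m = m' := by
  have key : ∀ a b : Fin 6, zS a = zS b → a = b := by decide
  have := key ⟨m, by omega⟩ ⟨m', by omega⟩ H
  exact congrArg Fin.val this

lemma zS_stp (t : ℕ) (ht : t < 5) : ∃ i, Stp i (zS t) (zS (t + 1)) := by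
  have key : ∀ a : Fin 5, ∃ i, Stp i (zS a) (zS (a + 1)) := by decide
  exact key ⟨t, ht⟩

theorem exists_pathS : ∃ (P : HPath 2 5) (τ : Ht 2), OKO (h := 0) P τ ∧ P.I = Finset.univ := by
  let P : HPath 2 5 := mkPath zS Finset.univ μS zS_stp zS_inj (by decide) (by decide) (by decide)
    (by decide)
  refine ⟨P, ![2, 2], ⟨rfl, by decide, ?_, ?_, Finset.mem_univ _, ?_, ?_, ?_, ?_⟩, rfl⟩
  · intro m hm
    have key : ∀ a : Fin 6, InA (zS a) := by decide
    exact key ⟨m, by omega⟩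
  · change Stp 0 (zS 5) (zS 0 + ![2, 2])
    decide
  · change Stp 1 (zS 0) (zS 1)
    decide
  · change zS 2 - zS 1 = zS 1 - zS 0
    decide
  · intro i hi
    rw [Nat.even_iff, HPath.count_par _ i le_rfl]
    change ((zS 5 i).val + (zS 0 i).val) % 2 = 0
    revert hi
    revert i
    decide
  · rw [Nat.odd_iff, HPath.count_par _ 0 le_rfl]
    change ((zS 5 0).val + (zS 0 0).val) % 2 = 1
    decide

theorem exists_pathO0 (h d : ℕ) (hdodd : d % 2 = 1) (h1 : 4 ^ (h + 1) < d)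
    (h2 : d < 2 * 4 ^ (h + 1)) :
    ∃ (P : HPath (h + 2) d) (τ : Ht (h + 2)), OKO P τ ∧ P.I = Finset.univ := by
  obtain ⟨m, hm⟩ : ∃ m, d + 1 = 2 * m := ⟨(d + 1) / 2, by omega⟩
  by_cases hm4 : 4 ≤ m
  · obtain ⟨P, τ, OK, hI, _⟩ := exists_pathO_aux h d m hm h1 h2 Finset.univ (Finset.mem_univ _)
      (fun _ => hm4)
    exact ⟨P, τ, OK, hI⟩
  · have hh : h = 0 := by
      by_contra hh
      have : 4 ^ 2 ≤ 4 ^ (h + 1) := Nat.pow_le_pow_right (by omega) (by omega)
      omega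
    subst hh
    have hd : d = 5 := by omega
    subst hd
    exact exists_pathS

end Pool.Agent.Lib.MP_7b50be_co
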