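import Mathlib
import Pool.Agent.Lib.MP_7b50be_co.Half
import Pool.Agent.Lib.MP_7b50be_co.PathS
import Pool.Agent.Lib.MP_7b50be_co.CaseE

set_option autoImplicit false
set_option linter.unusedSimpArgs false

namespace Pool.Agent.Lib.MP_7b50be_co

open SimpleGraph

lemma four_pow_big (L : ℕ) (hL : 2 ≤ L) : 3 * L + 3 ≤ 4 ^ L := by
  induction L, hL using Nat.le_induction with
  | base => norm_num
  | succ n hn ih => rw [pow_succ]; omega

/-- Case (E) for the hypercube. -/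
theorem top_E {N d s h : ℕ} (hN : d * s = N) (hs : 1 ≤ s) (h1 : 2 * 4 ^ h ≤ d)
    (h2 : d < 4 ^ (h + 1)) : DecF (hypercube (2 * N)) (d * 4 ^ (N - (h + 1))) := by
  classical
  have hhd : h + 1 < d := by
    have : h < 4 ^ h := Nat.lt_pow_self (by omega)
    omega
  have hdN : d ≤ N := by rw [← hN]; exact Nat.le_mul_of_pos_right d (by omega)
  obtain ⟨n, hn⟩ : ∃ n, N = (h + 1) + n + 1 := ⟨N - (h + 2), by omega⟩
  obtain ⟨P, hI, hμ, hpar, _⟩ := exists_pathE h d h1 h2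
  obtain ⟨R⟩ := HR_all n
  have hNL : N - (h + 1) = n + 1 := by omega
  rw [hNL]
  apply toHyper hn.symm
  apply caseE (s := s) R P hI hμ hpar hs (by omega) hhd
  · exact ⟨2 * 4 ^ n, by ring⟩
  · rw [card_edge_prod, ← hn, hN, hn]; ring

/-- Case (O) for the hypercube. -/
theorem top_O {N d s h : ℕ} (hN : d * s = N) (hs : s % 2 = 1) (hd : d % 2 = 1)
    (h1 : 4 ^ (h + 1) < d) (h2 : d < 2 * 4 ^ (h + 1)) :
    DecF (hypercube (2 * N)) (2 * (d * 4 ^ (N - (h + 2)))) := by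
  classical
  have hhd : h + 4 ≤ d := by
    have h3 : h < 4 ^ h := Nat.lt_pow_self (by omega)
    have h4 : 4 ^ (h + 1) = 4 * 4 ^ h := by ring
    omega
  have hdN : d ≤ N := by rw [← hN]; exact Nat.le_mul_of_pos_right d (by omega)
  obtain ⟨n, hn⟩ : ∃ n, N = (h + 2) + n + 1 := ⟨N - (h + 3), by omega⟩
  obtain ⟨R⟩ := HR_all n
  have hNL : N - (h + 2) = n + 1 := by omega
  have hn1 : 2 ≤ n + 1 := by
    have h5 : 5 ≤ d := by
      have h3 : 1 ≤ 4 ^ h := Nat.pow_pos (by omega)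
      have h4 : 4 ^ (h + 1) = 4 * 4 ^ h := by ring
      omega
    omega
  have hMeven : Even (4 ^ (n + 1)) := ⟨2 * 4 ^ n, by ring⟩
  have hMbig := four_pow_big (n + 1) hn1
  rw [hNL]
  apply toHyper hn.symm
  obtain ⟨q, hq⟩ : ∃ q, s = 2 * q + 1 := ⟨s / 2, by omega⟩
  subst hq
  rcases Nat.eq_zero_or_pos q with h0 | h0
  · subst h0
    rw [Nat.mul_zero, Nat.zero_add, Nat.mul_one] at hN
    obtain ⟨P, τ, OK, hI⟩ := exists_pathO0 h d hd h1 h2
    apply asmO_zero R P τ OK hI (by omega) (by omega) hMeven hMbig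
    rw [card_edge_prod, ← hn, hN, hn]; ring
  · apply asmO_pos (q := q) R hd h1 h2 h0 (by omega) hMeven hMbig
    rw [card_edge_prod, ← hn, hN, hn]; ring

/-- The top case for an odd part at least three. -/
theorem top {N d b : ℕ} (hd : d % 2 = 1) (hd3 : 3 ≤ d) (hdN : d ∣ N) (hN : 1 ≤ N)
    (hb1 : 2 ^ b < d) (hb2 : d < 2 ^ (b + 1)) (hbN : b + 1 ≤ 2 * N) :
    DecF (hypercube (2 * N)) (d * 2 ^ (2 * N - (b + 1))) := by
  obtain ⟨s, hs⟩ := hdN
  have hs1 : 1 ≤ s := by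
    rcases Nat.eq_zero_or_pos s with h0 | h0
    · subst h0; omega
    · exact h0
  have hpow4 : ∀ a : ℕ, 2 ^ (2 * a) = 4 ^ a := fun a => by rw [pow_mul]; norm_num
  rcases Nat.even_or_odd' b with ⟨c, hc | hc⟩
  · -- `b` is even: the exponent is odd
    subst hc
    obtain ⟨h, rfl⟩ : ∃ h, c = h + 1 := by
      refine ⟨c - 1, ?_⟩
      rcases Nat.eq_zero_or_pos c with h0 | h0
      · subst h0; norm_num at hb2; omega
      · omega
    have e1 : 4 ^ (h + 1) < d := by rw [← hpow4]; exact hb1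
    have e2 : d < 2 * 4 ^ (h + 1) := by rw [← hpow4, ← pow_succ']; exact hb2
    have hNh : h + 2 ≤ N := by omega
    have e3 : 2 * N - (2 * (h + 1) + 1) = 2 * (N - (h + 2)) + 1 := by omega
    have e4 : d * 2 ^ (2 * N - (2 * (h + 1) + 1)) = 2 * (d * 4 ^ (N - (h + 2))) := by
      rw [e3, pow_succ, hpow4]; ring
    rw [e4]
    rcases Nat.even_or_odd' s with ⟨s', hs' | hs'⟩
    · have h3 := top_E (N := N) (d := 2 * d) (s := s') (h := h + 1) (by rw [hs, hs']; ring)
        (by omega) (by omega) (by rw [pow_succ 4 (h + 1)]; omega)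
      have e5 : 2 * d * 4 ^ (N - (h + 1 + 1)) = 2 * (d * 4 ^ (N - (h + 2))) := by ring_nf
      rw [e5] at h3
      exact h3
    · exact top_O (s := s) hs.symm (by omega) hd e1 e2
  · subst hc
    have e1 : 2 * 4 ^ c ≤ d := by rw [← hpow4, ← pow_succ']; exact hb1.le
    have e2 : d < 4 ^ (c + 1) := by
      rw [← hpow4]
      have : 2 * (c + 1) = 2 * c + 1 + 1 := by ring
      rw [this]; exact hb2
    have e3 : 2 * N - (2 * c + 1 + 1) = 2 * (N - (c + 1)) := by omega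
    rw [e3, hpow4]
    exact top_E hs.symm hs1 e1 e2

/-- **Theorem.** For every even `n = 2 N ≥ 2` and every `k ≥ 1` with `k ≤ 2 ^ n - 1` and
`k ∣ n 2 ^ (n - 1)`, the edges of the hypercube decompose into paths with `k` edges. -/
theorem main {N k : ℕ} (hN : 1 ≤ N) (hk : 1 ≤ k) (hk2 : k < 4 ^ N) (hdvd : k ∣ N * 4 ^ N) :
    DecF (hypercube (2 * N)) k := by
  have hpow4 : ∀ a : ℕ, 2 ^ (2 * a) = 4 ^ a := fun a => by rw [pow_mul]; norm_num
  obtain ⟨a, d, hdo, hkd⟩ := Nat.exists_eq_two_pow_mul_odd (n := k) (by omega)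
  have hd2 : d % 2 = 1 := Nat.odd_iff.mp hdo
  have hcop : Nat.Coprime d (4 ^ N) := by
    rw [← hpow4]
    exact Nat.Coprime.pow_right _ (Nat.coprime_two_right.mpr hdo)
  have hdN : d ∣ N := by
    apply hcop.dvd_of_dvd_mul_right
    exact (Dvd.intro_left (2 ^ a) hkd.symm).trans hdvd
  by_cases hd1 : d = 1
  · subst hd1
    rw [mul_one] at hkd
    have ha : a ≤ 2 * N - 1 := by
      rw [hkd, ← hpow4] at hk2
      have := (Nat.pow_lt_pow_iff_right (by omega : 1 < 2)).mp hk2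
      omega
    obtain ⟨e, he⟩ : ∃ e, 2 * N - 1 = e + a := ⟨2 * N - 1 - a, by omega⟩
    apply DecF.cut (m := 2 ^ e) hk
    rw [hkd, ← pow_add, ← he]
    exact top_one hN
  · have hd3 : 3 ≤ d := by omega
    obtain ⟨b, hb⟩ : ∃ b, b = Nat.log 2 d := ⟨_, rfl⟩
    have hb1 : 2 ^ b ≤ d := by rw [hb]; exact Nat.pow_log_le_self 2 (by omega)
    have hb2 : d < 2 ^ (b + 1) := by rw [hb]; exact Nat.lt_pow_succ_log_self (by omega) d
    have hb3 : 1 ≤ b := by
      by_contra hc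
      have : b = 0 := by omega
      subst this
      norm_num at hb2
      omega
    have hb1' : 2 ^ b < d := by
      rcases Nat.lt_or_eq_of_le hb1 with h | h
      · exact h
      · exfalso
        obtain ⟨b', rfl⟩ : ∃ b', b = b' + 1 := ⟨b - 1, by omega⟩
        rw [pow_succ] at h
        omega
    have hab : a + b < 2 * N := by
      have h1 : 2 ^ (a + b) < 2 ^ (2 * N) := by
        rw [hpow4]
        calc 2 ^ (a + b) = 2 ^ a * 2 ^ b := pow_add _ _ _
          _ ≤ 2 ^ a * d := Nat.mul_le_mul_left _ hb1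
          _ = k := hkd.symm
          _ < 4 ^ N := hk2
      exact (Nat.pow_lt_pow_iff_right (by omega : 1 < 2)).mp h1
    obtain ⟨e, he⟩ : ∃ e, 2 * N - (b + 1) = e + a := ⟨2 * N - (b + 1) - a, by omega⟩
    apply DecF.cut (m := 2 ^ e) hk
    have h3 := top hd2 hd3 hdN hN hb1' hb2 (by omega)
    rw [he] at h3
    have h4 : d * 2 ^ (e + a) = 2 ^ e * k := by rw [hkd]; ring
    rw [h4] at h3
    exact h3

/-- **Erde's question for even dimension.** -/
theorem erde {n k : ℕ} (hn : Even n) (hn2 : 2 ≤ n) (hk : 1 ≤ k) (hk2 : k ≤ 2 ^ n - 1)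
    (hdvd : k ∣ n * 2 ^ (n - 1)) : PartitionsIntoPaths (hypercube n) k := by
  obtain ⟨N, hN⟩ := hn
  have hn' : n = 2 * N := by omega
  subst hn'
  have hpow : (2 : ℕ) ^ (2 * N) = 4 ^ N := by rw [pow_mul]; norm_num
  have hpos : 0 < 4 ^ N := Nat.pow_pos (by omega)
  have hsucc : 2 * 2 ^ (2 * N - 1) = 4 ^ N := by
    have : 2 * N - 1 + 1 = 2 * N := by omega
    rw [← pow_succ', this, hpow]
  apply DecF.partitions
  apply main (by omega) hk
  · rw [hpow] at hk2; omega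
  · have : 2 * N * 2 ^ (2 * N - 1) = N * 4 ^ N := by rw [← hsucc]; ring
    rwa [this] at hdvd

end Pool.Agent.Lib.MP_7b50be_co
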